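import Pool.Agent.Work.MP_63853a_lc.Tr.Defs

set_option autoImplicit false

/-!
# Definitions: the tree sampler with edge weights and importance weights
-/

namespace Pool.Agent.Work.MP_63853a_lc.Tr

open Finset Pool.Agent.Work.MP_63853a_lc

/-- the weight of the edge set `A` in the random cluster model of `ψ` with edge weights `u` -/
noncomputable def wg {V E : Type} (ψ : E → V × V) (q : ℝ) (u : E → ℝ) (A : Finset E) : ℝ :=
  (∏ e ∈ A, u e) * q ^ kk ψ A

open Classical in
/-- the tree sampler for the random cluster model of `ψ` with edge weights `u`: for every subtree, with edge set `S`, it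
computes `N` random subsets `P i` of `S` and a total weight `m`; for a node the sets are drawn from the `N ^ 2` unions of
a set of the left subtree and a set of the right subtree. `trun ψ q u N t f` is the expected value of `f P m` for the
tree `t`. -/
noncomputable def trun {V E : Type} [Fintype E] (ψ : E → V × V) (q : ℝ) (u : E → ℝ) (N : ℕ) :
    ETree E → ((Fin N → Finset E) → ℝ → ℝ) → ℝ
  | .nil, f => f (fun _ => ∅) (q ^ kk ψ univ)
  | .leaf e, f => draw N (fun b : Bool => if b then {e} else ∅)
      (fun b => if b then u e * q ^ kk ψ univ else q ^ kk ψ (univ \ {e})) f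
  | .node l r, f => trun ψ q u N l fun P a => trun ψ q u N r fun R b =>
      draw N (fun i : Fin N × Fin N => P i.1 ∪ R i.2)
        (fun i => a * b / N ^ 2 * (q ^ kk ψ (P i.1 ∪ R i.2 ∪ (univ \ (l.edges ∪ r.edges))) /
          (q ^ kk ψ (P i.1 ∪ (univ \ l.edges)) * q ^ kk ψ (R i.2 ∪ (univ \ r.edges))))) f

/-- the estimate of `tutte φ x y` computed from the sets `P i` and the total weight `m` given by the tree sampler for
the graph `ψ` (on the same edges) with edge weights `u` -/
noncomputable def tval {V W E : Type} [Fintype V] [Fintype E] (φ : E → V × V) (ψ : E → W × W) (x y : ℝ) (u : E → ℝ)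
    {N : ℕ} (P : Fin N → Finset E) (m : ℝ) : ℝ :=
  (m / N * ∑ i, wg φ ((x - 1) * (y - 1)) (fun _ => y - 1) (P i) / wg ψ ((x - 1) * (y - 1)) u (P i)) /
    ((x - 1) ^ kk φ univ * (y - 1) ^ Fintype.card V)

open Classical in
/-- the probability that this estimate is in the interval `[(1 - ε) T, (1 + ε) T]`, `T = tutte φ x y` -/
noncomputable def tgood {V W E : Type} [Fintype V] [Fintype E] (φ : E → V × V) (ψ : E → W × W) (x y : ℝ) (u : E → ℝ)
    (t : ETree E) (ε : ℝ) (N : ℕ) : ℝ :=
  trun ψ ((x - 1) * (y - 1)) u N t fun P m =>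
    if |tval φ ψ x y u P m - tutte φ x y| ≤ ε * tutte φ x y then 1 else 0

/-- one plus the chi-square divergence of the random cluster measure of `φ` from the one of `ψ` with edge weights
`u` -/
noncomputable def chi {V W E : Type} [Fintype E] (φ : E → V × V) (ψ : E → W × W) (x y : ℝ) (u : E → ℝ) : ℝ :=
  (∑ A : Finset E, wg ψ ((x - 1) * (y - 1)) u A) *
    (∑ A : Finset E, wg φ ((x - 1) * (y - 1)) (fun _ => y - 1) A ^ 2 / wg ψ ((x - 1) * (y - 1)) u A) /
    (∑ A : Finset E, wg φ ((x - 1) * (y - 1)) (fun _ => y - 1) A) ^ 2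

/-- every class of `c` induces a `κ`-edge-connected subgraph: a set of vertices which separates two vertices of one
class is left by at least `κ` edges with both ends in one class -/
def Strong {V E : Type} (φ : E → V × V) (c : V → V) (κ : ℝ) : Prop :=
  ∀ S : Set V, (∃ u ∈ S, ∃ v ∉ S, c u = c v) →
    κ ≤ (Set.ncard {e : E | c (φ e).1 = c (φ e).2 ∧ ¬ ((φ e).1 ∈ S ↔ (φ e).2 ∈ S)} : ℝ)

open Classical in
/-- the tree of the edges which belong to the sets of `T`, followed by the other edges -/
noncomputable def builds {V E : Type} [Fintype V] [Fintype E] (φ : E → V × V) (c : V → V) (κ : ℕ) (T : VTree V) :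
    ETree E :=
  cat (build φ c κ T) (univ \ SS φ c κ univ).toList

/-! ## Tools -/

open Classical in
/-- the weighted sum of `F (A ∪ B)` over `A ⊆ S` -/
noncomputable def PF {V E : Type} (ψ : E → V × V) (q : ℝ) (u : E → ℝ) (S B : Finset E) (F : Finset E → ℝ) : ℝ :=
  ∑ A ∈ S.powerset, (∏ e ∈ A, u e) * (q ^ kk ψ (A ∪ B) * F (A ∪ B))

open Classical in
/-- the test function for the continuation `B` and the function `F` -/
noncomputable def GF {V E : Type} [Fintype E] (ψ : E → V × V) (q : ℝ) (S B : Finset E) (F : Finset E → ℝ)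
    (A : Finset E) : ℝ :=
  q ^ kk ψ (A ∪ B) / q ^ kk ψ (A ∪ (univ \ S)) * F (A ∪ B)

end Pool.Agent.Work.MP_63853a_lc.Tr
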