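import Pool.Agent.Work.MP_63853a_lc.Tr.BldW
import Pool.Agent.Work.MP_63853a_lc.Tr.G.Defs

set_option autoImplicit false

/-!
# BldG (size S-M): the tree with all edges

`builds = cat (build φ c κ T) (univ \ SS φ c κ univ).toList`. `cat_edges`, `cat_nodup`, `cat_size`, `cat_sets` (`Tr/CatF`),
`build_edges`, `build_nodup`, `build_size` (`Tr/Bld`) with `T.verts = univ`. Size: `build.size + 1 ≤ 2 |V| + 2 |SS|` and
`2 |univ \ SS|` is added. Width: a set of `builds` is a set of `build` (`build_lam`), or `{e}` (`lam_le` with the two ends: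
`lam ≤ 2 ≤ 3 * k * (κ + 2)`, `1 ≤ k` because `T` has a leaf), or `SS univ ⊆ S`: then all edges outside `S` are loops of `quo φ c`, and
`lam_le` with `W = ∅` gives `0`.
-/

namespace Pool.Agent.Work.MP_63853a_lc.Tr

open Finset Pool.Agent.Work.MP_63853a_lc

variable {V E : Type} [Fintype V] [Fintype E]

omit [Fintype V] in
private theorem bg_ne (T : VTree V) : T.verts.Nonempty := by
  classical
  induction T with
  | leaf v => exact ⟨v, by simp [VTree.verts]⟩
  | node l r ihl _ =>
    obtain ⟨v, hv⟩ := ihl
    exact ⟨v, by simp only [VTree.verts, Finset.mem_union]; exact Or.inl hv⟩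

theorem builds_ok (φ : E → V × V) {κ : ℕ} (hκ : 2 ≤ κ) {T : VTree V} (hT : T.Nodup) (hTu : T.verts = univ)
    (c : V → V) (hc : ∀ u v, c u = c v ↔ Relation.EqvGen (Gen φ κ T) u v) {k : ℕ}
    (hk : ∀ X ∈ T.sets, Set.ncard (out φ X '' (X : Set V)) ≤ k) :
    (builds φ c κ T).Nodup ∧ (builds φ c κ T).edges = univ ∧
      (builds φ c κ T).size ≤ 2 * (Fintype.card V + Fintype.card E) ∧
      ∀ S ∈ (builds φ c κ T).sets, lam (quo φ c) S ≤ 3 * k * (κ + 2) := by
  classical
  have hE : (build φ c κ T).edges = SS φ c κ univ := by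
    rw [build_edges φ c hκ T hT, hTu]
  have hsz := build_size φ c hκ T hT
  rw [hTu] at hsz
  have hk1 : 1 ≤ k := by
    refine le_trans ?_ (hk _ (verts_mem T))
    rw [Nat.one_le_iff_ne_zero]
    intro h0
    rw [Set.ncard_eq_zero (Set.toFinite _)] at h0
    obtain ⟨v, hv⟩ := bg_ne T
    have h1 : out φ T.verts v ∈ out φ T.verts '' (T.verts : Set V) := Set.mem_image_of_mem _ (by exact_mod_cast hv)
    rw [h0] at h1
    exact h1
  refine ⟨?_, ?_, ?_, ?_⟩
  · unfold builds
    refine cat_nodup _ _ (build_nodup φ c hκ T hT) (Finset.nodup_toList _) ?_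
    intro e he
    rw [Finset.mem_toList, Finset.mem_sdiff] at he
    rw [hE]
    exact he.2
  · unfold builds
    rw [cat_edges, hE, Finset.toList_toFinset]
    ext e
    simp only [Finset.mem_union, Finset.mem_sdiff, Finset.mem_univ, true_and, iff_true]
    exact Classical.em _
  · unfold builds
    rw [cat_size, Finset.length_toList]
    have h1 : (univ \ SS φ c κ univ).card + (SS φ c κ univ).card = (univ : Finset E).card :=
      Finset.card_sdiff_add_card_eq_card (Finset.subset_univ _)
    rw [Finset.card_univ] at h1 hsz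
    omega
  · intro S hS
    unfold builds at hS
    rcases cat_sets _ _ hS with h | ⟨e, he⟩ | ⟨h1, h2⟩
    · exact build_lam φ hκ hT c hc hk h
    · rw [he]
      have h1 := lam_le (quo φ c) ({e} : Finset E) {(quo φ c e).1, (quo φ c e).2} (fun p hp _ => by
        obtain ⟨f, hf, _, hf'⟩ := hp
        rw [Finset.mem_singleton] at hf
        rw [hf] at hf'
        rw [Finset.mem_insert, Finset.mem_singleton]
        exact hf'.imp Eq.symm Eq.symm)
      refine h1.trans (Finset.card_le_two.trans ?_)
      nlinarith [Nat.zero_le κ, Nat.zero_le k]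
    · have h3 := lam_le (quo φ c) S ∅ (fun p _ hp => by
        obtain ⟨f, hf, hf', _⟩ := hp
        exfalso
        apply hf
        apply h1
        rw [hE, mem_SS_univ]
        exact hf')
      rw [Finset.card_empty] at h3
      exact h3.trans (Nat.zero_le _)

end Pool.Agent.Work.MP_63853a_lc.Tr
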