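import Pool.Agent.Work.MP_63853a_lc.Tr.G.AsmG
import Pool.Agent.Work.MP_63853a_lc.Tr.G.BldG
import Pool.Agent.Work.MP_63853a_lc.Tr.Lab

set_option autoImplicit false

/-!
# GII (size S): bounded clique-width

`asm_g` with `α = 3 * k`, `s = 2 * (card V + card E + 1)`, `R = Gen φ κ T` (`gen_com`), `t = builds φ c κ T` (`builds_ok`).
-/

namespace Pool.Agent.Work.MP_63853a_lc.Tr

open Finset Pool.Agent.Work.MP_63853a_lc

theorem g_two (x y : ℝ) (hx : 1 < x) (hy : 1 < y) (hq : 1 ≤ (x - 1) * (y - 1)) (k : ℕ) :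
    ∃ b C : ℝ, ∀ (V E : Type) [Fintype V] [Fintype E] (φ : E → V × V) (T : VTree V),
      T.Nodup → T.verts = univ → (∀ X ∈ T.sets, Set.ncard (out φ X '' (X : Set V)) ≤ k) →
      ∀ κ : ℕ, κ = ⌈b * Real.log (2 * (Fintype.card V + Fintype.card E + 1) : ℕ)⌉₊ →
      ∃ c : V → V, (∀ u v, c u = c v ↔ Relation.EqvGen (Gen φ κ T) u v) ∧ ∀ ε : ℝ, 0 < ε → ε ≤ 1 →
        ∀ N : ℕ, ((2 * (Fintype.card V + Fintype.card E + 1) : ℕ) : ℝ) ^ C / ε ^ 2 ≤ N →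
          3 / 4 ≤ tgood φ (quo φ c) x y (fun _ => y - 1) (builds φ c κ T) ε N := by
  obtain ⟨b, C, h⟩ := asm_g x y hx hy hq (3 * k)
  refine ⟨b, C, ?_⟩
  intro V E _ _ φ T hT hU hk κ hκ
  have h2 : (2 : ℝ) ≤ ((2 * (Fintype.card V + Fintype.card E + 1) : ℕ) : ℝ) := by
    have : (2 : ℕ) ≤ 2 * (Fintype.card V + Fintype.card E + 1) := by omega
    exact_mod_cast this
  have h3 : ((Fintype.card V : ℕ) : ℝ) ≤
      ((2 * (Fintype.card V + Fintype.card E + 1) : ℕ) : ℝ) := by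
    have : Fintype.card V ≤ 2 * (Fintype.card V + Fintype.card E + 1) := by omega
    exact_mod_cast this
  obtain ⟨hk2, c, hc, hm⟩ := h V E φ ((2 * (Fintype.card V + Fintype.card E + 1) : ℕ) : ℝ)
    (Gen φ κ T) h2 h3 (fun u w huw _ => by rw [← hκ]; exact gen_com φ huw)
  rw [← hκ] at hk2 hm
  refine ⟨c, hc, ?_⟩
  obtain ⟨b1, b2, b3, b4⟩ := builds_ok φ hk2 hT hU c hc hk
  intro ε hε hε1 N hN
  refine hm (builds φ c κ T) ε b1 b2 ?_ b4 hε hε1 N hN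
  have : (builds φ c κ T).size ≤ 2 * (Fintype.card V + Fintype.card E + 1) := by omega
  exact_mod_cast this

end Pool.Agent.Work.MP_63853a_lc.Tr
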