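import Pool.Agent.Work.MP_63853a_lc.Tr.G.AsmG
import Pool.Agent.Work.MP_63853a_lc.Tr.IndW

set_option autoImplicit false

/-!
# GIII (size S): separators of bounded independence number

`asm_g` with `α = k * k + k`, `s = card V + card E + t.size + 1`, `R = Close φ κ` (`Close` gives `Com`), `lam_ind`; compare
`Tr/MainIII.lean` (proved).
-/

namespace Pool.Agent.Work.MP_63853a_lc.Tr

open Finset Pool.Agent.Work.MP_63853a_lc

theorem g_three (x y : ℝ) (hx : 1 < x) (hy : 1 < y) (hq : 1 ≤ (x - 1) * (y - 1)) (k : ℕ) :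
    ∃ b C : ℝ, ∀ (V E : Type) [Fintype V] [Fintype E] (φ : E → V × V) (t : ETree E),
      t.Nodup → t.edges = univ → (∀ S ∈ t.sets, Ind φ k (mid φ S)) →
      ∀ κ : ℕ, κ = ⌈b * Real.log (Fintype.card V + Fintype.card E + t.size + 1 : ℕ)⌉₊ →
      ∃ c : V → V, (∀ u v, c u = c v ↔ Relation.EqvGen (Close φ κ) u v) ∧ ∀ ε : ℝ, 0 < ε → ε ≤ 1 →
        ∀ N : ℕ, ((Fintype.card V + Fintype.card E + t.size + 1 : ℕ) : ℝ) ^ C / ε ^ 2 ≤ N →
          3 / 4 ≤ tgood φ (quo φ c) x y (fun _ => y - 1) t ε N := by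
  classical
  obtain ⟨b, C, h⟩ := asm_g x y hx hy hq (k * k + k)
  refine ⟨b, C, ?_⟩
  intro V E _ _ φ t ht hU hk κ hκ
  have ht1 : 1 ≤ t.size := by
    cases t <;> simp only [ETree.size] <;> omega
  have h2 : (2 : ℝ) ≤ ((Fintype.card V + Fintype.card E + t.size + 1 : ℕ) : ℝ) := by
    have : (2 : ℕ) ≤ Fintype.card V + Fintype.card E + t.size + 1 := by omega
    exact_mod_cast this
  have h3 : (Fintype.card V : ℝ) ≤ ((Fintype.card V + Fintype.card E + t.size + 1 : ℕ) : ℝ) := by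
    have : Fintype.card V ≤ Fintype.card V + Fintype.card E + t.size + 1 := by omega
    exact_mod_cast this
  obtain ⟨hk2, c, hc, hm⟩ := h V E φ ((Fintype.card V + Fintype.card E + t.size + 1 : ℕ) : ℝ) (Close φ κ) h2 h3
    (fun u w huw _ => by
      rw [← hκ]
      refine ⟨_, huw.2, fun z hz => ?_⟩
      simp only [Finset.mem_filter, Finset.mem_univ, true_and] at hz
      exact hz)
  rw [← hκ] at hk2 hm
  refine ⟨c, hc, ?_⟩
  intro ε hε hε1 N hN
  refine hm t ε ht hU ?_ ?_ hε hε1 N hN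
  · have : t.size ≤ Fintype.card V + Fintype.card E + t.size + 1 := by omega
    exact_mod_cast this
  · intro S hS
    refine (lam_ind φ κ c hc S (hk S hS)).trans ?_
    nlinarith [Nat.zero_le (k * κ), Nat.zero_le (k * k), Nat.zero_le k]

end Pool.Agent.Work.MP_63853a_lc.Tr
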