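import Pool.Agent.Work.MP_63853a_lc.Tr.G.StrM

set_option autoImplicit false

/-!
# StrX (size M): the chi-square divergence for strong classes

`q = (x-1)(y-1)`, `v = y-1`, `ψ = quo φ c`, `n = card V`, `m = (Set.range c).ncard`, `A_I = A.filter (c (φ e).1 = c (φ e).2)`,
`g_φ A = wg φ q v A = v^|A| q^kk φ A`, `g_ψ` similarly. (1) `kk φ A + n ≥ kk ψ A + m` for all `A`, so
`g_φ ≥ q^m / q^n g_ψ`: the map `Cl ψ A → Cl φ A`-like; proof by: the number of classes of `quo φ c` is `kk ψ A`, where the `n - m`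
vertices outside `range c` are isolated in `ψ`; the map `Cl φ A → {classes of elements of range c in Cl ψ A}`,
`cls φ A z ↦ cls ψ A (c z)` is well defined and onto, and the remaining `n - m` classes of `ψ` are single vertices. (2)
`kk φ A + kk ψ A_I ≤ kk φ A_I + kk ψ A` and `kk ψ A_I = n` (all edges of `A_I` are loops of `ψ`): by induction adding the edges of
`A \ A_I` to `A_I`: an edge which crosses in `ψ` crosses in `φ` (a path in `φ` gives a path in `ψ`). So
`g_φ^2 / g_ψ = g_ψ q^(2 (kk φ A - kk ψ A)) ≤ g_ψ (q^2)^(kk φ A_I) / q^(2n)`. (3) With `p = 1/x = v/(v+q)`,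
`g_ψ A = K wt p A f A`, `f A = q^(|A| + kk ψ A)` increasing (as in `Tr/Glue.lean`: lemmas `alg`, `kk_card_mono`), the function
`(q^2)^kk φ A_I` is decreasing (`kk_anti`), so by `harris` `∑ g_ψ (q^2)^kk φ A_I ≤ Z_ψ ∑ wt p A (q^2)^kk φ A_I`, then `str_moment` with
`Q = q^2`: `chi ≤ Z_ψ^2 q^(2m - 2n) (..)^n / Z_φ^2 ≤ (1 + (q^2 - 1) (1 - 1/x)^(κ/2))^n`.
-/

namespace Pool.Agent.Work.MP_63853a_lc.Tr

open Finset Pool.Agent.Work.MP_63853a_lc

variable {V E : Type} [Fintype V] [Fintype E]

omit [Fintype E] in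
private theorem kk_card_mono (χ : E → V × V) {A B : Finset E} (h : A ⊆ B) : A.card + kk χ A ≤ B.card + kk χ B := by
  classical
  obtain ⟨C, rfl⟩ : ∃ C, B = A ∪ C := ⟨B, (Finset.union_eq_right.2 h).symm⟩
  clear h
  induction C using Finset.induction_on with
  | empty => rw [Finset.union_empty]
  | insert e C _ ih =>
    rw [Finset.union_insert]
    by_cases he : e ∈ A ∪ C
    · rw [Finset.insert_eq_of_mem he]
      exact ih
    · rw [Finset.card_insert_of_notMem he]
      by_cases hc : Cross χ (A ∪ C) e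
      · have := kk_insert_cross χ hc
        omega
      · have := kk_insert_eq χ hc
        omega

private theorem alg {x q v : ℝ} (hx : 1 < x) (hv : q = v * (x - 1)) {n m k : ℕ} (h : m ≤ n) :
    q ^ k * v ^ m = (x / (x - 1)) ^ n * ((1 / x) ^ m * (1 - 1 / x) ^ (n - m) * q ^ (m + k)) := by
  obtain ⟨r, rfl⟩ := Nat.exists_eq_add_of_le h
  have hx0 : 0 < x := by linarith
  have hx1 : x - 1 ≠ 0 := by linarith
  have e2 : (1 : ℝ) - 1 / x = (x - 1) / x := by field_simp
  rw [Nat.add_sub_cancel_left, e2, pow_add, pow_add]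
  have e3 : (x / (x - 1)) ^ r * ((x - 1) / x) ^ r = 1 := by
    rw [← mul_pow, div_mul_div_comm, mul_comm x, div_self (mul_ne_zero hx1 hx0.ne'), one_pow]
  have e4 : (x / (x - 1)) ^ m * (1 / x) ^ m * q ^ m = v ^ m := by
    rw [← mul_pow, ← mul_pow, hv]
    congr 1
    field_simp
  calc q ^ k * v ^ m = ((x / (x - 1)) ^ m * (1 / x) ^ m * q ^ m) * ((x / (x - 1)) ^ r * ((x - 1) / x) ^ r) * q ^ k := by
        rw [e4, e3]
        ring
    _ = _ := by ring

omit [Fintype V] [Fintype E] in
private theorem cls_quo (φ : E → V × V) (c : V → V) (A : Finset E) {u w : V} (h : cls φ A u = cls φ A w) :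
    cls (quo φ c) A (c u) = cls (quo φ c) A (c w) := by
  have h1 := congrArg (Quot.lift (fun v => cls (quo φ c) A (c v)) (by
    rintro a b ⟨e, he, hab⟩
    refine Quot.sound ⟨e, he, ?_⟩
    unfold quo
    rw [hab])) h
  exact h1

omit [Fintype E] in
private theorem kk_quo_le (φ : E → V × V) (c : V → V) (A : Finset E) :
    kk (quo φ c) A + (Set.range c).ncard ≤ kk φ A + Fintype.card V := by
  classical
  have hfin : Finite (Cl φ A) := Quot.finite _
  let F : Cl φ A ⊕ {v : V // v ∉ Set.range c} → Cl (quo φ c) A := Sum.elim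
    (Quot.lift (fun v => cls (quo φ c) A (c v)) (by
      rintro a b ⟨e, he, hab⟩
      refine Quot.sound ⟨e, he, ?_⟩
      unfold quo
      rw [hab])) (fun v => cls (quo φ c) A v.1)
  have hF : Function.Surjective F := by
    rintro ⟨v⟩
    by_cases hv : v ∈ Set.range c
    · obtain ⟨u, rfl⟩ := hv
      exact ⟨Sum.inl (cls φ A u), rfl⟩
    · exact ⟨Sum.inr ⟨v, hv⟩, rfl⟩
  have h1 : Nat.card (Cl (quo φ c) A) ≤ Nat.card (Cl φ A ⊕ {v : V // v ∉ Set.range c}) :=
    Nat.card_le_card_of_surjective F hF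
  rw [Nat.card_sum] at h1
  have h2 : Nat.card {v : V // v ∉ Set.range c} + (Set.range c).ncard = Fintype.card V := by
    have h3 := Set.ncard_add_ncard_compl (Set.range c)
    rw [Nat.card_eq_fintype_card] at h3
    have h4 : Nat.card {v : V // v ∉ Set.range c} = (Set.range c)ᶜ.ncard := by
      rw [← Nat.card_coe_set_eq]
      rfl
    omega
  have h5 : kk (quo φ c) A ≤ kk φ A + Nat.card {v : V // v ∉ Set.range c} := h1
  omega

omit [Fintype E] in
open Classical in
private theorem kk_quo_add (φ : E → V × V) (c : V → V) (B X : Finset E) :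
    kk φ (B ∪ X) + kk (quo φ c) B ≤ kk φ B + kk (quo φ c) (B ∪ X) := by
  induction X using Finset.induction_on with
  | empty => rw [Finset.union_empty]
  | insert e X _ ih =>
    have e1 : B ∪ insert e X = insert e (B ∪ X) := Finset.union_insert _ _ _
    rw [e1]
    have h3 : kk φ (insert e (B ∪ X)) ≤ kk φ (B ∪ X) := kk_anti φ (Finset.subset_insert _ _)
    by_cases hc : Cross (quo φ c) (B ∪ X) e
    · have hc' : Cross φ (B ∪ X) e := fun h => hc (cls_quo φ c _ h)
      have h1 := kk_insert_cross (quo φ c) hc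
      have h2 := kk_insert_cross φ hc'
      omega
    · have h1 := kk_insert_eq (quo φ c) hc
      omega

omit [Fintype E] in
private theorem kk_loops (ψ : E → V × V) (B : Finset E) (h : ∀ e ∈ B, (ψ e).1 = (ψ e).2) :
    kk ψ B = Fintype.card V := by
  classical
  induction B using Finset.induction_on with
  | empty => exact kk_empty ψ
  | insert e X _ ih =>
    have hc : ¬ Cross ψ X e := fun hc => hc (by rw [h e (Finset.mem_insert_self _ _)])
    have h1 := kk_insert_eq ψ hc
    have h2 := ih fun e' he' => h e' (Finset.mem_insert_of_mem he')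
    omega

private theorem alg2 {q w : ℝ} (hq : 1 ≤ q) {a b i n : ℕ} (h : a + n ≤ i + b) :
    q ^ (2 * n) * (q ^ a * w) ^ 2 ≤ q ^ b * w * (q ^ 2) ^ i * (q ^ b * w) := by
  have e1 : q ^ (2 * n) * (q ^ a * w) ^ 2 = q ^ (2 * (a + n)) * w ^ 2 := by ring
  have e2 : q ^ b * w * (q ^ 2) ^ i * (q ^ b * w) = q ^ (2 * (i + b)) * w ^ 2 := by ring
  rw [e1, e2]
  exact mul_le_mul_of_nonneg_right (pow_le_pow_right₀ hq (by omega)) (by positivity)

theorem str_chi (φ : E → V × V) (c : V → V) {x y κ : ℝ} (hx : 1 < x) (hy : 1 < y) (hq : 1 ≤ (x - 1) * (y - 1))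
    (hκ : 0 ≤ κ) (h : Strong φ c κ) :
    chi φ (quo φ c) x y (fun _ => y - 1) ≤
      (1 + (((x - 1) * (y - 1)) ^ 2 - 1) * (1 - 1 / x) ^ (κ / 2)) ^ Fintype.card V := by
  classical
  unfold chi
  set q := (x - 1) * (y - 1) with hqd
  set v := y - 1 with hv
  set ψ := quo φ c with hψ
  set n := Fintype.card V with hn
  set m := (Set.range c).ncard with hm
  have hx0 : 0 < x - 1 := by linarith
  have hv0 : 0 < v := by linarith
  have hq0 : 0 < q := by linarith
  have hx' : 0 < x := by linarith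
  have hp0 : 0 < 1 / x := by positivity
  have hp1 : 1 / x < 1 := by
    rw [div_lt_one hx']
    exact hx
  have hg : ∀ (χ : E → V × V) (A : Finset E), wg χ q (fun _ => v) A = q ^ kk χ A * v ^ A.card := by
    intro χ A
    unfold wg
    rw [Finset.prod_const]
    ring
  have hgpos : ∀ (χ : E → V × V) (A : Finset E), 0 < wg χ q (fun _ => v) A := by
    intro χ A
    rw [hg]
    positivity
  set I : Finset E → Finset E := fun A => A.filter fun e => c (φ e).1 = c (φ e).2 with hI
  set K := (x / (x - 1)) ^ Fintype.card E with hK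
  have hK0 : 0 < K := by positivity
  set f : Finset E → ℝ := fun A => q ^ (A.card + kk ψ A) with hf
  set g : Finset E → ℝ := fun A => (q ^ 2) ^ kk φ (I A) with hgd
  have hkey : ∀ A : Finset E, wg ψ q (fun _ => v) A = K * (wt (1 / x) A * f A) := by
    intro A
    rw [hg]
    have hc := Finset.card_le_univ A
    simp only [hK, hf, wt]
    exact alg hx (by rw [hqd]; ring) hc
  set Zφ := ∑ A : Finset E, wg φ q (fun _ => v) A with hZφ
  set Zψ := ∑ A : Finset E, wg ψ q (fun _ => v) A with hZψ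
  have hZφ0 : 0 < Zφ := Finset.sum_pos (fun A _ => hgpos φ A) Finset.univ_nonempty
  have hZψ0 : 0 < Zψ := Finset.sum_pos (fun A _ => hgpos ψ A) Finset.univ_nonempty
  have h1 : q ^ m * Zψ ≤ q ^ n * Zφ := by
    rw [hZφ, hZψ, Finset.mul_sum, Finset.mul_sum]
    refine Finset.sum_le_sum fun A _ => ?_
    rw [hg, hg, ← mul_assoc, ← mul_assoc, ← pow_add, ← pow_add]
    refine mul_le_mul_of_nonneg_right (pow_le_pow_right₀ hq ?_) (by positivity)
    have h7 : kk ψ A + m ≤ kk φ A + n := kk_quo_le φ c A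
    omega
  have h2 : ∀ A : Finset E, q ^ (2 * n) * (wg φ q (fun _ => v) A ^ 2 / wg ψ q (fun _ => v) A) ≤
      wg ψ q (fun _ => v) A * g A := by
    intro A
    have h3 : kk φ A + n ≤ kk φ (I A) + kk ψ A := by
      have h4 := kk_quo_add φ c (I A) A
      have h5 : I A ∪ A = A := Finset.union_eq_right.2 (Finset.filter_subset _ _)
      rw [h5] at h4
      have h6 : kk (quo φ c) (I A) = Fintype.card V := kk_loops _ _ fun e he => by
        have := (Finset.mem_filter.1 he).2
        exact this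
      have h7 : kk ψ A = kk (quo φ c) A := rfl
      have h8 : n = Fintype.card V := rfl
      omega
    rw [← mul_div_assoc, div_le_iff₀ (hgpos ψ A), hg, hg]
    exact alg2 hq h3
  have hharris := harris hp0.le hp1.le f g (fun A B hAB => pow_le_pow_right₀ hq (kk_card_mono ψ hAB))
    (fun A B hAB => by
      refine pow_le_pow_right₀ (one_le_pow₀ hq) (kk_anti φ ?_)
      exact Finset.filter_subset_filter _ hAB) (fun A => (pow_pos hq0 _).le)
  have hmom := str_moment φ c (Q := q ^ 2) hκ hp0 hp1 (one_le_pow₀ hq) h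
  set R := (1 + (q ^ 2 - 1) * (1 - 1 / x) ^ (κ / 2)) ^ n with hR
  have hmom' : ∑ A : Finset E, wt (1 / x) A * g A ≤ (q ^ 2) ^ m * R := by
    refine le_trans (le_of_eq ?_) hmom
    rfl
  have hR0 : 0 ≤ R := by
    have : 0 ≤ (q ^ 2 - 1) * (1 - 1 / x) ^ (κ / 2) := by
      refine mul_nonneg ?_ (Real.rpow_nonneg (by linarith) _)
      have := one_le_pow₀ hq (n := 2)
      linarith
    rw [hR]
    positivity
  set S := ∑ A : Finset E, wg φ q (fun _ => v) A ^ 2 / wg ψ q (fun _ => v) A with hS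
  have h3 : q ^ (2 * n) * S ≤ Zψ * ((q ^ 2) ^ m * R) := by
    calc q ^ (2 * n) * S ≤ ∑ A : Finset E, wg ψ q (fun _ => v) A * g A := by
          rw [hS, Finset.mul_sum]
          exact Finset.sum_le_sum fun A _ => h2 A
      _ = K * ∑ A : Finset E, wt (1 / x) A * (f A * g A) := by
          rw [Finset.mul_sum]
          exact Finset.sum_congr rfl fun A _ => by
            rw [hkey A]
            ring
      _ ≤ K * ((∑ A : Finset E, wt (1 / x) A * f A) * ∑ A : Finset E, wt (1 / x) A * g A) :=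
          mul_le_mul_of_nonneg_left hharris hK0.le
      _ = Zψ * ∑ A : Finset E, wt (1 / x) A * g A := by
          rw [← mul_assoc]
          congr 1
          rw [hZψ, Finset.mul_sum]
          exact Finset.sum_congr rfl fun A _ => (hkey A).symm
      _ ≤ Zψ * ((q ^ 2) ^ m * R) := mul_le_mul_of_nonneg_left hmom' hZψ0.le
  rw [div_le_iff₀ (by positivity)]
  have hqn : 0 < q ^ (2 * n) := by positivity
  refine le_of_mul_le_mul_left ?_ hqn
  calc q ^ (2 * n) * (Zψ * S) = Zψ * (q ^ (2 * n) * S) := by ring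
    _ ≤ Zψ * (Zψ * ((q ^ 2) ^ m * R)) := mul_le_mul_of_nonneg_left h3 hZψ0.le
    _ = R * (q ^ m * Zψ) ^ 2 := by
        rw [← pow_mul]
        ring
    _ ≤ R * (q ^ n * Zφ) ^ 2 := by
        refine mul_le_mul_of_nonneg_left ?_ hR0
        exact pow_le_pow_left₀ (by positivity) h1 2
    _ = q ^ (2 * n) * (R * Zφ ^ 2) := by ring

end Pool.Agent.Work.MP_63853a_lc.Tr
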