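import Pool.Agent.Work.MP_63853a_lc.Tr.G.MainG
import Pool.Agent.Work.MP_63853a_lc.Tr.G.StrX

set_option autoImplicit false

/-!
# GIV (size S-M): strong classes and a quotient of small width

`κ = 2 / log (x/(x-1)) * log n`, so `(1 - 1/x)^(κ/2) = 1/n` (`n ≥ 1`; `1 - 1/x = (x-1)/x`) and `chi ≤ (1 + (q^2-1)/n)^n ≤ exp (q^2)`.
`main_gen` with `w = ⌊β log s⌋` (`s = card V + card E + t.size + 1 ≥ 2`; if `β < 0` replace it by `|β|`):
`8 * size * q^w * exp (q^2) / ε^2 ≤ s^C / ε^2` with `C = 4 + |β| log q + q^2 / log 2`.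
-/

namespace Pool.Agent.Work.MP_63853a_lc.Tr

open Finset Pool.Agent.Work.MP_63853a_lc

private theorem size_pos {E : Type} (t : ETree E) : 1 ≤ t.size := by
  cases t <;> simp [ETree.size]

private theorem pow_bound {x q : ℝ} (hx : 1 < x) (hq : 1 ≤ q) (n : ℕ) :
    (1 + (q ^ 2 - 1) * (1 - 1 / x) ^ (2 / Real.log (x / (x - 1)) * Real.log n / 2)) ^ n ≤ Real.exp (q ^ 2) := by
  have hx0 : 0 < x - 1 := by linarith
  have hx' : 0 < x := by linarith
  have hq2 : 1 ≤ q ^ 2 := one_le_pow₀ hq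
  rcases Nat.eq_zero_or_pos n with h0 | h0
  · rw [h0, pow_zero]
    exact Real.one_le_exp (by positivity)
  have hn : (0 : ℝ) < n := by exact_mod_cast h0
  have hr : 1 < x / (x - 1) := by
    rw [lt_div_iff₀ hx0]
    linarith
  have hlog : 0 < Real.log (x / (x - 1)) := Real.log_pos hr
  have e1 : (1 : ℝ) - 1 / x = (x / (x - 1))⁻¹ := by
    rw [inv_div]
    field_simp
  have e2 : (1 - 1 / x) ^ (2 / Real.log (x / (x - 1)) * Real.log n / 2) = 1 / (n : ℝ) := by
    rw [e1, Real.rpow_def_of_pos (by positivity), Real.log_inv]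
    have e3 : -Real.log (x / (x - 1)) * (2 / Real.log (x / (x - 1)) * Real.log n / 2) = -Real.log n := by
      field_simp
    rw [e3, Real.exp_neg, Real.exp_log hn, one_div]
  rw [e2]
  have h1 : 1 + (q ^ 2 - 1) * (1 / (n : ℝ)) ≤ Real.exp ((q ^ 2 - 1) * (1 / (n : ℝ))) := by
    rw [add_comm]
    exact Real.add_one_le_exp _
  have h2 : 0 ≤ 1 + (q ^ 2 - 1) * (1 / (n : ℝ)) := by
    have : 0 ≤ (q ^ 2 - 1) * (1 / (n : ℝ)) := mul_nonneg (by linarith) (by positivity)
    linarith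
  calc (1 + (q ^ 2 - 1) * (1 / (n : ℝ))) ^ n ≤ Real.exp ((q ^ 2 - 1) * (1 / (n : ℝ))) ^ n :=
        pow_le_pow_left₀ h2 h1 n
    _ = Real.exp (q ^ 2 - 1) := by
        rw [← Real.exp_nat_mul]
        congr 1
        field_simp
    _ ≤ Real.exp (q ^ 2) := Real.exp_le_exp.2 (by linarith)

theorem g_four (x y : ℝ) (hx : 1 < x) (hy : 1 < y) (hq : 1 ≤ (x - 1) * (y - 1)) (β : ℝ) :
    ∃ C : ℝ, ∀ (V E : Type) [Fintype V] [Fintype E] (φ : E → V × V) (c : V → V) (t : ETree E),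
      Strong φ c (2 / Real.log (x / (x - 1)) * Real.log (Fintype.card V)) → t.Nodup → t.edges = univ →
      (∀ S ∈ t.sets, (lam (quo φ c) S : ℝ) ≤ β * Real.log (Fintype.card V + Fintype.card E + t.size + 1 : ℕ)) →
      ∀ ε : ℝ, 0 < ε → ε ≤ 1 →
        ∀ N : ℕ, ((Fintype.card V + Fintype.card E + t.size + 1 : ℕ) : ℝ) ^ C / ε ^ 2 ≤ N →
          3 / 4 ≤ tgood φ (quo φ c) x y (fun _ => y - 1) t ε N := by
  refine ⟨3 + 1 + |β| * Real.log ((x - 1) * (y - 1)) + ((x - 1) * (y - 1)) ^ 2 / Real.log 2, ?_⟩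
  intro V E _ _ φ c t hc ht htu hw ε hε hε1 N hN
  set q := (x - 1) * (y - 1) with hqd
  set s : ℕ := Fintype.card V + Fintype.card E + t.size + 1 with hs
  have hx0 : 0 < x - 1 := by linarith
  have hq0 : 0 < q := by linarith
  have hr : 1 < x / (x - 1) := by
    rw [lt_div_iff₀ hx0]
    linarith
  have hlog : 0 < Real.log (x / (x - 1)) := Real.log_pos hr
  have hκ : 0 ≤ 2 / Real.log (x / (x - 1)) * Real.log (Fintype.card V) :=
    mul_nonneg (by positivity) (Real.log_natCast_nonneg _)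
  have hchi := str_chi φ c hx hy hq hκ hc
  have hchi2 := hchi.trans (pow_bound hx hq (Fintype.card V))
  have hsz := size_pos t
  have hs2 : 2 ≤ s := by omega
  have hs2' : (2 : ℝ) ≤ s := by exact_mod_cast hs2
  have hs1 : (1 : ℝ) ≤ s := by linarith
  have hs0 : (0 : ℝ) < s := by linarith
  have hlogs : 0 ≤ Real.log s := Real.log_natCast_nonneg _
  have hlogq : 0 ≤ Real.log q := Real.log_nonneg hq
  have hB0 : 0 ≤ |β| * Real.log s := mul_nonneg (abs_nonneg _) hlogs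
  refine main_gen φ (quo φ c) hx hy hq (fun _ => by linarith) t ht htu (w := ⌊|β| * Real.log s⌋₊) ?_ hε hε1 N ?_
  · intro S hS
    refine Nat.le_floor ((hw S hS).trans ?_)
    exact mul_le_mul_of_nonneg_right (le_abs_self _) hlogs
  · refine le_trans ?_ hN
    refine div_le_div_of_nonneg_right ?_ (by positivity)
    have h1 : q ^ ⌊|β| * Real.log s⌋₊ ≤ (s : ℝ) ^ (|β| * Real.log q) := by
      calc q ^ ⌊|β| * Real.log s⌋₊ = q ^ ((⌊|β| * Real.log s⌋₊ : ℕ) : ℝ) := (Real.rpow_natCast _ _).symm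
        _ ≤ q ^ (|β| * Real.log s) := Real.rpow_le_rpow_of_exponent_le hq (Nat.floor_le hB0)
        _ = (s : ℝ) ^ (|β| * Real.log q) := by
            rw [Real.rpow_def_of_pos hq0, Real.rpow_def_of_pos hs0]
            congr 1
            ring
    have h2 : Real.exp (q ^ 2) ≤ (s : ℝ) ^ (q ^ 2 / Real.log 2) := by
      have hl2 : 0 < Real.log 2 := Real.log_pos (by norm_num)
      calc Real.exp (q ^ 2) = (2 : ℝ) ^ (q ^ 2 / Real.log 2) := by
            rw [Real.rpow_def_of_pos (by norm_num)]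
            congr 1
            field_simp
        _ ≤ (s : ℝ) ^ (q ^ 2 / Real.log 2) := Real.rpow_le_rpow (by norm_num) hs2' (by positivity)
    have h3 : (8 : ℝ) ≤ (s : ℝ) ^ (3 : ℝ) := by
      have : (2 : ℝ) ^ 3 ≤ (s : ℝ) ^ 3 := pow_le_pow_left₀ (by norm_num) hs2' 3
      have e : (s : ℝ) ^ (3 : ℝ) = (s : ℝ) ^ 3 := by
        rw [show (3 : ℝ) = ((3 : ℕ) : ℝ) by norm_num, Real.rpow_natCast]
      rw [e]
      linarith
    have h4 : (t.size : ℝ) ≤ (s : ℝ) ^ (1 : ℝ) := by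
      rw [Real.rpow_one]
      have : t.size ≤ s := by omega
      exact_mod_cast this
    rw [Real.rpow_add hs0, Real.rpow_add hs0, Real.rpow_add hs0]
    have h5 : (0 : ℝ) ≤ t.size := by positivity
    have h6 : 0 ≤ chi φ (quo φ c) x y (fun _ => y - 1) :=
      zero_le_one.trans (one_le_chi φ (quo φ c) hx hy (fun _ => by linarith))
    refine mul_le_mul ?_ (hchi2.trans h2) h6 (by positivity)
    refine mul_le_mul ?_ h1 (by positivity) (by positivity)
    exact mul_le_mul h3 h4 h5 (by positivity)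

end Pool.Agent.Work.MP_63853a_lc.Tr
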