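import Pool.Agent.Work.MP_63853a_lc.Tr.G.VDefs
import Pool.Agent.Work.MP_63853a_lc.Tr.Har
import Pool.Agent.Work.MP_63853a_lc.Tr.Sub

set_option autoImplicit false

/-!
# VChi (size M): the chi-square divergence from the product measure

Let `v = y-1`, `q = (x-1)(y-1)`, `u = 1/(x-1) = v/q`, `m = card E`, `n = card V`, `p = v q/(1 + v q)`, `ψ` = all loops on one
vertex (`kk ψ A = 1`: `kk_pos`, `kk_le`). Then `wg ψ q u A = u^|A| q`, `∑ wg ψ = q (1+u)^m` (`Finset.sum_pow_mul_eq_add_pow` on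
`univ.powerset`, or as in `Tr/Glue.lean`), `wg φ A ^ 2 / wg ψ A = (v q)^|A| (q^2)^kk φ A / q` (`v^2/u = v q`), and
`∑ wg φ ≥ q^n (1+u)^m` (`card_le`: `n ≤ kk φ A + |A|`, so `q^kk φ A ≥ q^n / q^|A|`). So
`chi ≤ Z' / (q^(2n) (1+u)^m)`, `Z' = ∑ (v q)^|A| (q^2)^kk φ A = (1 + v q)^m ∑ wt p A (q^2)^kk φ A`. By `harris` (`f` = indicator
of `|A| + kk φ A ≠ n`, increasing: if `A ⊆ B` and `|A| + kk A > n` then `|B| + kk B > n`, by adding the edges one by one,
`kk_insert_cross`, `kk_insert_eq`; `g = (q^2)^kk φ`, decreasing, `kk_anti`): `(1 - P) Z' ≤ ∑_{A forest} (v q)^|A| (q^2)^kk φ A`,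
and for a forest `(v q)^|A| (q^2)^(n - |A|) = q^(2n) u^|A|` (`v q / q^2 = u`), so this sum is at most `q^(2n) (1+u)^m`.
-/

namespace Pool.Agent.Work.MP_63853a_lc.Tr

open Finset Pool.Agent.Work.MP_63853a_lc

variable {V E : Type} [Fintype V] [Fintype E]

omit [Fintype E] in
open Classical in
private theorem add_mono_aux (φ : E → V × V) {A X : Finset E} (h : Disjoint A X) :
    A.card + kk φ A ≤ (A ∪ X).card + kk φ (A ∪ X) := by
  induction X using Finset.induction_on with
  | empty => rw [Finset.union_empty]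
  | insert e X he ih =>
    rw [Finset.disjoint_insert_right] at h
    have h1 := ih h.2
    have heX : e ∉ A ∪ X := by
      rw [Finset.mem_union]
      rintro (h2 | h2)
      · exact h.1 h2
      · exact he h2
    rw [Finset.union_insert, Finset.card_insert_of_notMem heX]
    by_cases hc : Cross φ (A ∪ X) e
    · have h2 := kk_insert_cross φ hc
      omega
    · have h2 := kk_insert_eq φ hc
      omega

omit [Fintype E] in
private theorem add_mono (φ : E → V × V) {A B : Finset E} (h : A ⊆ B) :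
    A.card + kk φ A ≤ B.card + kk φ B := by
  classical
  have h1 := add_mono_aux φ (A := A) (X := B \ A) Finset.disjoint_sdiff
  rwa [Finset.union_sdiff_of_subset h] at h1

private theorem sum_pow (a : ℝ) : ∑ A : Finset E, a ^ A.card = (1 + a) ^ Fintype.card E := by
  have h := Fintype.sum_pow_mul_eq_add_pow E a (1 : ℝ)
  rw [add_comm a 1] at h
  rw [← h]
  exact Finset.sum_congr rfl fun A _ => by rw [one_pow, mul_one]

open Classical in
theorem chi_loops (φ : E → V × V) {x y : ℝ} (hx : 1 < x) (hy : 1 < y) (hq : 1 ≤ (x - 1) * (y - 1)) :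
    (1 - ∑ A : Finset E, wt ((y - 1) * ((x - 1) * (y - 1)) / (1 + (y - 1) * ((x - 1) * (y - 1)))) A *
        (if A.card + kk φ A = Fintype.card V then 0 else 1)) *
      chi φ (fun _ : E => (((), ()) : Unit × Unit)) x y (fun _ => 1 / (x - 1)) ≤ 1 := by
  obtain ⟨v, hv⟩ : ∃ v : ℝ, v = y - 1 := ⟨_, rfl⟩
  obtain ⟨r, hr⟩ : ∃ r : ℝ, r = x - 1 := ⟨_, rfl⟩
  rw [← hv, ← hr] at hq ⊢
  have hv0 : 0 < v := by rw [hv]; linarith
  have hr0 : 0 < r := by rw [hr]; linarith
  obtain ⟨q, hqd⟩ : ∃ q : ℝ, q = r * v := ⟨_, rfl⟩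
  rw [← hqd] at hq ⊢
  have hq0 : 0 < q := by linarith
  obtain ⟨n, hn⟩ : ∃ n : ℕ, n = Fintype.card V := ⟨_, rfl⟩
  obtain ⟨m, hm⟩ : ∃ m : ℕ, m = Fintype.card E := ⟨_, rfl⟩
  rw [← hn]
  -- the three sums
  have hk1 : ∀ A : Finset E, kk (fun _ : E => (((), ()) : Unit × Unit)) A = 1 := fun A =>
    le_antisymm (by simpa using kk_le (fun _ : E => (((), ()) : Unit × Unit)) A) (kk_pos _ A)
  have hwψ : ∀ A : Finset E, wg (fun _ : E => (((), ()) : Unit × Unit)) q (fun _ => 1 / r) A =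
      (1 / r) ^ A.card * q := by
    intro A
    unfold wg
    rw [hk1, pow_one, Finset.prod_const]
  have hwφ : ∀ A : Finset E, wg φ q (fun _ => v) A = v ^ A.card * q ^ kk φ A := by
    intro A
    unfold wg
    rw [Finset.prod_const]
  obtain ⟨T, hT⟩ : ∃ T : ℝ, T = (1 + 1 / r) ^ m := ⟨_, rfl⟩
  have hT0 : 0 < T := by rw [hT]; positivity
  have hS1 : ∑ A : Finset E, wg (fun _ : E => (((), ()) : Unit × Unit)) q (fun _ => 1 / r) A =
      T * q := by
    rw [Finset.sum_congr rfl fun A _ => hwψ A, ← Finset.sum_mul, sum_pow, ← hm, ← hT]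
  obtain ⟨Z, hZ⟩ : ∃ Z : ℝ, Z = ∑ A : Finset E, (v * q) ^ A.card * (q ^ 2) ^ kk φ A := ⟨_, rfl⟩
  have hS2 : ∑ A : Finset E, wg φ q (fun _ => v) A ^ 2 /
      wg (fun _ : E => (((), ()) : Unit × Unit)) q (fun _ => 1 / r) A = Z / q := by
    rw [hZ, Finset.sum_div]
    refine Finset.sum_congr rfl fun A _ => ?_
    rw [hwψ, hwφ, one_div, inv_pow, mul_pow, mul_pow]
    have h1 : q ^ A.card = r ^ A.card * v ^ A.card := by rw [hqd, mul_pow]
    rw [h1, ← pow_mul, ← pow_mul q 2, mul_comm 2 (kk φ A)]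
    have h2 : r ^ A.card ≠ 0 := (pow_pos hr0 _).ne'
    field_simp
    ring
  obtain ⟨W, hW⟩ : ∃ W : ℝ, W = ∑ A : Finset E, wg φ q (fun _ => v) A := ⟨_, rfl⟩
  have hWle : q ^ n * T ≤ W := by
    rw [hT, hm, ← sum_pow (E := E) (1 / r), Finset.mul_sum, hW]
    refine Finset.sum_le_sum fun A _ => ?_
    rw [hwφ, one_div, inv_pow]
    have h1 := card_le φ A
    rw [← hn] at h1
    have h2 : q ^ n ≤ q ^ kk φ A * q ^ A.card := by
      rw [← pow_add]
      exact pow_le_pow_right₀ hq h1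
    have h3 : q ^ A.card = r ^ A.card * v ^ A.card := by rw [hqd, mul_pow]
    rw [h3] at h2
    have h4 : 0 < r ^ A.card := pow_pos hr0 _
    rw [← div_eq_mul_inv, div_le_iff₀ h4]
    linarith
  have hW0 : 0 < q ^ n * T := by positivity
  -- the product measure
  obtain ⟨p, hp⟩ : ∃ p : ℝ, p = v * q / (1 + v * q) := ⟨_, rfl⟩
  rw [← hp]
  have hvq : 0 < v * q := by positivity
  have hp0 : 0 ≤ p := by rw [hp]; positivity
  have hp1 : p ≤ 1 := by
    rw [hp, div_le_one (by linarith)]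
    linarith
  have h1p : 1 - p = 1 / (1 + v * q) := by
    rw [hp]
    field_simp
    ring
  have hwt : ∀ A : Finset E, (1 + v * q) ^ m * wt p A = (v * q) ^ A.card := by
    intro A
    unfold wt
    rw [h1p, hp, ← hm, one_div, inv_pow, div_pow]
    have h1 : A.card ≤ m := by
      rw [hm]
      exact Finset.card_le_univ A
    have h2 : (1 + v * q) ^ m = (1 + v * q) ^ A.card * (1 + v * q) ^ (m - A.card) := by
      rw [← pow_add]
      congr 1
      omega
    have h3 : (1 + v * q) ^ A.card ≠ 0 := (pow_pos (by linarith) _).ne'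
    have h4 : (1 + v * q) ^ (m - A.card) ≠ 0 := (pow_pos (by linarith) _).ne'
    rw [h2]
    field_simp
  obtain ⟨f, hf⟩ : ∃ f : Finset E → ℝ, f = fun A => if A.card + kk φ A = n then 0 else 1 :=
    ⟨_, rfl⟩
  obtain ⟨g, hg⟩ : ∃ g : Finset E → ℝ, g = fun A => (q ^ 2) ^ kk φ A := ⟨_, rfl⟩
  have hfm : Monotone f := by
    intro A B hAB
    rw [hf]
    show (if A.card + kk φ A = n then (0 : ℝ) else 1) ≤ if B.card + kk φ B = n then 0 else 1
    have h1 := add_mono φ hAB
    have h2 := card_le φ A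
    by_cases hA : A.card + kk φ A = n
    · rw [if_pos hA]
      split_ifs <;> norm_num
    · rw [if_neg hA, if_neg (by omega)]
  have hgm : Antitone g := by
    intro A B hAB
    rw [hg]
    show (q ^ 2) ^ kk φ B ≤ (q ^ 2) ^ kk φ A
    exact pow_le_pow_right₀ (one_le_pow₀ hq) (kk_anti φ hAB)
  have hf0 : ∀ A, 0 ≤ f A := by
    intro A
    rw [hf]
    show (0 : ℝ) ≤ if A.card + kk φ A = n then 0 else 1
    split_ifs <;> norm_num
  have hh := harris hp0 hp1 f g hfm hgm hf0
  obtain ⟨P, hP⟩ : ∃ P : ℝ, P = ∑ A : Finset E, wt p A * f A := ⟨_, rfl⟩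
  have hPeq : ∑ A : Finset E, wt p A * (if A.card + kk φ A = n then 0 else 1) = P := by
    rw [hP, hf]
  rw [hPeq]
  rw [← hP] at hh
  have hZg : Z = (1 + v * q) ^ m * ∑ A : Finset E, wt p A * g A := by
    rw [hZ, Finset.mul_sum]
    refine Finset.sum_congr rfl fun A _ => ?_
    rw [← hwt A, hg]
    ring
  have hkey : (1 - P) * Z ≤ q ^ (2 * n) * T := by
    have h1 : (1 - P) * Z ≤ (1 + v * q) ^ m * ∑ A : Finset E, wt p A * ((1 - f A) * g A) := by
      have h2 : ∑ A : Finset E, wt p A * ((1 - f A) * g A) =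
          ∑ A : Finset E, wt p A * g A - ∑ A : Finset E, wt p A * (f A * g A) := by
        rw [← Finset.sum_sub_distrib]
        exact Finset.sum_congr rfl fun A _ => by ring
      rw [hZg, h2]
      have h3 : 0 ≤ (1 + v * q) ^ m := by positivity
      calc (1 - P) * ((1 + v * q) ^ m * ∑ A : Finset E, wt p A * g A) =
          (1 + v * q) ^ m * (∑ A : Finset E, wt p A * g A -
            P * ∑ A : Finset E, wt p A * g A) := by ring
        _ ≤ _ := mul_le_mul_of_nonneg_left (by linarith) h3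
    refine h1.trans ?_
    rw [Finset.mul_sum, hT, hm, ← sum_pow (E := E) (1 / r), Finset.mul_sum]
    refine Finset.sum_le_sum fun A _ => ?_
    rw [hm] at hwt
    have h4 : (1 + v * q) ^ Fintype.card E * (wt p A * ((1 - f A) * g A)) =
        (v * q) ^ A.card * ((1 - f A) * g A) := by
      rw [← hwt A]
      ring
    rw [h4, hf, hg]
    show (v * q) ^ A.card * ((1 - if A.card + kk φ A = n then (0 : ℝ) else 1) *
      (q ^ 2) ^ kk φ A) ≤ q ^ (2 * n) * (1 / r) ^ A.card
    by_cases hA : A.card + kk φ A = n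
    · rw [if_pos hA, sub_zero, one_mul, one_div, inv_pow, ← div_eq_mul_inv,
        le_div_iff₀ (pow_pos hr0 _)]
      apply le_of_eq
      have h5 : q ^ A.card = r ^ A.card * v ^ A.card := by rw [hqd, mul_pow]
      rw [← hA, ← pow_mul, mul_pow, mul_add, pow_add, two_mul A.card, pow_add]
      calc v ^ A.card * q ^ A.card * q ^ (2 * kk φ A) * r ^ A.card =
          (r ^ A.card * v ^ A.card) * q ^ A.card * q ^ (2 * kk φ A) := by ring
        _ = q ^ A.card * q ^ A.card * q ^ (2 * kk φ A) := by rw [← h5]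
    · rw [if_neg hA, sub_self, zero_mul, mul_zero]
      positivity
  -- conclusion
  unfold chi
  rw [← hr, ← hv, ← hqd, hS1, hS2, ← hW]
  have hW1 : 0 < W := lt_of_lt_of_le hW0 hWle
  have e1 : (1 - P) * (T * q * (Z / q) / W ^ 2) = (1 - P) * Z * (T / W ^ 2) := by
    field_simp
  rw [e1]
  have h6 : (q ^ n * T) ^ 2 ≤ W ^ 2 := pow_le_pow_left₀ hW0.le hWle 2
  calc (1 - P) * Z * (T / W ^ 2) ≤ q ^ (2 * n) * T * (T / W ^ 2) :=
        mul_le_mul_of_nonneg_right hkey (by positivity)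
    _ = (q ^ n * T) ^ 2 / W ^ 2 := by
        rw [mul_comm 2 n, pow_mul]
        ring
    _ ≤ 1 := by
        rw [div_le_one (by positivity)]
        exact h6

end Pool.Agent.Work.MP_63853a_lc.Tr
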