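import Pool.Agent.Work.MP_63853a_lc.Tr.G.VPath
import Pool.Agent.Work.MP_63853a_lc.Moment

set_option autoImplicit false

/-!
# VProb (size M): the probability of a cycle

For `u z : V` choose `F u z` = some `P` with `P.card = r`, `MinC φ u z P` if there is one. If `A` is not a forest, `cyc_path` gives `e`, `P`;
`(insert e P).card ≥ 2 r + 1` by `Girth`, so `r ≤ P.card`, and `minc_prefix` gives `z`, `P' ⊆ P ⊆ A` with `P'.card = r`,
`MinC φ (φ e).1 z P'`; by `minc_unique` (`(P' ∪ F u z).card ≤ 2 r`, so all its subsets are forests by `Girth`) `P' = F u z`. So the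
indicator is at most `∑ u, ∑ z, (if F u z exists and F u z ⊆ A then 1 else 0)`, and `∑ A, wt p A * (if S ⊆ A then 1 else 0) = p ^ S.card`
(`A ↦ A \ S`, `Finset.sum_pow_mul_eq_add_pow` for the subsets of `univ \ S`, or prove `≤`).
-/

namespace Pool.Agent.Work.MP_63853a_lc.Tr

open Finset Pool.Agent.Work.MP_63853a_lc

variable {V E : Type} [Fintype V] [Fintype E]

open Classical in
private theorem sup_prob (p : ℝ) (S : Finset E) :
    ∑ A : Finset E, wt p A * (if S ⊆ A then 1 else 0) = p ^ S.card := by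
  have h := Finset.prod_add (fun _ : E => p) (fun e => if e ∈ S then 0 else 1 - p) (univ : Finset E)
  rw [Finset.powerset_univ] at h
  have h1 : ∏ e : E, (p + if e ∈ S then 0 else 1 - p) = p ^ S.card := by
    have h2 : ∀ e : E, (p + if e ∈ S then 0 else 1 - p) = if e ∈ S then p else 1 := by
      intro e
      by_cases he : e ∈ S
      · rw [if_pos he, if_pos he, add_zero]
      · rw [if_neg he, if_neg he]
        ring
    rw [Finset.prod_congr rfl fun e _ => h2 e, Finset.prod_ite_mem, Finset.univ_inter, Finset.prod_const]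
  rw [← h1, h]
  refine Finset.sum_congr rfl fun A _ => ?_
  rw [Finset.prod_const]
  unfold wt
  rw [mul_assoc]
  congr 1
  by_cases hS : S ⊆ A
  · rw [if_pos hS, mul_one]
    have h3 : ∀ e ∈ univ \ A, (if e ∈ S then 0 else 1 - p) = 1 - p := by
      intro e he
      rw [if_neg fun h4 => (Finset.mem_sdiff.1 he).2 (hS h4)]
    rw [Finset.prod_congr rfl h3, Finset.prod_const, Finset.card_univ_sdiff]
  · rw [if_neg hS, mul_zero]
    obtain ⟨e, he, heA⟩ := Finset.not_subset.1 hS
    refine (Finset.prod_eq_zero (Finset.mem_sdiff.2 ⟨Finset.mem_univ e, heA⟩) ?_).symm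
    rw [if_pos he]

open Classical in
private theorem pair_prob (φ : E → V × V) {p : ℝ} (hp0 : 0 ≤ p) (hp1 : p ≤ 1) {r : ℕ}
    (hg : Girth φ (2 * r + 1)) (u z : V) :
    ∑ A : Finset E, wt p A * (if ∃ P : Finset E, P.card = r ∧ MinC φ u z P ∧ P ⊆ A then 1 else 0) ≤ p ^ r := by
  by_cases h : ∃ P : Finset E, P.card = r ∧ MinC φ u z P
  · obtain ⟨P₀, h0, h1⟩ := h
    calc ∑ A : Finset E, wt p A * (if ∃ P : Finset E, P.card = r ∧ MinC φ u z P ∧ P ⊆ A then 1 else 0)
        ≤ ∑ A : Finset E, wt p A * (if P₀ ⊆ A then 1 else 0) := by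
          refine Finset.sum_le_sum fun A _ => mul_le_mul_of_nonneg_left ?_ (wt_nonneg hp0 hp1 A)
          by_cases h2 : ∃ P : Finset E, P.card = r ∧ MinC φ u z P ∧ P ⊆ A
          · obtain ⟨P, h3, h4, h5⟩ := h2
            have h6 : P = P₀ := by
              refine minc_unique φ h4 h1 fun B hB => hg B ?_
              have h7 := Finset.card_le_card hB
              have h8 := Finset.card_union_le P P₀
              have h9 : B.card < 2 * r + 1 := by omega
              exact_mod_cast h9
            rw [if_pos (h6 ▸ h5 : P₀ ⊆ A)]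
            split_ifs <;> norm_num
          · rw [if_neg h2]
            split_ifs <;> norm_num
      _ = p ^ r := by rw [sup_prob, h0]
  · have h1 : ∀ A : Finset E, ¬ ∃ P : Finset E, P.card = r ∧ MinC φ u z P ∧ P ⊆ A := by
      rintro A ⟨P, h2, h3, _⟩
      exact h ⟨P, h2, h3⟩
    rw [Finset.sum_congr rfl fun A _ => by rw [if_neg (h1 A), mul_zero], Finset.sum_const_zero]
    exact pow_nonneg hp0 r

open Classical in
theorem cyc_prob (φ : E → V × V) {p : ℝ} (hp0 : 0 ≤ p) (hp1 : p ≤ 1) {r : ℕ} (hg : Girth φ (2 * r + 1)) :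
    ∑ A : Finset E, wt p A * (if A.card + kk φ A = Fintype.card V then 0 else 1) ≤ (Fintype.card V : ℝ) ^ 2 * p ^ r := by
  have h1 : ∀ A : Finset E, (if A.card + kk φ A = Fintype.card V then (0 : ℝ) else 1) ≤
      ∑ u : V, ∑ z : V, (if ∃ P : Finset E, P.card = r ∧ MinC φ u z P ∧ P ⊆ A then 1 else 0) := by
    intro A
    have hnn : ∀ u z : V, (0 : ℝ) ≤ (if ∃ P : Finset E, P.card = r ∧ MinC φ u z P ∧ P ⊆ A then 1 else 0) := by
      intro u z
      split_ifs <;> norm_num
    by_cases hA : A.card + kk φ A = Fintype.card V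
    · rw [if_pos hA]
      exact Finset.sum_nonneg fun u _ => Finset.sum_nonneg fun z _ => hnn u z
    · rw [if_neg hA]
      obtain ⟨e, he, P, hPA, hP, hi⟩ := cyc_path φ hA
      have h2 : 2 * r + 1 ≤ (insert e P).card := by
        by_contra h3
        apply hi
        apply hg
        have h4 : (insert e P).card < 2 * r + 1 := by omega
        exact_mod_cast h4
      have h3 := Finset.card_insert_le e P
      obtain ⟨z, P', h4, h5, h6⟩ := minc_prefix φ hP (r := r) (by omega)
      have h7 : ∃ P : Finset E, P.card = r ∧ MinC φ (φ e).1 z P ∧ P ⊆ A :=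
        ⟨P', h5, h6, (h4.trans hPA).trans (Finset.erase_subset e A)⟩
      calc (1 : ℝ) = (if ∃ P : Finset E, P.card = r ∧ MinC φ (φ e).1 z P ∧ P ⊆ A then 1 else 0) := by rw [if_pos h7]
        _ ≤ ∑ z : V, (if ∃ P : Finset E, P.card = r ∧ MinC φ (φ e).1 z P ∧ P ⊆ A then 1 else 0) :=
            Finset.single_le_sum (f := fun z : V => (if ∃ P : Finset E, P.card = r ∧ MinC φ (φ e).1 z P ∧ P ⊆ A then
              (1 : ℝ) else 0)) (fun z _ => hnn _ z) (Finset.mem_univ z)
        _ ≤ _ := Finset.single_le_sum (f := fun u : V => ∑ z : V,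
              (if ∃ P : Finset E, P.card = r ∧ MinC φ u z P ∧ P ⊆ A then (1 : ℝ) else 0))
              (fun u _ => Finset.sum_nonneg fun z _ => hnn u z) (Finset.mem_univ (φ e).1)
  calc ∑ A : Finset E, wt p A * (if A.card + kk φ A = Fintype.card V then 0 else 1)
      ≤ ∑ A : Finset E, wt p A *
          ∑ u : V, ∑ z : V, (if ∃ P : Finset E, P.card = r ∧ MinC φ u z P ∧ P ⊆ A then 1 else 0) :=
        Finset.sum_le_sum fun A _ => mul_le_mul_of_nonneg_left (h1 A) (wt_nonneg hp0 hp1 A)
    _ = ∑ u : V, ∑ z : V, ∑ A : Finset E, wt p A *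
          (if ∃ P : Finset E, P.card = r ∧ MinC φ u z P ∧ P ⊆ A then 1 else 0) := by
        simp_rw [Finset.mul_sum]
        rw [Finset.sum_comm]
        refine Finset.sum_congr rfl fun u _ => ?_
        rw [Finset.sum_comm]
    _ ≤ ∑ _u : V, ∑ _z : V, p ^ r :=
        Finset.sum_le_sum fun u _ => Finset.sum_le_sum fun z _ => pair_prob φ hp0 hp1 hg u z
    _ = (Fintype.card V : ℝ) ^ 2 * p ^ r := by
        rw [Finset.sum_const, Finset.sum_const, Finset.card_univ, nsmul_eq_mul, nsmul_eq_mul]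
        ring

end Pool.Agent.Work.MP_63853a_lc.Tr
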