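import Pool.Agent.Work.MP_63853a_lc.Tr.G.MainG
import Pool.Agent.Work.MP_63853a_lc.Tr.G.VChi
import Pool.Agent.Work.MP_63853a_lc.Tr.G.VProb

set_option autoImplicit false

/-!
# GV (size S-M): large girth

`p = v q/(1+v q) ∈ (0,1)`, `l = - log p > 0`, `n ≥ 2`, `r = ⌈3 log n / l⌉`: `p^r ≤ n^(-3)`, so the sum in `cyc_prob` is at most
`1/n ≤ 1/2`, and `chi ≤ 2` (`chi_loops`). `C = 16 + 6/l + 3/log 2`: `2 r + 1 ≤ 6 log n / l + 3 ≤ C log n`, so `Girth φ (2 r + 1)`.
`main_gen` with `w = 0` (`lam ψ S = 0`: `kk ψ A = 1`) and `u = 1/(x-1)`.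
-/

namespace Pool.Agent.Work.MP_63853a_lc.Tr

open Finset Pool.Agent.Work.MP_63853a_lc

private theorem girth_mono {V E : Type} [Fintype V] {φ : E → V × V} {g g' : ℝ} (h : Girth φ g) (hg : g' ≤ g) :
    Girth φ g' := fun A hA => h A (lt_of_lt_of_le hA hg)

private theorem rk_unit {E : Type} (A : Finset E) : rk (fun _ : E => (((), ()) : Unit × Unit)) A = 0 := by
  unfold rk
  have := kk_pos (φ := fun _ : E => (((), ()) : Unit × Unit)) A
  simp only [Fintype.card_unit]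
  omega

private theorem lam_unit {E : Type} [Fintype E] (S : Finset E) :
    lam (fun _ : E => (((), ()) : Unit × Unit)) S = 0 := by
  classical
  unfold lam
  rw [rk_unit, rk_unit, rk_unit]

theorem g_five (x y : ℝ) (hx : 1 < x) (hy : 1 < y) (hq : 1 ≤ (x - 1) * (y - 1)) :
    ∃ C : ℝ, ∀ (V E : Type) [Fintype V] [Fintype E] (φ : E → V × V) (t : ETree E), 2 ≤ Fintype.card V →
      Girth φ (C * Real.log (Fintype.card V)) → t.Nodup → t.edges = univ → ∀ ε : ℝ, 0 < ε → ε ≤ 1 →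
        ∀ N : ℕ, C * t.size / ε ^ 2 ≤ N →
          3 / 4 ≤ tgood φ (fun _ => (((), ()) : Unit × Unit)) x y (fun _ => 1 / (x - 1)) t ε N := by
  have hx0 : 0 < x - 1 := by linarith
  have hy0 : 0 < y - 1 := by linarith
  have hq0 : 0 < (x - 1) * (y - 1) := by positivity
  obtain ⟨a, ha⟩ : ∃ a : ℝ, a = (y - 1) * ((x - 1) * (y - 1)) := ⟨_, rfl⟩
  have ha0 : 0 < a := by rw [ha]; positivity
  obtain ⟨p, hp⟩ : ∃ p : ℝ, p = a / (1 + a) := ⟨_, rfl⟩
  have hp0 : 0 < p := by rw [hp]; positivity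
  have hp1 : p < 1 := by rw [hp, div_lt_one (by positivity)]; linarith
  obtain ⟨l, hl⟩ : ∃ l : ℝ, l = -Real.log p := ⟨_, rfl⟩
  have hl0 : 0 < l := by
    rw [hl]
    have := Real.log_neg hp0 hp1
    linarith
  have hl2 : 0 < Real.log 2 := Real.log_pos (by norm_num)
  refine ⟨16 + 6 / l + 3 / Real.log 2, ?_⟩
  intro V E _ _ φ t hn hg ht htu ε hε hε1 N hN
  have hn2 : (2 : ℝ) ≤ (Fintype.card V : ℝ) := by exact_mod_cast hn
  obtain ⟨n, hnn⟩ : ∃ n : ℝ, n = (Fintype.card V : ℝ) := ⟨_, rfl⟩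
  rw [← hnn] at hg hn2
  have hn0 : 0 < n := by linarith
  have hlog : Real.log 2 ≤ Real.log n := Real.log_le_log (by norm_num) hn2
  obtain ⟨r, hr⟩ : ∃ r : ℕ, r = ⌈3 * Real.log n / l⌉₊ := ⟨_, rfl⟩
  have hr1 : 3 * Real.log n / l ≤ r := by rw [hr]; exact Nat.le_ceil _
  have hr2 : (r : ℝ) < 3 * Real.log n / l + 1 := by
    rw [hr]
    exact Nat.ceil_lt_add_one (div_nonneg (by linarith) hl0.le)
  have hgr : Girth φ (2 * r + 1) := by
    refine girth_mono hg ?_
    have h1 : 3 ≤ 3 / Real.log 2 * Real.log n := by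
      rw [div_mul_eq_mul_div, le_div_iff₀ hl2]
      linarith
    have h2 : (16 + 6 / l + 3 / Real.log 2) * Real.log n =
        16 * Real.log n + 2 * (3 * Real.log n / l) + 3 / Real.log 2 * Real.log n := by ring
    rw [h2]
    linarith
  have hpr : n ^ 2 * p ^ r ≤ 1 / 2 := by
    have h1 : p ^ r ≤ Real.exp (-(3 * Real.log n)) := by
      have : p ^ r = Real.exp (-((r : ℝ) * l)) := by
        rw [← Real.exp_log hp0, ← Real.exp_nat_mul, hl]
        congr 1
        ring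
      rw [this]
      apply Real.exp_le_exp.mpr
      rw [div_le_iff₀ hl0] at hr1
      linarith
    have h2 : Real.exp (-(3 * Real.log n)) = 1 / n ^ 3 := by
      rw [Real.exp_neg, show 3 * Real.log n = Real.log n * ((3 : ℕ) : ℝ) by push_cast; ring,
        Real.exp_mul, Real.exp_log hn0, Real.rpow_natCast, one_div]
    rw [h2] at h1
    calc n ^ 2 * p ^ r ≤ n ^ 2 * (1 / n ^ 3) := mul_le_mul_of_nonneg_left h1 (by positivity)
      _ = 1 / n := by field_simp
      _ ≤ 1 / 2 := one_div_le_one_div_of_le (by norm_num) hn2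
  have hc1 := cyc_prob φ hp0.le hp1.le hgr
  rw [← hnn] at hc1
  have hc2 := chi_loops φ hx hy hq
  rw [← ha, ← hp] at hc2
  have hc3 := hc1.trans hpr
  have hc4 := one_le_chi φ (fun _ : E => (((), ()) : Unit × Unit)) hx hy
    (u := fun _ => 1 / (x - 1)) (fun _ => by positivity)
  have hchi : chi φ (fun _ : E => (((), ()) : Unit × Unit)) x y (fun _ => 1 / (x - 1)) ≤ 2 := by
    nlinarith
  refine main_gen φ (fun _ : E => (((), ()) : Unit × Unit)) hx hy hq
    (u := fun _ => 1 / (x - 1)) (fun _ => by positivity) t ht htu (w := 0) ?_ hε hε1 N ?_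
  · intro S _
    rw [lam_unit]
  · refine le_trans ?_ hN
    refine div_le_div_of_nonneg_right ?_ (by positivity)
    rw [pow_zero, mul_one]
    have h5 : (0 : ℝ) ≤ t.size := by positivity
    have h6 : 8 * (t.size : ℝ) * chi φ (fun _ : E => (((), ()) : Unit × Unit)) x y (fun _ => 1 / (x - 1)) ≤
        8 * (t.size : ℝ) * 2 := mul_le_mul_of_nonneg_left hchi (by positivity)
    have h7 : 0 ≤ 6 / l + 3 / Real.log 2 := by positivity
    nlinarith

end Pool.Agent.Work.MP_63853a_lc.Tr
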