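import Pool.Agent.Work.MP_63853a_lc.Tr.Har
import Pool.Agent.Work.MP_63853a_lc.Tr.KGlue
import Pool.Agent.Work.MP_63853a_lc.Tr.Sub

set_option autoImplicit false

/-!
# GlueW (size M): an identification of two vertices, with an increasing factor

As the second half of `Tr/Glue.lean` (proved), with `q` replaced by any `Q ≥ 1`, `v > 0`, and the factor `θ`:
`Q * Q ^ kk χ A = Q ^ kk (glue χ u w) A * (1 + (Q - 1) s A)`, `s A = 1` iff `u`, `w` are separated by `A`. With
`p = v / (v + Q)`: `v ^ |A| * Q ^ kk' A * θ A = K * wt p A * (Q ^ (|A| + kk' A) * θ A)`, the last factor is increasing, `harris`.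
-/

namespace Pool.Agent.Work.MP_63853a_lc.Tr

open Finset Pool.Agent.Work.MP_63853a_lc

variable {V E : Type} [Fintype V] [Fintype E]

private theorem kk_card_mono' (χ : E → V × V) {A B : Finset E} (h : A ⊆ B) :
    A.card + kk χ A ≤ B.card + kk χ B := by
  classical
  obtain ⟨C, rfl⟩ : ∃ C, B = A ∪ C := ⟨B, (Finset.union_eq_right.2 h).symm⟩
  clear h
  induction C using Finset.induction_on with
  | empty => rw [Finset.union_empty]
  | insert e C _ ih =>
    rw [Finset.union_insert]
    by_cases he : e ∈ A ∪ C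
    · rw [Finset.insert_eq_of_mem he]
      exact ih
    · rw [Finset.card_insert_of_notMem he]
      by_cases hc : Cross χ (A ∪ C) e
      · have := kk_insert_cross χ hc
        omega
      · have := kk_insert_eq χ hc
        omega

private theorem alg' {Q v : ℝ} (hQ : 0 < Q) (hv : 0 < v) {n m k : ℕ} (h : m ≤ n) :
    v ^ m * Q ^ k = ((v + Q) / Q) ^ n *
      ((v / (v + Q)) ^ m * (1 - v / (v + Q)) ^ (n - m) * Q ^ (m + k)) := by
  obtain ⟨r, rfl⟩ := Nat.exists_eq_add_of_le h
  have hs : v + Q ≠ 0 := by positivity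
  have e2 : (1 : ℝ) - v / (v + Q) = Q / (v + Q) := by
    field_simp
    ring
  rw [Nat.add_sub_cancel_left, e2, pow_add, pow_add]
  have e3 : ((v + Q) / Q) ^ r * (Q / (v + Q)) ^ r = 1 := by
    rw [← mul_pow, div_mul_div_comm, mul_comm (v + Q), div_self (mul_ne_zero hQ.ne' hs), one_pow]
  have e4 : ((v + Q) / Q) ^ m * (v / (v + Q)) ^ m * Q ^ m = v ^ m := by
    rw [← mul_pow, ← mul_pow]
    congr 1
    field_simp
  calc v ^ m * Q ^ k =
        (((v + Q) / Q) ^ m * (v / (v + Q)) ^ m * Q ^ m) *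
          (((v + Q) / Q) ^ r * (Q / (v + Q)) ^ r) * Q ^ k := by
        rw [e4, e3]
        ring
    _ = _ := by ring

open Classical in
private theorem gterm (χ : E → V × V) {Q : ℝ} {u w : V} (huw : u ≠ w) (A : Finset E) :
    Q * Q ^ kk χ A = Q ^ kk (glue χ u w) A *
      (1 + (Q - 1) * (if cls χ A u = cls χ A w then (0 : ℝ) else 1)) := by
  have h := kk_glue χ huw A
  rw [h]
  split_ifs
  · rw [pow_succ]
    ring
  · rw [add_zero]
    ring

theorem glue_w (χ : E → V × V) {Q v : ℝ} (hQ : 1 ≤ Q) (hv : 0 < v) {u w : V} (huw : u ≠ w) (θ : Finset E → ℝ)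
    (hθ : Monotone θ) (hθ0 : ∀ A, 0 ≤ θ A) :
    Q * ∑ A : Finset E, v ^ A.card * Q ^ kk χ A * θ A ≤
      (1 + (Q - 1) * sep χ (v / (v + Q)) u w) * ∑ A : Finset E, v ^ A.card * Q ^ kk (glue χ u w) A * θ A := by
  classical
  have hQ0 : 0 < Q := by linarith
  set χ' := glue χ u w with hχ'
  set s : Finset E → ℝ := fun A => if cls χ A u = cls χ A w then 0 else 1 with hs
  have hterm : ∀ A : Finset E, Q * (v ^ A.card * Q ^ kk χ A * θ A) =
      v ^ A.card * Q ^ kk χ' A * θ A + (Q - 1) * (v ^ A.card * Q ^ kk χ' A * θ A * s A) := by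
    intro A
    have h : Q * Q ^ kk χ A = Q ^ kk χ' A * (1 + (Q - 1) * s A) := by
      have h1 := gterm χ (Q := Q) huw A
      rw [← hχ'] at h1
      rw [h1]
    calc Q * (v ^ A.card * Q ^ kk χ A * θ A) = v ^ A.card * (Q * Q ^ kk χ A) * θ A := by ring
      _ = _ := by
        rw [h]
        ring
  have hZ : Q * ∑ A : Finset E, v ^ A.card * Q ^ kk χ A * θ A =
      (∑ A : Finset E, v ^ A.card * Q ^ kk χ' A * θ A) +
        (Q - 1) * ∑ A : Finset E, v ^ A.card * Q ^ kk χ' A * θ A * s A := by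
    rw [Finset.mul_sum, Finset.mul_sum, ← Finset.sum_add_distrib]
    exact Finset.sum_congr rfl fun A _ => hterm A
  have hq1 : 0 ≤ Q - 1 := by linarith
  set p := v / (v + Q) with hp
  have hvQ : 0 < v + Q := by linarith
  have hp0 : 0 ≤ p := by positivity
  have hp1 : p ≤ 1 := by
    rw [hp, div_le_one hvQ]
    linarith
  set f : Finset E → ℝ := fun A => Q ^ (A.card + kk χ' A) * θ A with hf
  set K := ((v + Q) / Q) ^ Fintype.card E with hK
  have hK0 : 0 < K := by positivity
  have hkey : ∀ A : Finset E, v ^ A.card * Q ^ kk χ' A * θ A = K * (wt p A * f A) := by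
    intro A
    have hc := Finset.card_le_univ A
    have h1 := alg' hQ0 hv (k := kk χ' A) hc
    simp only [hK, hf, wt, hp]
    rw [h1]
    ring
  have hfm : Monotone f := by
    intro A B hAB
    exact mul_le_mul (pow_le_pow_right₀ hQ (kk_card_mono' χ' hAB)) (hθ hAB) (hθ0 A)
      (pow_pos hQ0 _).le
  have hharris := harris hp0 hp1 f s hfm (fun A B hAB => by
      simp only [hs]
      by_cases h1 : cls χ A u = cls χ A w
      · rw [if_pos h1, if_pos (cls_mono χ hAB h1)]
      · rw [if_neg h1]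
        split_ifs <;> norm_num) (fun A => mul_nonneg (pow_pos hQ0 _).le (hθ0 A))
  have hsep : ∑ A : Finset E, wt p A * s A = sep χ p u w := by
    unfold sep
    refine Finset.sum_congr rfl fun A _ => ?_
    simp only [hs]
    split_ifs <;> ring
  have hCle : ∑ A : Finset E, v ^ A.card * Q ^ kk χ' A * θ A * s A ≤
      sep χ p u w * ∑ A : Finset E, v ^ A.card * Q ^ kk χ' A * θ A := by
    have e1 : ∑ A : Finset E, v ^ A.card * Q ^ kk χ' A * θ A * s A =
        K * ∑ A : Finset E, wt p A * (f A * s A) := by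
      rw [Finset.mul_sum]
      exact Finset.sum_congr rfl fun A _ => by
        rw [hkey A]
        ring
    have e2 : ∑ A : Finset E, v ^ A.card * Q ^ kk χ' A * θ A =
        K * ∑ A : Finset E, wt p A * f A := by
      rw [Finset.mul_sum]
      exact Finset.sum_congr rfl fun A _ => hkey A
    rw [e1, e2]
    rw [hsep] at hharris
    calc K * ∑ A : Finset E, wt p A * (f A * s A) ≤
          K * ((∑ A : Finset E, wt p A * f A) * sep χ p u w) :=
          mul_le_mul_of_nonneg_left hharris hK0.le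
      _ = sep χ p u w * (K * ∑ A : Finset E, wt p A * f A) := by ring
  rw [hZ]
  have h9 := mul_le_mul_of_nonneg_left hCle hq1
  linarith

theorem glue_low (χ : E → V × V) {q v : ℝ} (hq : 1 ≤ q) (hv : 0 < v) {u w : V} (huw : u ≠ w) :
    ∑ A : Finset E, v ^ A.card * q ^ kk (glue χ u w) A ≤ q * ∑ A : Finset E, v ^ A.card * q ^ kk χ A := by
  classical
  rw [Finset.mul_sum]
  refine Finset.sum_le_sum fun A _ => ?_
  have h := gterm χ (Q := q) huw A
  have h1 : q * (v ^ A.card * q ^ kk χ A) = v ^ A.card * (q * q ^ kk χ A) := by ring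
  rw [h1, h]
  have hq0 : 0 < q := by linarith
  have h2 : (1 : ℝ) ≤ 1 + (q - 1) * (if cls χ A u = cls χ A w then (0 : ℝ) else 1) := by
    split_ifs <;> linarith
  exact mul_le_mul_of_nonneg_left (le_mul_of_one_le_right (pow_pos hq0 _).le h2)
    (pow_pos hv _).le

end Pool.Agent.Work.MP_63853a_lc.Tr
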