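import Pool.Agent.Work.MP_63853a_lc.Tr.Pair
import Pool.Agent.Work.MP_63853a_lc.Tr.G.Defs
import Pool.Agent.Work.MP_63853a_lc.Tr.G.GlueW

set_option autoImplicit false

/-!
# ChainW (size M): the classes generated by pairs with many common neighbours

Let `m(c) = card V - (Set.range c).ncard`, `δ = (1 - p^2)^κ`, `p = v / (v + q^2)`. As in `Tr/Chain.lean` (proved; copy `eqv_fun`,
`eqv_mono` and the structure of `chain_fin`): by induction on a finite set `F` of pairs there is `c` with the kernel generated by `F`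
and, for EVERY monotone `θ ≥ 0`,
`(q^2)^m(c) * ∑ v^|A| (q^2)^kk φ A θ A ≤ (1 + (q^2 - 1) δ)^m(c) * ∑ v^|A| (q^2)^kk (quo φ c) A θ A` and
`∑ v^|A| q^kk (quo φ c) A ≤ q^m(c) * ∑ v^|A| q^kk φ A`. Step: `quo φ c' = glue (quo φ c) (c u₀) (c w₀)`, `m(c') = m(c) + 1`, `glue_w` with
`Q = q^2`, `sep_common`, `glue_low`. Finally take `θ A = (1 / q) ^ kk (quo φ c) A` (monotone, `kk_anti`), so that
`(q^2)^kk (quo φ c) A * θ A = q^kk (quo φ c) A`, and `chi = Z_ψ * J / Z_φ^2` with `ψ = quo φ c`, `J = ∑ v^|A| (q^2)^kk φ A θ A`: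
`chi ≤ Z_ψ * (1 + (q^2-1) δ)^m Z_ψ / (q^(2 m) Z_φ^2) ≤ (1 + (q^2 - 1) δ)^m ≤ exp (m (q^2 - 1) δ)`.
-/

namespace Pool.Agent.Work.MP_63853a_lc.Tr

open Finset Pool.Agent.Work.MP_63853a_lc

variable {V E : Type} [Fintype V] [Fintype E]

private theorem eqv_fun {R : V → V → Prop} {β : Type} (c : V → β) (h : ∀ a b, R a b → c a = c b) {u v : V}
    (huv : Relation.EqvGen R u v) : c u = c v := by
  induction huv with
  | rel a b hab => exact h a b hab
  | refl a => rfl
  | symm a b _ ih => exact ih.symm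
  | trans a b c' _ _ ih1 ih2 => exact ih1.trans ih2

private theorem eqv_mono {R S : V → V → Prop} (h : ∀ a b, R a b → S a b) {u v : V}
    (huv : Relation.EqvGen R u v) : Relation.EqvGen S u v := by
  induction huv with
  | rel a b hab => exact Relation.EqvGen.rel a b (h a b hab)
  | refl a => exact Relation.EqvGen.refl a
  | symm a b _ ih => exact Relation.EqvGen.symm a b ih
  | trans a b c _ _ ih1 ih2 => exact Relation.EqvGen.trans a b c ih1 ih2

open Classical in
private theorem chain_fin (φ : E → V × V) {q Q v : ℝ} (hq : 1 ≤ q) (hQ : 1 ≤ Q) (hv : 0 < v) (κ : ℕ)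
    (F : Finset (V × V)) (hF : ∀ p ∈ F, p.1 ≠ p.2 → Com φ κ p.1 p.2) :
    ∃ c : V → V, (∀ u v, c u = c v ↔ Relation.EqvGen (fun a b => (a, b) ∈ F) u v) ∧
      (Set.range c).ncard ≤ Fintype.card V ∧
      (∀ θ : Finset E → ℝ, Monotone θ → (∀ A, 0 ≤ θ A) →
        Q ^ (Fintype.card V - (Set.range c).ncard) * ∑ A : Finset E, v ^ A.card * Q ^ kk φ A * θ A ≤
          (1 + (Q - 1) * (1 - (v / (v + Q)) ^ 2) ^ κ) ^ (Fintype.card V - (Set.range c).ncard) *
            ∑ A : Finset E, v ^ A.card * Q ^ kk (quo φ c) A * θ A) ∧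
      ∑ A : Finset E, v ^ A.card * q ^ kk (quo φ c) A ≤
        q ^ (Fintype.card V - (Set.range c).ncard) * ∑ A : Finset E, v ^ A.card * q ^ kk φ A := by
  have hq0 : 0 < q := by linarith
  have hQ0 : 0 < Q := by linarith
  have h1x : 0 ≤ v / (v + Q) := by positivity
  have h1x1 : v / (v + Q) ≤ 1 := by
    rw [div_le_one (by positivity)]
    linarith
  have hδ : 0 ≤ (1 - (v / (v + Q)) ^ 2 : ℝ) ^ κ := pow_nonneg (by nlinarith) _
  induction F using Finset.induction_on with
  | empty =>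
    have hr : (Set.range (id : V → V)).ncard = Fintype.card V := by
      rw [Set.range_id, Set.ncard_univ, Nat.card_eq_fintype_card]
    have h1 : quo φ id = φ := by
      funext e
      rfl
    refine ⟨id, ?_, hr.le, ?_, ?_⟩
    · intro u v
      constructor
      · intro h
        have h' : u = v := h
        rw [h']
        exact Relation.EqvGen.refl _
      · intro h
        exact eqv_fun id (fun a b hab => absurd hab (Finset.notMem_empty _)) h
    · intro θ _ _
      rw [hr, h1, Nat.sub_self, pow_zero, pow_zero]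
    · rw [hr, h1, Nat.sub_self, pow_zero, one_mul]
  | insert p F hp ih =>
    obtain ⟨u₀, w₀⟩ := p
    obtain ⟨c, hc, hr, hup, hlow⟩ := ih fun p hp => hF p (Finset.mem_insert_of_mem hp)
    have hmono : ∀ {u v : V}, Relation.EqvGen (fun a b => (a, b) ∈ F) u v →
        Relation.EqvGen (fun a b => (a, b) ∈ insert (u₀, w₀) F) u v :=
      fun h => eqv_mono (fun a b hab => Finset.mem_insert_of_mem hab) h
    by_cases h0 : c u₀ = c w₀
    · refine ⟨c, ?_, hr, hup, hlow⟩
      intro u v
      constructor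
      · intro h
        exact hmono ((hc u v).1 h)
      · intro h
        refine eqv_fun c (fun a b hab => ?_) h
        rcases Finset.mem_insert.1 hab with h1 | h1
        · simp only [Prod.mk.injEq] at h1
          rw [h1.1, h1.2]
          exact h0
        · exact (hc a b).2 (Relation.EqvGen.rel a b h1)
    · set c' : V → V := fun z => if c z = c u₀ then c w₀ else c z with hc'
      have hc'1 : ∀ z, c z = c u₀ → c' z = c w₀ := fun z hz => if_pos hz
      have hc'2 : ∀ z, c z ≠ c u₀ → c' z = c z := fun z hz => if_neg hz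
      have h0' : c w₀ ≠ c u₀ := fun h => h0 h.symm
      have hrange : Set.range c' = Set.range c \ {c u₀} := by
        ext y
        simp only [Set.mem_range, Set.mem_sdiff, Set.mem_singleton_iff]
        constructor
        · rintro ⟨z, rfl⟩
          by_cases hz : c z = c u₀
          · rw [hc'1 z hz]
            exact ⟨⟨w₀, rfl⟩, h0'⟩
          · rw [hc'2 z hz]
            exact ⟨⟨z, rfl⟩, hz⟩
        · rintro ⟨⟨z, rfl⟩, hz⟩
          exact ⟨z, hc'2 z hz⟩
      have hncard : (Set.range c').ncard + 1 = (Set.range c).ncard := by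
        rw [hrange]
        exact Set.ncard_sdiff_singleton_add_one ⟨u₀, rfl⟩ (Set.toFinite _)
      have hsub : Fintype.card V - (Set.range c').ncard = (Fintype.card V - (Set.range c).ncard) + 1 := by omega
      have hne : u₀ ≠ w₀ := fun h => h0 (by rw [h])
      have hsep := sep_common φ c hne (hF (u₀, w₀) (Finset.mem_insert_self _ _) hne) h1x h1x1
      have h2 : glue (quo φ c) (c u₀) (c w₀) = quo φ c' := by
        funext e
        rfl
      refine ⟨c', ?_, by omega, ?_, ?_⟩
      · intro u v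
        have hpair : Relation.EqvGen (fun a b => (a, b) ∈ insert (u₀, w₀) F) u₀ w₀ :=
          Relation.EqvGen.rel _ _ (Finset.mem_insert_self _ _)
        constructor
        · intro h
          by_cases hu : c u = c u₀
          · by_cases hv : c v = c u₀
            · exact hmono ((hc u v).1 (hu.trans hv.symm))
            · rw [hc'1 u hu, hc'2 v hv] at h
              exact (hmono ((hc u u₀).1 hu)).trans _ _ _ (hpair.trans _ _ _ (hmono ((hc w₀ v).1 h)))
          · by_cases hv : c v = c u₀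
            · rw [hc'2 u hu, hc'1 v hv] at h
              exact (hmono ((hc u w₀).1 h)).trans _ _ _
                ((hpair.symm _ _).trans _ _ _ (hmono ((hc u₀ v).1 hv.symm)))
            · rw [hc'2 u hu, hc'2 v hv] at h
              exact hmono ((hc u v).1 h)
        · intro h
          refine eqv_fun c' (fun a b hab => ?_) h
          rcases Finset.mem_insert.1 hab with h1 | h1
          · simp only [Prod.mk.injEq] at h1
            rw [h1.1, h1.2, hc'1 u₀ rfl, hc'2 w₀ h0']
          · have h2 := (hc a b).2 (Relation.EqvGen.rel a b h1)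
            simp only [hc', h2]
      · intro θ hθ hθ0
        have g1 := hup θ hθ hθ0
        have g2 := glue_w (quo φ c) hQ hv h0 θ hθ hθ0
        rw [h2] at g2
        have hS0 : 0 ≤ ∑ A : Finset E, v ^ A.card * Q ^ kk (quo φ c') A * θ A :=
          Finset.sum_nonneg fun A _ => mul_nonneg (by positivity) (hθ0 A)
        have hB0 : 0 ≤ 1 + (Q - 1) * (1 - (v / (v + Q)) ^ 2) ^ κ := by
          have := mul_nonneg (sub_nonneg.2 hQ) hδ
          linarith
        have g3 : (1 + (Q - 1) * sep (quo φ c) (v / (v + Q)) (c u₀) (c w₀)) ≤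
            1 + (Q - 1) * (1 - (v / (v + Q)) ^ 2) ^ κ := by
          have := mul_le_mul_of_nonneg_left hsep (sub_nonneg.2 hQ)
          linarith
        rw [hsub, pow_succ, pow_succ]
        calc Q ^ (Fintype.card V - (Set.range c).ncard) * Q *
              ∑ A : Finset E, v ^ A.card * Q ^ kk φ A * θ A
            = Q * (Q ^ (Fintype.card V - (Set.range c).ncard) *
              ∑ A : Finset E, v ^ A.card * Q ^ kk φ A * θ A) := by ring
          _ ≤ Q * ((1 + (Q - 1) * (1 - (v / (v + Q)) ^ 2) ^ κ) ^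
                (Fintype.card V - (Set.range c).ncard) *
                ∑ A : Finset E, v ^ A.card * Q ^ kk (quo φ c) A * θ A) :=
              mul_le_mul_of_nonneg_left g1 hQ0.le
          _ = (1 + (Q - 1) * (1 - (v / (v + Q)) ^ 2) ^ κ) ^
                (Fintype.card V - (Set.range c).ncard) *
                (Q * ∑ A : Finset E, v ^ A.card * Q ^ kk (quo φ c) A * θ A) := by ring
          _ ≤ (1 + (Q - 1) * (1 - (v / (v + Q)) ^ 2) ^ κ) ^
                (Fintype.card V - (Set.range c).ncard) *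
                ((1 + (Q - 1) * (1 - (v / (v + Q)) ^ 2) ^ κ) *
                  ∑ A : Finset E, v ^ A.card * Q ^ kk (quo φ c') A * θ A) :=
              mul_le_mul_of_nonneg_left (g2.trans (mul_le_mul_of_nonneg_right g3 hS0))
                (pow_nonneg hB0 _)
          _ = _ := by ring
      · have g2 := glue_low (quo φ c) hq hv h0
        rw [h2] at g2
        rw [hsub, pow_succ]
        calc ∑ A : Finset E, v ^ A.card * q ^ kk (quo φ c') A
            ≤ q * ∑ A : Finset E, v ^ A.card * q ^ kk (quo φ c) A := g2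
          _ ≤ q * (q ^ (Fintype.card V - (Set.range c).ncard) *
                ∑ A : Finset E, v ^ A.card * q ^ kk φ A) := mul_le_mul_of_nonneg_left hlow hq0.le
          _ = _ := by ring

theorem chain_chi (φ : E → V × V) {x y : ℝ} (hx : 1 < x) (hy : 1 < y) (hq : 1 ≤ (x - 1) * (y - 1))
    (R : V → V → Prop) (κ : ℕ) (hR : ∀ u w, R u w → u ≠ w → Com φ κ u w) :
    ∃ c : V → V, (∀ u v, c u = c v ↔ Relation.EqvGen R u v) ∧
      chi φ (quo φ c) x y (fun _ => y - 1) ≤
        Real.exp (Fintype.card V * (((x - 1) * (y - 1)) ^ 2 *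
          (1 - ((y - 1) / ((y - 1) + ((x - 1) * (y - 1)) ^ 2)) ^ 2) ^ κ)) := by
  classical
  obtain ⟨q, hqd⟩ : ∃ q : ℝ, q = (x - 1) * (y - 1) := ⟨_, rfl⟩
  obtain ⟨v, hvd⟩ : ∃ v : ℝ, v = y - 1 := ⟨_, rfl⟩
  have hv : 0 < v := by rw [hvd]; linarith
  rw [← hqd] at hq
  have hq0 : 0 < q := by linarith
  have hQ : 1 ≤ q ^ 2 := one_le_pow₀ hq
  obtain ⟨c, hc, hr, hup, hlow⟩ := chain_fin φ hq hQ hv κ
    (Finset.univ.filter fun p : V × V => R p.1 p.2)
    (fun p hp hne => hR p.1 p.2 (Finset.mem_filter.1 hp).2 hne)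
  refine ⟨c, ?_, ?_⟩
  · intro u v
    rw [hc u v]
    have : (fun a b : V => (a, b) ∈ Finset.univ.filter fun p : V × V => R p.1 p.2) = R := by
      funext a b
      simp
    rw [this]
  obtain ⟨m, hm⟩ : ∃ m : ℕ, m = Fintype.card V - (Set.range c).ncard := ⟨_, rfl⟩
  rw [← hm] at hup hlow
  obtain ⟨δ, hδ⟩ : ∃ δ : ℝ, δ = (1 - (v / (v + q ^ 2)) ^ 2) ^ κ := ⟨_, rfl⟩
  rw [← hδ] at hup
  have hδ0 : 0 ≤ δ := by
    rw [hδ]
    have h1 : v / (v + q ^ 2) ≤ 1 := by
      rw [div_le_one (by positivity)]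
      linarith
    have h2 : 0 ≤ v / (v + q ^ 2) := by positivity
    exact pow_nonneg (by nlinarith) _
  have hθm : Monotone fun A : Finset E => (1 / q) ^ kk (quo φ c) A := by
    intro A B hAB
    exact pow_le_pow_of_le_one (by positivity) (by rw [div_le_one hq0]; exact hq)
      (kk_anti (quo φ c) hAB)
  have hu := hup _ hθm (fun A => by positivity)
  -- the three sums
  obtain ⟨Z, hZ⟩ : ∃ Z : ℝ, Z = ∑ A : Finset E, v ^ A.card * q ^ kk φ A := ⟨_, rfl⟩
  obtain ⟨Z', hZ'⟩ : ∃ Z' : ℝ, Z' = ∑ A : Finset E, v ^ A.card * q ^ kk (quo φ c) A := ⟨_, rfl⟩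
  obtain ⟨J, hJ⟩ : ∃ J : ℝ, J = ∑ A : Finset E, v ^ A.card * (q ^ 2) ^ kk φ A *
    (1 / q) ^ kk (quo φ c) A := ⟨_, rfl⟩
  have hZpos : 0 < Z := by
    rw [hZ]
    exact Finset.sum_pos (fun A _ => by positivity) ⟨∅, Finset.mem_univ _⟩
  have hZ'pos : 0 < Z' := by
    rw [hZ']
    exact Finset.sum_pos (fun A _ => by positivity) ⟨∅, Finset.mem_univ _⟩
  have e1 : ∑ A : Finset E, v ^ A.card * (q ^ 2) ^ kk (quo φ c) A *
      (1 / q) ^ kk (quo φ c) A = Z' := by
    rw [hZ']
    refine Finset.sum_congr rfl fun A _ => ?_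
    rw [mul_assoc, ← mul_pow]
    congr 2
    field_simp
  rw [e1, ← hJ] at hu
  rw [← hZ, ← hZ'] at hlow
  have hchi : chi φ (quo φ c) x y (fun _ => y - 1) = Z' * J / Z ^ 2 := by
    unfold chi wg
    rw [← hqd, ← hvd]
    have s1 : ∑ A : Finset E, (∏ _e ∈ A, v) * q ^ kk (quo φ c) A = Z' := by
      rw [hZ']
      exact Finset.sum_congr rfl fun A _ => by rw [Finset.prod_const]
    have s2 : ∑ A : Finset E, (∏ _e ∈ A, v) * q ^ kk φ A = Z := by
      rw [hZ]
      exact Finset.sum_congr rfl fun A _ => by rw [Finset.prod_const]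
    have s3 : ∑ A : Finset E, ((∏ _e ∈ A, v) * q ^ kk φ A) ^ 2 /
        ((∏ _e ∈ A, v) * q ^ kk (quo φ c) A) = J := by
      rw [hJ]
      refine Finset.sum_congr rfl fun A _ => ?_
      rw [Finset.prod_const, one_div, inv_pow]
      have : v ^ A.card ≠ 0 := by positivity
      have h2 : q ^ kk (quo φ c) A ≠ 0 := by positivity
      field_simp
      ring
    rw [s1, s2, s3]
  rw [hchi]
  have hqm : 0 < q ^ m := by positivity
  have hB0 : 0 ≤ (q ^ 2 - 1) * δ := mul_nonneg (sub_nonneg.2 hQ) hδ0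
  have hB1 : 0 ≤ (1 + (q ^ 2 - 1) * δ) ^ m := pow_nonneg (by linarith) _
  have hJ' : J ≤ (1 + (q ^ 2 - 1) * δ) ^ m * Z' / (q ^ 2) ^ m := by
    rw [le_div_iff₀ (by positivity), mul_comm]
    exact hu
  have k1 : Z' * J / Z ^ 2 ≤ (1 + (q ^ 2 - 1) * δ) ^ m := by
    rw [div_le_iff₀ (by positivity)]
    calc Z' * J ≤ Z' * ((1 + (q ^ 2 - 1) * δ) ^ m * Z' / (q ^ 2) ^ m) :=
          mul_le_mul_of_nonneg_left hJ' hZ'pos.le
      _ = (1 + (q ^ 2 - 1) * δ) ^ m * (Z' / q ^ m) ^ 2 := by
          rw [← pow_mul, mul_comm 2 m, pow_mul]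
          field_simp
      _ ≤ (1 + (q ^ 2 - 1) * δ) ^ m * Z ^ 2 := by
          refine mul_le_mul_of_nonneg_left (pow_le_pow_left₀ (by positivity) ?_ 2) hB1
          rw [div_le_iff₀ hqm, mul_comm]
          exact hlow
  refine k1.trans ?_
  have k2 : (1 + (q ^ 2 - 1) * δ) ^ m ≤ Real.exp ((q ^ 2 - 1) * δ) ^ m := by
    refine pow_le_pow_left₀ (by linarith) ?_ m
    have := Real.add_one_le_exp ((q ^ 2 - 1) * δ)
    linarith
  refine k2.trans ?_
  rw [← Real.exp_nat_mul, ← hqd, ← hvd, ← hδ]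
  refine Real.exp_le_exp.2 ?_
  have hmV : (m : ℝ) ≤ Fintype.card V := by
    have : m ≤ Fintype.card V := by omega
    exact_mod_cast this
  have h3 : (q ^ 2 - 1) * δ ≤ q ^ 2 * δ := by linarith
  exact mul_le_mul hmV h3 hB0 (Nat.cast_nonneg _)


end Pool.Agent.Work.MP_63853a_lc.Tr
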