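import Pool.Agent.Work.MP_63853a_lc.Tr.G.MainG
import Pool.Agent.Work.MP_63853a_lc.Tr.G.ChainW

set_option autoImplicit false

/-!
# AsmG (size M): the constants

Let `q = (x-1)(y-1)`, `ρ = 1 - ((y-1)/((y-1)+q^2))^2 ∈ (0,1)`, `L = log s ≥ log 2`,
`b = max (2 / log 2) ((1 + log (q^2) / log 2) / (- log ρ))`: `κ = ⌈b L⌉ ≥ 2` and `n q^2 ρ^κ ≤ 1` for `n ≤ s` (as `rho_bound` in
`Tr/Asm.lean`, proved). So `chain_chi` gives `chi ≤ e ≤ 3`. By `main_gen` with `w = α (κ + 2)` it is enough that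
`8 * size * q^w * 3 / ε^2 ≤ s^C / ε^2`: `size ≤ s`, `24 ≤ s^5`, `w ≤ α (b L + 3) ≤ α (b + 3/log 2) L`, so
`q^w ≤ s^(α (b + 3/log 2) log q)`; `C = 6 + α (b + 3/log 2) log q`.
-/

namespace Pool.Agent.Work.MP_63853a_lc.Tr

open Finset Pool.Agent.Work.MP_63853a_lc

private theorem asmg_rho {ρ q b L s : ℝ} {κ : ℕ} (hρ0 : 0 < ρ) (hρ1 : ρ < 1) (hq : 1 ≤ q) (hs : 0 < s)
    (hL : L = Real.log s) (hL2 : Real.log 2 ≤ L)
    (hb : (1 + Real.log q / Real.log 2) / (-Real.log ρ) ≤ b) (hκ : b * L ≤ κ) :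
    s * (q * ρ ^ κ) ≤ 1 := by
  have hl2 : 0 < Real.log 2 := Real.log_pos (by norm_num)
  have hlρ : 0 < -Real.log ρ := neg_pos.2 (Real.log_neg hρ0 hρ1)
  have hL0 : 0 < L := lt_of_lt_of_le hl2 hL2
  have hl4 : 0 ≤ Real.log q := Real.log_nonneg hq
  have hq0 : 0 < q := by linarith
  rw [div_le_iff₀ hlρ] at hb
  have h1 : ρ ^ κ = Real.exp (κ * Real.log ρ) := by
    rw [Real.exp_nat_mul, Real.exp_log hρ0]
  have h2 : κ * Real.log ρ ≤ -L - Real.log q := by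
    have h3 : (b * L) * (-Real.log ρ) ≤ κ * (-Real.log ρ) := mul_le_mul_of_nonneg_right hκ hlρ.le
    have h4 : (1 + Real.log q / Real.log 2) * L ≤ b * (-Real.log ρ) * L := mul_le_mul_of_nonneg_right hb hL0.le
    have h5 : Real.log q ≤ Real.log q / Real.log 2 * L := by
      rw [div_mul_eq_mul_div, le_div_iff₀ hl2]
      exact mul_le_mul_of_nonneg_left hL2 hl4
    nlinarith
  have h6 : ρ ^ κ ≤ 1 / (s * q) := by
    rw [h1]
    calc Real.exp (κ * Real.log ρ) ≤ Real.exp (-L - Real.log q) := Real.exp_le_exp.2 h2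
      _ = 1 / (s * q) := by
        rw [Real.exp_sub, Real.exp_neg, hL, Real.exp_log hs, Real.exp_log hq0]
        field_simp
  calc s * (q * ρ ^ κ) ≤ s * (q * (1 / (s * q))) :=
        mul_le_mul_of_nonneg_left (mul_le_mul_of_nonneg_left h6 hq0.le) hs.le
    _ = 1 := by field_simp

private theorem asmg_pow {q s L A : ℝ} {w : ℕ} (hq : 1 ≤ q) (hs : 0 < s) (hL : L = Real.log s)
    (hw : (w : ℝ) ≤ A * L) : q ^ w ≤ s ^ (A * Real.log q) := by
  have hq0 : 0 < q := by linarith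
  have h1 : q ^ w = Real.exp (w * Real.log q) := by
    rw [Real.exp_nat_mul, Real.exp_log hq0]
  rw [h1, Real.rpow_def_of_pos hs, ← hL]
  apply Real.exp_le_exp.2
  have h2 : 0 ≤ Real.log q := Real.log_nonneg hq
  calc (w : ℝ) * Real.log q ≤ (A * L) * Real.log q := mul_le_mul_of_nonneg_right hw h2
    _ = L * (A * Real.log q) := by ring

theorem asm_g (x y : ℝ) (hx : 1 < x) (hy : 1 < y) (hq : 1 ≤ (x - 1) * (y - 1)) (α : ℕ) :
    ∃ b C : ℝ, ∀ (V E : Type) [Fintype V] [Fintype E] (φ : E → V × V) (s : ℝ) (R : V → V → Prop),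
      2 ≤ s → (Fintype.card V : ℝ) ≤ s → (∀ u w, R u w → u ≠ w → Com φ ⌈b * Real.log s⌉₊ u w) →
      2 ≤ ⌈b * Real.log s⌉₊ ∧ ∃ c : V → V, (∀ u v, c u = c v ↔ Relation.EqvGen R u v) ∧
        ∀ (t : ETree E) (ε : ℝ), t.Nodup → t.edges = univ → (t.size : ℝ) ≤ s →
          (∀ S ∈ t.sets, lam (quo φ c) S ≤ α * (⌈b * Real.log s⌉₊ + 2)) → 0 < ε → ε ≤ 1 →
          ∀ N : ℕ, s ^ C / ε ^ 2 ≤ N → 3 / 4 ≤ tgood φ (quo φ c) x y (fun _ => y - 1) t ε N := by
  have hx0 : 0 < x - 1 := by linarith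
  have hv0 : 0 < y - 1 := by linarith
  set q := (x - 1) * (y - 1) with hqd
  have hq0 : 0 < q := by linarith
  have hl2 : 0 < Real.log 2 := Real.log_pos (by norm_num)
  set ρ : ℝ := 1 - ((y - 1) / ((y - 1) + q ^ 2)) ^ 2 with hρ
  have hq2 : 0 < q ^ 2 := by positivity
  have hq21 : 1 ≤ q ^ 2 := one_le_pow₀ hq
  have hp0 : 0 < (y - 1) / ((y - 1) + q ^ 2) := by positivity
  have hp1 : (y - 1) / ((y - 1) + q ^ 2) < 1 := by
    rw [div_lt_one (by positivity)]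
    linarith
  have hρ0 : 0 < ρ := by
    have : ((y - 1) / ((y - 1) + q ^ 2)) ^ 2 < 1 := by
      rw [sq]
      nlinarith
    linarith
  have hρ1 : ρ < 1 := by
    have : 0 < ((y - 1) / ((y - 1) + q ^ 2)) ^ 2 := by positivity
    linarith
  set b : ℝ := max (2 / Real.log 2) ((1 + Real.log (q ^ 2) / Real.log 2) / (-Real.log ρ)) with hb
  have hb0 : 0 < b := lt_of_lt_of_le (by positivity) (le_max_left _ _)
  refine ⟨b, 6 + α * (b + 3 / Real.log 2) * Real.log q, ?_⟩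
  intro V E _ _ φ s R hs2 hcV hR
  have hs0 : 0 < s := by linarith
  set L := Real.log s with hL
  have hL2 : Real.log 2 ≤ L := Real.log_le_log (by norm_num) hs2
  have hL0 : 0 < L := lt_of_lt_of_le hl2 hL2
  set κ := ⌈b * L⌉₊ with hκ
  have hκ1 : b * L ≤ κ := Nat.le_ceil _
  have hκ2 : (κ : ℝ) < b * L + 1 := Nat.ceil_lt_add_one (by positivity)
  have hbL : 2 ≤ b * L := by
    calc (2 : ℝ) = 2 / Real.log 2 * Real.log 2 := by field_simp
      _ ≤ b * L := mul_le_mul (le_max_left _ _) hL2 hl2.le hb0.le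
  refine ⟨?_, ?_⟩
  · have : (2 : ℝ) ≤ κ := hbL.trans hκ1
    exact_mod_cast this
  obtain ⟨c, hc, hchi⟩ := chain_chi φ hx hy hq R κ hR
  refine ⟨c, hc, ?_⟩
  intro t ε ht htu htS hw hε hε1 N hN
  have hchi3 : chi φ (quo φ c) x y (fun _ => y - 1) ≤ 3 := by
    refine hchi.trans ?_
    have h1 : (Fintype.card V : ℝ) * (q ^ 2 * ρ ^ κ) ≤ 1 := by
      refine le_trans ?_ (asmg_rho (κ := κ) hρ0 hρ1 hq21 hs0 hL hL2 (le_max_right _ _) hκ1)
      exact mul_le_mul_of_nonneg_right hcV (mul_nonneg hq2.le (pow_nonneg hρ0.le _))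
    refine (Real.exp_le_exp.2 h1).trans ?_
    have := Real.exp_one_lt_d9
    linarith
  have hchi1 := one_le_chi φ (quo φ c) hx hy (u := fun _ => y - 1) (fun _ => hv0)
  refine main_gen φ (quo φ c) hx hy hq (u := fun _ => y - 1) (fun _ => hv0) t ht htu hw hε hε1 N ?_
  refine le_trans ?_ hN
  refine div_le_div_of_nonneg_right ?_ (by positivity)
  have hwL : ((α * (κ + 2) : ℕ) : ℝ) ≤ (α * (b + 3 / Real.log 2)) * L := by
    push_cast
    have h1 : (κ : ℝ) + 2 ≤ (b + 3 / Real.log 2) * L := by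
      have h2 : 3 ≤ 3 / Real.log 2 * L := by
        rw [div_mul_eq_mul_div, le_div_iff₀ hl2]
        linarith
      linarith
    calc (α : ℝ) * ((κ : ℝ) + 2) ≤ α * ((b + 3 / Real.log 2) * L) := mul_le_mul_of_nonneg_left h1 (by positivity)
      _ = α * (b + 3 / Real.log 2) * L := by ring
  have hA := asmg_pow (q := q) (w := α * (κ + 2)) hq hs0 hL hwL
  have hA0 : 0 < q ^ (α * (κ + 2)) := by positivity
  have hs5 : (24 : ℝ) ≤ s ^ 5 := by
    have : (2 : ℝ) ^ 5 ≤ s ^ 5 := pow_le_pow_left₀ (by norm_num) hs2 5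
    linarith
  have hC : s ^ (6 + α * (b + 3 / Real.log 2) * Real.log q) =
      s ^ 6 * s ^ (α * (b + 3 / Real.log 2) * Real.log q) := by
    rw [Real.rpow_add hs0, Real.rpow_ofNat]
  rw [hC]
  calc 8 * (t.size : ℝ) * q ^ (α * (κ + 2)) * chi φ (quo φ c) x y (fun _ => y - 1)
      ≤ 8 * s * q ^ (α * (κ + 2)) * 3 := by
        refine mul_le_mul ?_ hchi3 (by linarith) (by positivity)
        exact mul_le_mul_of_nonneg_right (by linarith) hA0.le
    _ = 24 * s * q ^ (α * (κ + 2)) := by ring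
    _ ≤ s ^ 5 * s * q ^ (α * (κ + 2)) :=
        mul_le_mul_of_nonneg_right (mul_le_mul_of_nonneg_right hs5 hs0.le) hA0.le
    _ = s ^ 6 * q ^ (α * (κ + 2)) := by ring
    _ ≤ s ^ 6 * s ^ (α * (b + 3 / Real.log 2) * Real.log q) :=
        mul_le_mul_of_nonneg_left hA (by positivity)

end Pool.Agent.Work.MP_63853a_lc.Tr
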