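import Pool.Agent.Work.MP_63853a_lc.Tr.Defs

set_option autoImplicit false

/-!
# DrawE (size S): the second moment of one resampling step, as an equality

This is the statement `key` inside the proof of `draw_snd` in `Tr/Draw.lean` (proved): copy it with the private lemmas `mass`,
`mixed`, `pdiv`.
-/

namespace Pool.Agent.Work.MP_63853a_lc.Tr

open Finset Pool.Agent.Work.MP_63853a_lc

variable {E ι : Type} [Fintype ι]

open Classical in
private theorem mass {Ω : Type} [Fintype Ω] (W : Ω → ℝ) (h1 : ∑ o, W o = 1) (N : ℕ) :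
    ∑ ω : Fin N → Ω, ∏ i, W (ω i) = 1 := by
  have h := Finset.prod_univ_sum (fun _ : Fin N => (Finset.univ : Finset Ω)) (fun _ o => W o)
  rw [Fintype.piFinset_univ] at h
  rw [← h]
  exact Finset.prod_eq_one fun i _ => h1

open Classical in
private theorem mixed {Ω : Type} [Fintype Ω] (W X Y : Ω → ℝ) (h1 : ∑ o, W o = 1) (N : ℕ) (i j : Fin N) :
    ∑ ω : Fin N → Ω, (∏ k, W (ω k)) * (X (ω i) * Y (ω j)) =
      if i = j then ∑ o, W o * (X o * Y o) else (∑ o, W o * X o) * ∑ o, W o * Y o := by
  have h := Finset.prod_univ_sum (fun _ : Fin N => (Finset.univ : Finset Ω))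
    (fun k o => W o * ((if k = i then X o else 1) * (if k = j then Y o else 1)))
  rw [Fintype.piFinset_univ] at h
  have h2 : ∀ ω : Fin N → Ω, ∏ k, W (ω k) * ((if k = i then X (ω k) else 1) *
      (if k = j then Y (ω k) else 1)) = (∏ k, W (ω k)) * (X (ω i) * Y (ω j)) := by
    intro ω
    rw [Finset.prod_mul_distrib, Finset.prod_mul_distrib,
      Finset.prod_ite_eq' Finset.univ i (fun k => X (ω k)),
      Finset.prod_ite_eq' Finset.univ j (fun k => Y (ω k)), if_pos (Finset.mem_univ i),
      if_pos (Finset.mem_univ j)]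
  rw [Finset.sum_congr rfl fun ω _ => h2 ω] at h
  rw [← h]
  by_cases hij : i = j
  · subst hij
    rw [if_pos rfl, Finset.prod_eq_single i]
    · refine Finset.sum_congr rfl fun o _ => ?_
      rw [if_pos rfl, if_pos rfl]
    · intro k _ hk
      refine Eq.trans (Finset.sum_congr rfl fun o _ => ?_) h1
      rw [if_neg hk, if_neg hk]
      ring
    · intro h3
      exact absurd (Finset.mem_univ i) h3
  · rw [if_neg hij]
    rw [← Finset.mul_prod_erase Finset.univ _ (Finset.mem_univ i),
      ← Finset.mul_prod_erase (Finset.univ.erase i) _ (Finset.mem_erase.2 ⟨fun h4 => hij h4.symm, Finset.mem_univ j⟩)]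
    have h5 : ∏ k ∈ (Finset.univ.erase i).erase j, ∑ o, W o * ((if k = i then X o else 1) * (if k = j then Y o else 1)) = 1 := by
      refine Finset.prod_eq_one fun k hk => ?_
      simp only [Finset.mem_erase, Finset.mem_univ, and_true] at hk
      refine Eq.trans (Finset.sum_congr rfl fun o _ => ?_) h1
      rw [if_neg hk.1, if_neg hk.2]
      ring
    rw [h5, mul_one]
    congr 1
    · refine Finset.sum_congr rfl fun o _ => ?_
      rw [if_pos rfl, if_neg hij, mul_one]
    · refine Finset.sum_congr rfl fun o _ => ?_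
      rw [if_neg (fun h4 => hij h4.symm), if_pos rfl, one_mul]

private theorem pdiv (w : ι → ℝ) (hW : ∑ j, w j ≠ 0) : ∑ j, w j / ∑ k, w k = 1 := by
  rw [← Finset.sum_div, div_self hW]

theorem draw_eq (N : ℕ) (hN : 0 < N) (a : ι → Finset E) (w : ι → ℝ) (hW : ∑ j, w j ≠ 0) (F G : Finset E → ℝ) :
    draw N a w (fun P m => (m / N * ∑ i, F (P i)) * (m / N * ∑ i, G (P i))) =
      (1 - 1 / N) * ((∑ j, w j * F (a j)) * ∑ j, w j * G (a j)) +
        (∑ j, w j) / N * ∑ j, w j * (F (a j) * G (a j)) := by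
  classical
  have hNr : (0 : ℝ) < N := Nat.cast_pos.2 hN
  have hW' : ∑ j, w j ≠ 0 := hW
  set W := ∑ j, w j with hWdef
  set X := ∑ j, w j * F (a j) with hX
  set Y := ∑ j, w j * G (a j) with hY
  set D := ∑ j, w j * (F (a j) * G (a j)) with hD
  unfold draw
  rw [← hWdef]
  have h1 : ∀ s : Fin N → ι, (∏ i, w (s i) / W) * ((W / N * ∑ i, F (a (s i))) * (W / N * ∑ i, G (a (s i)))) =
      (W / N) ^ 2 * ∑ i, ∑ j, (∏ i, w (s i) / W) * (F (a (s i)) * G (a (s j))) := by
    intro s
    have h0 : (∑ i, F (a (s i))) * (∑ j, G (a (s j))) = ∑ i, ∑ j, F (a (s i)) * G (a (s j)) :=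
      Finset.sum_mul_sum _ _ _ _
    calc (∏ i, w (s i) / W) * ((W / N * ∑ i, F (a (s i))) * (W / N * ∑ i, G (a (s i))))
        = (W / N) ^ 2 * ((∏ i, w (s i) / W) * ((∑ i, F (a (s i))) * (∑ j, G (a (s j))))) := by ring
      _ = _ := by
        rw [h0, Finset.mul_sum]
        congr 1
        exact Finset.sum_congr rfl fun i _ => Finset.mul_sum _ _ _
  rw [Finset.sum_congr rfl fun s _ => h1 s, ← Finset.mul_sum, Finset.sum_comm]
  have h2 : ∀ i j : Fin N, ∑ s : Fin N → ι, (∏ i, w (s i) / W) * (F (a (s i)) * G (a (s j))) =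
      if i = j then D / W else X / W * (Y / W) := by
    intro i j
    rw [mixed (fun j => w j / W) (fun o => F (a o)) (fun o => G (a o)) (by rw [← Finset.sum_div, div_self hW']) N i j]
    refine if_congr Iff.rfl ?_ ?_
    · rw [hD, Finset.sum_div]
      exact Finset.sum_congr rfl fun o _ => by ring
    · rw [hX, hY, Finset.sum_div, Finset.sum_div]
      congr 1
      · exact Finset.sum_congr rfl fun o _ => by ring
      · exact Finset.sum_congr rfl fun o _ => by ring
  have h3 : ∀ i : Fin N, ∑ s : Fin N → ι, ∑ j, (∏ i, w (s i) / W) * (F (a (s i)) * G (a (s j))) =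
      D / W + (N - 1) * (X / W * (Y / W)) := by
    intro i
    rw [Finset.sum_comm, Finset.sum_congr rfl fun j _ => h2 i j]
    have h4 : ∀ j : Fin N, (if i = j then D / W else X / W * (Y / W)) =
        X / W * (Y / W) + if i = j then D / W - X / W * (Y / W) else 0 := by
      intro j
      split_ifs <;> ring
    rw [Finset.sum_congr rfl fun j _ => h4 j, Finset.sum_add_distrib, Finset.sum_const, Finset.card_univ,
      Fintype.card_fin, nsmul_eq_mul, Finset.sum_ite_eq, if_pos (Finset.mem_univ i)]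
    ring
  rw [Finset.sum_congr rfl fun i _ => h3 i, Finset.sum_const, Finset.card_univ, Fintype.card_fin, nsmul_eq_mul]
  field_simp
  ring

end Pool.Agent.Work.MP_63853a_lc.Tr
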