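import Pool.Agent.Work.MP_63853a_lc.Tr.G.TChb
import Pool.Agent.Work.MP_63853a_lc.Tr.Sub
import Pool.Agent.Work.MP_63853a_lc.TutteZ

set_option autoImplicit false

/-!
# MainG (size M): the general bound for the number of sets

`F A = wg φ q (y-1) A / wg ψ q u A > 0`, so `∑ wg ψ * F = ∑ wg φ = zz φ q (fun _ => y - 1) = D * T`,
`D = (x-1)^(kk φ univ) * (y-1)^n` (`tutte_zz`; in `zz` the factors are in the other order), and
`wg ψ * F^2 = wg φ ^ 2 / wg ψ`; `tval = (m / N * ∑ i, F (P i)) / D`, so the event of `tgood` is the event of `trun_cheb` with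
`δ = ε`. `Q = q ^ w` (`FF_osc`, `q ^ lam ≤ q ^ w`, `Tr/Sub`). `hK`: with `s = size`, `(1 + Q/N)^s ≤ exp (s Q / N)`,
`s Q / N ≤ ε^2 / (8 chi) ≤ 1`, as `chi ≥ 1` (Cauchy-Schwarz: `(∑ wg φ)^2 ≤ (∑ wg ψ) (∑ wg φ^2 / wg ψ)`,
`Finset.sum_mul_sq_le_sq_mul_sq` or `Finset.div_add_div_same`-free: `sum_div_..`), so
`(1 + Q/N)^s - 1 ≤ 2 s Q / N ≤ ε^2 / (4 chi)` (`Real.abs_exp_sub_one_le`), and `chi * (∑ wg φ)^2 = (∑ wg ψ) (∑ wg ψ F^2)`.
-/

namespace Pool.Agent.Work.MP_63853a_lc.Tr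

open Finset Pool.Agent.Work.MP_63853a_lc

private theorem mg_wg {V E : Type} (ψ : E → V × V) {q : ℝ} (hq : 0 < q) {u : E → ℝ}
    (hu : ∀ e, 0 < u e) (A : Finset E) : 0 < wg ψ q u A :=
  mul_pos (prod_pos fun e _ => hu e) (pow_pos hq _)

private theorem mg_size {E : Type} (t : ETree E) : 1 ≤ t.size := by
  cases t <;> simp [ETree.size]

private theorem mg_exp {t : ℝ} (h0 : 0 ≤ t) (h1 : t ≤ 1) : Real.exp t ≤ 1 + 2 * t := by
  have h := Real.abs_exp_sub_one_le (x := t) (by rw [abs_of_nonneg h0]; exact h1)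
  rw [abs_of_nonneg h0] at h
  have := (abs_le.1 h).2
  linarith

theorem one_le_chi {V W E : Type} [Fintype E] (φ : E → V × V) (ψ : E → W × W) {x y : ℝ} (hx : 1 < x) (hy : 1 < y)
    {u : E → ℝ} (hu : ∀ e, 0 < u e) : 1 ≤ chi φ ψ x y u := by
  have hv : 0 < y - 1 := by linarith
  have hq : 0 < (x - 1) * (y - 1) := mul_pos (by linarith) hv
  have h1 : ∀ A : Finset E, 0 < wg ψ ((x - 1) * (y - 1)) u A := mg_wg ψ hq hu
  have h2 : ∀ A : Finset E, 0 < wg φ ((x - 1) * (y - 1)) (fun _ => y - 1) A :=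
    mg_wg φ hq fun _ => hv
  have hZ : 0 < ∑ A : Finset E, wg φ ((x - 1) * (y - 1)) (fun _ => y - 1) A :=
    sum_pos (fun A _ => h2 A) ⟨∅, mem_univ _⟩
  unfold chi
  rw [le_div_iff₀ (pow_pos hZ 2), one_mul]
  refine Finset.sum_sq_le_sum_mul_sum_of_sq_eq_mul _ (fun A _ => (h1 A).le)
    (fun A _ => div_nonneg (sq_nonneg _) (h1 A).le) fun A _ => ?_
  have := (h1 A).ne'
  field_simp

private theorem mg_num {s : ℕ} {ε Q χ : ℝ} {N : ℕ} (hN : 0 < N) (hε : 0 < ε) (hε1 : ε ≤ 1)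
    (hQ : 0 < Q) (hχ : 1 ≤ χ) (h : 8 * s * Q * χ / ε ^ 2 ≤ N) :
    ((1 + Q / N) ^ s - 1) * χ ≤ ε ^ 2 / 4 := by
  have hNr : (0 : ℝ) < N := Nat.cast_pos.2 hN
  have h1 : (1 + Q / N) ^ s ≤ Real.exp (s * (Q / N)) := by
    rw [Real.exp_nat_mul]
    refine pow_le_pow_left₀ (by positivity) ?_ s
    have := Real.add_one_le_exp (Q / N)
    linarith
  have h2 : s * (Q / N) * χ ≤ ε ^ 2 / 8 := by
    rw [div_le_iff₀ (by positivity)] at h
    have e1 : s * (Q / N) * χ = (s * Q * χ) / N := by ring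
    rw [e1, div_le_iff₀ hNr]
    linarith
  have h3 : 0 ≤ s * (Q / N) := by positivity
  have h4 : s * (Q / N) ≤ 1 := by
    have h5 : s * (Q / N) * 1 ≤ s * (Q / N) * χ := mul_le_mul_of_nonneg_left hχ h3
    have h6 : ε ^ 2 ≤ 1 := by nlinarith
    linarith
  have h5 := mg_exp h3 h4
  have h6 : (1 + Q / N) ^ s - 1 ≤ 2 * (s * (Q / N)) := by linarith
  have h7 := mul_le_mul_of_nonneg_right h6 (by linarith : (0 : ℝ) ≤ χ)
  linarith

theorem main_gen {V W E : Type} [Fintype V] [Fintype W] [Fintype E] (φ : E → V × V) (ψ : E → W × W) {x y : ℝ}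
    (hx : 1 < x) (hy : 1 < y) (hq : 1 ≤ (x - 1) * (y - 1)) {u : E → ℝ} (hu : ∀ e, 0 < u e) (t : ETree E)
    (ht : t.Nodup) (htu : t.edges = univ) {w : ℕ} (hw : ∀ S ∈ t.sets, lam ψ S ≤ w) {ε : ℝ} (hε : 0 < ε)
    (hε1 : ε ≤ 1) (N : ℕ) (hN : 8 * t.size * ((x - 1) * (y - 1)) ^ w * chi φ ψ x y u / ε ^ 2 ≤ N) :
    3 / 4 ≤ tgood φ ψ x y u t ε N := by
  classical
  have hx0 : 0 < x - 1 := by linarith
  have hv0 : 0 < y - 1 := by linarith
  have hq0 : 0 < (x - 1) * (y - 1) := by positivity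
  have hDT := tutte_zz φ x y
  have hchi := one_le_chi φ ψ hx hy hu
  have h1 : ∀ A : Finset E, 0 < wg ψ ((x - 1) * (y - 1)) u A := mg_wg ψ hq0 hu
  have h2 : ∀ A : Finset E, 0 < wg φ ((x - 1) * (y - 1)) (fun _ => y - 1) A :=
    mg_wg φ hq0 fun _ => hv0
  have hZ : 0 < ∑ A : Finset E, wg φ ((x - 1) * (y - 1)) (fun _ => y - 1) A :=
    sum_pos (fun A _ => h2 A) ⟨∅, mem_univ _⟩
  have hs1 : (1 : ℝ) ≤ t.size := by exact_mod_cast mg_size t
  have hN0 : 0 < N := by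
    have h3 : (0 : ℝ) < 8 * t.size * ((x - 1) * (y - 1)) ^ w * chi φ ψ x y u / ε ^ 2 := by
      positivity
    have h4 := lt_of_lt_of_le h3 hN
    exact_mod_cast h4
  have hosc : ∀ S ∈ t.sets, ∀ B A A' : Finset E, Disjoint B S → A ⊆ S → A' ⊆ S →
      FF ψ ((x - 1) * (y - 1)) S B A ≤ ((x - 1) * (y - 1)) ^ w * FF ψ ((x - 1) * (y - 1)) S B A' := by
    intro S hS B A A' hB hA hA'
    refine (FF_osc ψ hq hA hA' hB).trans ?_
    refine mul_le_mul_of_nonneg_right (pow_le_pow_right₀ hq (hw S hS)) ?_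
    unfold FF
    positivity
  have hsum1 : ∑ A : Finset E, wg ψ ((x - 1) * (y - 1)) u A *
      (wg φ ((x - 1) * (y - 1)) (fun _ => y - 1) A / wg ψ ((x - 1) * (y - 1)) u A) =
      ∑ A : Finset E, wg φ ((x - 1) * (y - 1)) (fun _ => y - 1) A :=
    sum_congr rfl fun A _ => mul_div_cancel₀ _ (h1 A).ne'
  have hsum2 : ∑ A : Finset E, wg ψ ((x - 1) * (y - 1)) u A *
      (wg φ ((x - 1) * (y - 1)) (fun _ => y - 1) A / wg ψ ((x - 1) * (y - 1)) u A) ^ 2 =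
      ∑ A : Finset E, wg φ ((x - 1) * (y - 1)) (fun _ => y - 1) A ^ 2 /
        wg ψ ((x - 1) * (y - 1)) u A := by
    refine sum_congr rfl fun A _ => ?_
    have := (h1 A).ne'
    field_simp
  have hzz : ∑ A : Finset E, wg φ ((x - 1) * (y - 1)) (fun _ => y - 1) A =
      (x - 1) ^ kk φ univ * (y - 1) ^ Fintype.card V * tutte φ x y := by
    rw [hDT]
    unfold zz wg
    exact sum_congr rfl fun A _ => mul_comm _ _
  have hK : ((1 + ((x - 1) * (y - 1)) ^ w / N) ^ t.size - 1) *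
      ((∑ A : Finset E, wg ψ ((x - 1) * (y - 1)) u A) * ∑ A : Finset E, wg ψ ((x - 1) * (y - 1)) u A *
        (wg φ ((x - 1) * (y - 1)) (fun _ => y - 1) A / wg ψ ((x - 1) * (y - 1)) u A) ^ 2) ≤
      (ε * ∑ A : Finset E, wg ψ ((x - 1) * (y - 1)) u A *
        (wg φ ((x - 1) * (y - 1)) (fun _ => y - 1) A / wg ψ ((x - 1) * (y - 1)) u A)) ^ 2 / 4 := by
    rw [hsum1, hsum2]
    have h3 : (∑ A : Finset E, wg ψ ((x - 1) * (y - 1)) u A) *
        (∑ A : Finset E, wg φ ((x - 1) * (y - 1)) (fun _ => y - 1) A ^ 2 /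
          wg ψ ((x - 1) * (y - 1)) u A) =
        chi φ ψ x y u * (∑ A : Finset E, wg φ ((x - 1) * (y - 1)) (fun _ => y - 1) A) ^ 2 := by
      unfold chi
      rw [div_mul_cancel₀ _ (pow_pos hZ 2).ne']
    rw [h3, ← mul_assoc]
    have h4 := mul_le_mul_of_nonneg_right (mg_num hN0 hε hε1 (pow_pos hq0 w) hchi hN)
      (sq_nonneg (∑ A : Finset E, wg φ ((x - 1) * (y - 1)) (fun _ => y - 1) A))
    refine h4.trans (le_of_eq ?_)
    ring
  have hcheb := trun_cheb ψ hq0 hu hN0 (((x - 1) * (y - 1)) ^ w) (pow_pos hq0 w).le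
    (fun A => wg φ ((x - 1) * (y - 1)) (fun _ => y - 1) A / wg ψ ((x - 1) * (y - 1)) u A)
    (fun A => div_pos (h2 A) (h1 A)) t ht htu hosc ε hε hK
  refine hcheb.trans ?_
  unfold tgood
  refine trun_mono ψ hq0 hu hN0 t _ _ fun P m _ _ => ?_
  have hD : 0 < (x - 1) ^ kk φ univ * (y - 1) ^ Fintype.card V := by positivity
  rw [hsum1, hzz]
  have hval : tval φ ψ x y u P m = (m / N * ∑ i, wg φ ((x - 1) * (y - 1)) (fun _ => y - 1) (P i) /
      wg ψ ((x - 1) * (y - 1)) u (P i)) / ((x - 1) ^ kk φ univ * (y - 1) ^ Fintype.card V) := rfl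
  rw [hval]
  set D := (x - 1) ^ kk φ univ * (y - 1) ^ Fintype.card V with hDdef
  set Y := m / N * ∑ i, wg φ ((x - 1) * (y - 1)) (fun _ => y - 1) (P i) /
      wg ψ ((x - 1) * (y - 1)) u (P i) with hY
  by_cases hm : |Y - D * tutte φ x y| ≤ ε * (D * tutte φ x y)
  · rw [if_pos hm, if_pos]
    have e1 : Y / D - tutte φ x y = (Y - D * tutte φ x y) / D := by
      field_simp
    rw [e1, abs_div, abs_of_pos hD, div_le_iff₀ hD]
    linarith
  · rw [if_neg hm]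
    split_ifs
    · exact zero_le_one
    · exact le_refl _

end Pool.Agent.Work.MP_63853a_lc.Tr
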