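import Pool.Agent.Work.MP_63853a_lc.Tr.G.Defs
import Pool.Agent.Work.MP_63853a_lc.Tr.Har
import Pool.Agent.Work.MP_63853a_lc.Tr.Sub
import Pool.Agent.Work.MP_63853a_lc.Moment

set_option autoImplicit false

/-!
# StrM (size M-L): the moment bound for strong classes

Let `I = univ.filter (fun e => c (φ e).1 = c (φ e).2)`, `m = (Set.range c).ncard`, `n = card V`. (1) Moment for the graph with the
edges in `I`: let `E' = {e // e ∈ I}`, `φ' e = φ e.1`; `Classes φ' κ m` holds (`f` = `c` followed by a bijection of its range with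
`Fin m`; `cut φ' S` is the number in `Strong`), so by `moment` (`Moment.lean`) with `T = - log (1 - p)` (so
`1 - exp (-T) = p`), `Q ≥ 1`: `∑ B : Finset E', wt p B * Q ^ (kk φ' B - m) ≤ (1 + (Q - 1) * (1 - p) ^ (κ / 2)) ^ (n - m)` (integers in the
exponents, `m ≤ n`; `exp (-(κ T / 2)) = (1 - p) ^ (κ/2)` as real power). (2) Marginals: for a function `H` of `A ∩ I`,
`∑ A, wt p A * H (A ∩ I) = ∑ B : Finset E', wt p B * H (B.map ..)`: split `A` into `A ∩ I` and `A \ I`
(`wt p A = wt p (A ∩ I) * wt p (A \ I)` with the two cardinalities), `wt_sum`; `kk φ (B.map ..) = kk φ' B` (same relation).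
-/

namespace Pool.Agent.Work.MP_63853a_lc.Tr

open Finset Pool.Agent.Work.MP_63853a_lc

variable {V E : Type} [Fintype V] [Fintype E]

open Classical in
private theorem kk_filter (φ : E → V × V) (c : V → V) (A : Finset E) :
    kk (fun e => if c (φ e).1 = c (φ e).2 then φ e else ((φ e).1, (φ e).1)) A =
      kk φ (A.filter fun e => c (φ e).1 = c (φ e).2) := by
  unfold kk
  refine Nat.card_congr
    { toFun := Quot.lift (fun u => Quot.mk _ u) ?_
      invFun := Quot.lift (fun u => Quot.mk _ u) ?_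
      left_inv := ?_
      right_inv := ?_ }
  · rintro u v ⟨e, he, h⟩
    change (if c (φ e).1 = c (φ e).2 then φ e else ((φ e).1, (φ e).1)) = (u, v) at h
    by_cases hc : c (φ e).1 = c (φ e).2
    · rw [if_pos hc] at h
      exact Quot.sound ⟨e, mem_filter.2 ⟨he, hc⟩, h⟩
    · rw [if_neg hc] at h
      have h1 : u = v := by
        have h2 := congrArg Prod.fst h
        have h3 := congrArg Prod.snd h
        simp only at h2 h3
        exact h2.symm.trans h3
      rw [h1]
  · rintro u v ⟨e, he, h⟩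
    rw [mem_filter] at he
    refine Quot.sound ⟨e, he.1, ?_⟩
    change (if c (φ e).1 = c (φ e).2 then φ e else ((φ e).1, (φ e).1)) = (u, v)
    rw [if_pos he.2]
    exact h
  · rintro ⟨u⟩
    rfl
  · rintro ⟨u⟩
    rfl

open Classical in
theorem str_moment (φ : E → V × V) (c : V → V) {κ p Q : ℝ} (hκ : 0 ≤ κ) (hp0 : 0 < p) (hp1 : p < 1) (hQ : 1 ≤ Q)
    (h : Strong φ c κ) :
    ∑ A : Finset E, wt p A * Q ^ kk φ (A.filter fun e => c (φ e).1 = c (φ e).2) ≤
      Q ^ (Set.range c).ncard * (1 + (Q - 1) * (1 - p) ^ (κ / 2)) ^ Fintype.card V := by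
  have h1p : 0 < 1 - p := by linarith
  have hQ0 : 0 < Q := by linarith
  have hcl : Classes (fun e => if c (φ e).1 = c (φ e).2 then φ e else ((φ e).1, (φ e).1)) κ (Set.range c).ncard := by
    have g : Set.range c ≃ Fin (Set.range c).ncard := Finite.equivFinOfCardEq (Nat.card_coe_set_eq _)
    refine ⟨fun v => g ⟨c v, Set.mem_range_self v⟩, ?_⟩
    rintro S ⟨u, hu, v, hv, huv⟩
    have h2 : c u = c v := by
      have h3 := g.injective huv
      exact congrArg Subtype.val h3
    have h4 := h S ⟨u, hu, v, hv, h2⟩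
    refine h4.trans (le_of_eq ?_)
    unfold cut
    congr 2
    ext e
    simp only [Set.mem_ofPred_eq]
    by_cases hc : c (φ e).1 = c (φ e).2
    · rw [if_pos hc]
      simp only [hc, true_and]
    · rw [if_neg hc]
      simp only [hc, false_and, iff_self, not_true_eq_false]
  have hT : 0 ≤ -Real.log (1 - p) := by
    have := Real.log_nonpos h1p.le (by linarith)
    linarith
  have hm := moment _ hκ hQ hT hcl
  have he : 1 - Real.exp (-(-Real.log (1 - p))) = p := by
    rw [neg_neg, Real.exp_log h1p]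
    ring
  have he2 : Real.exp (-(κ * (-Real.log (1 - p)) / 2)) = (1 - p) ^ (κ / 2) := by
    rw [Real.rpow_def_of_pos h1p]
    congr 1
    ring
  rw [he, he2] at hm
  have hb : 1 ≤ 1 + (Q - 1) * (1 - p) ^ (κ / 2) := by
    have h5 : 0 ≤ (Q - 1) * (1 - p) ^ (κ / 2) := mul_nonneg (by linarith) (Real.rpow_nonneg h1p.le _)
    linarith
  have hm2 : (1 + (Q - 1) * (1 - p) ^ (κ / 2)) ^ ((Fintype.card V : ℤ) - ((Set.range c).ncard : ℤ)) ≤
      (1 + (Q - 1) * (1 - p) ^ (κ / 2)) ^ Fintype.card V := by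
    rw [← zpow_natCast]
    refine zpow_le_zpow_right₀ hb ?_
    have : (0 : ℤ) ≤ ((Set.range c).ncard : ℤ) := Int.natCast_nonneg _
    linarith
  have e3 : ∑ A : Finset E, wt p A * Q ^ kk φ (A.filter fun e => c (φ e).1 = c (φ e).2) =
      Q ^ (Set.range c).ncard * ∑ A : Finset E, wt p A *
        Q ^ ((kk (fun e => if c (φ e).1 = c (φ e).2 then φ e else ((φ e).1, (φ e).1)) A : ℤ) -
          ((Set.range c).ncard : ℤ)) := by
    rw [mul_sum]
    refine sum_congr rfl fun A _ => ?_
    rw [kk_filter, zpow_sub₀ hQ0.ne', zpow_natCast, zpow_natCast]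
    have : Q ^ (Set.range c).ncard ≠ 0 := (pow_pos hQ0 _).ne'
    field_simp
  rw [e3]
  exact mul_le_mul_of_nonneg_left (hm.trans hm2) (pow_pos hQ0 _).le

end Pool.Agent.Work.MP_63853a_lc.Tr
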