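import Pool.Agent.Work.MP_63853a_lc.Tr.G.Defs

set_option autoImplicit false

/-!
# TPhi (size S-M): identities for the weights

As in `Tr/Phi.lean` (proved), with edge weights and the factor `F (A ∪ B)`. `PF_union`: the bijection
`(A, A') ↦ A ∪ A'`, `∏` over a disjoint union (`Finset.prod_union`). `GF_join`, `GF_swap`: rewrite the unions, the power in the
denominator of `GF (S₁ ∪ S₂)` cancels. `GF_join'` is the mirror of `GF_join`.
-/

namespace Pool.Agent.Work.MP_63853a_lc.Tr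

open Finset Pool.Agent.Work.MP_63853a_lc

variable {V E : Type} [Fintype E]

open Classical in
theorem PF_union (ψ : E → V × V) (q : ℝ) (u : E → ℝ) {S₁ S₂ : Finset E} (h : Disjoint S₁ S₂) (B : Finset E)
    (F : Finset E → ℝ) :
    ∑ A ∈ S₁.powerset, (∏ e ∈ A, u e) * PF ψ q u S₂ (B ∪ A) F = PF ψ q u (S₁ ∪ S₂) B F := by
  unfold PF
  have h1 : ∀ A ∈ S₁.powerset, (∏ e ∈ A, u e) * ∑ A' ∈ S₂.powerset,
        (∏ e ∈ A', u e) * (q ^ kk ψ (A' ∪ (B ∪ A)) * F (A' ∪ (B ∪ A))) =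
      ∑ A' ∈ S₂.powerset, (∏ e ∈ A, u e) *
        ((∏ e ∈ A', u e) * (q ^ kk ψ (A' ∪ (B ∪ A)) * F (A' ∪ (B ∪ A)))) := fun A _ => Finset.mul_sum _ _ _
  rw [Finset.sum_congr rfl h1, ← Finset.sum_product']
  refine Finset.sum_bij' (fun x _ => x.1 ∪ x.2) (fun C _ => (C ∩ S₁, C ∩ S₂)) ?_ ?_ ?_ ?_ ?_
  · rintro ⟨A, A'⟩ hx
    simp only [Finset.mem_product, Finset.mem_powerset] at hx
    exact Finset.mem_powerset.2 (Finset.union_subset_union hx.1 hx.2)
  · intro C _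
    simp only [Finset.mem_product, Finset.mem_powerset]
    exact ⟨Finset.inter_subset_right, Finset.inter_subset_right⟩
  · rintro ⟨A, A'⟩ hx
    simp only [Finset.mem_product, Finset.mem_powerset] at hx
    have h2 : A' ∩ S₁ = ∅ := by
      rw [← Finset.disjoint_iff_inter_eq_empty]
      exact Finset.disjoint_of_subset_left hx.2 h.symm
    have h3 : A ∩ S₂ = ∅ := by
      rw [← Finset.disjoint_iff_inter_eq_empty]
      exact Finset.disjoint_of_subset_left hx.1 h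
    simp only [Finset.union_inter_distrib_right, h2, h3, Finset.inter_eq_left.2 hx.1, Finset.inter_eq_left.2 hx.2,
      Finset.union_empty, Finset.empty_union]
  · intro C hC
    rw [← Finset.inter_union_distrib_left]
    exact Finset.inter_eq_left.2 (Finset.mem_powerset.1 hC)
  · rintro ⟨A, A'⟩ hx
    simp only [Finset.mem_product, Finset.mem_powerset] at hx
    have h4 : Disjoint A A' := Finset.disjoint_of_subset_left hx.1 (Finset.disjoint_of_subset_right hx.2 h)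
    have h5 : A' ∪ (B ∪ A) = A ∪ A' ∪ B := by
      ext e
      simp only [Finset.mem_union]
      tauto
    simp only [h5]
    rw [Finset.prod_union h4]
    ring

open Classical in
theorem GF_join' (ψ : E → V × V) {q : ℝ} (hq : 0 < q) (S₁ S₂ B : Finset E) (F : Finset E → ℝ) (A₁ A₂ : Finset E) :
    q ^ kk ψ (A₁ ∪ A₂ ∪ (univ \ (S₁ ∪ S₂))) /
        (q ^ kk ψ (A₁ ∪ (univ \ S₁)) * q ^ kk ψ (A₂ ∪ (univ \ S₂))) * GF ψ q (S₁ ∪ S₂) B F (A₁ ∪ A₂) =
      (1 / q ^ kk ψ (A₁ ∪ (univ \ S₁))) * GF ψ q S₂ (B ∪ A₁) F A₂ := by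
  unfold GF
  have h1 : A₁ ∪ A₂ ∪ B = A₂ ∪ (B ∪ A₁) := by
    ext e
    simp only [Finset.mem_union]
    tauto
  rw [h1]
  have h2 : q ^ kk ψ (A₁ ∪ A₂ ∪ (univ \ (S₁ ∪ S₂))) ≠ 0 := (pow_pos hq _).ne'
  have h3 : q ^ kk ψ (A₁ ∪ (univ \ S₁)) ≠ 0 := (pow_pos hq _).ne'
  have h4 : q ^ kk ψ (A₂ ∪ (univ \ S₂)) ≠ 0 := (pow_pos hq _).ne'
  field_simp

open Classical in
theorem GF_swap (ψ : E → V × V) (q : ℝ) (u : E → ℝ) (S₁ S₂ B : Finset E) (F : Finset E → ℝ) (A₂ : Finset E) :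
    (1 / q ^ kk ψ (A₂ ∪ (univ \ S₂))) * PF ψ q u S₁ (B ∪ A₂) F =
      ∑ A₁ ∈ S₁.powerset, (∏ e ∈ A₁, u e) * GF ψ q S₂ (B ∪ A₁) F A₂ := by
  unfold GF PF
  rw [Finset.mul_sum]
  refine Finset.sum_congr rfl fun A₁ _ => ?_
  have h1 : A₁ ∪ (B ∪ A₂) = A₂ ∪ (B ∪ A₁) := by
    ext e
    simp only [Finset.mem_union]
    tauto
  rw [h1]
  ring

theorem GF_one (ψ : E → V × V) (q : ℝ) (S B A : Finset E) : GF ψ q S B (fun _ => 1) A = FF ψ q S B A := by
  unfold GF FF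
  rw [mul_one]

theorem GF_nonneg (ψ : E → V × V) {q : ℝ} (hq : 0 < q) (S B : Finset E) (F : Finset E → ℝ) (hF : ∀ A, 0 ≤ F A)
    (A : Finset E) : 0 ≤ GF ψ q S B F A := by
  unfold GF
  exact mul_nonneg (div_nonneg (pow_pos hq _).le (pow_pos hq _).le) (hF _)

theorem PF_nonneg (ψ : E → V × V) {q : ℝ} (hq : 0 < q) {u : E → ℝ} (hu : ∀ e, 0 < u e) (S B : Finset E)
    (F : Finset E → ℝ) (hF : ∀ A, 0 ≤ F A) : 0 ≤ PF ψ q u S B F := by
  unfold PF
  exact Finset.sum_nonneg fun A _ => mul_nonneg (Finset.prod_nonneg fun e _ => (hu e).le)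
    (mul_nonneg (pow_pos hq _).le (hF _))

theorem PF_nil (ψ : E → V × V) (q : ℝ) (u : E → ℝ) (B : Finset E) (F : Finset E → ℝ) :
    PF ψ q u ∅ B F = q ^ kk ψ B * F B := by
  classical
  unfold PF
  rw [Finset.powerset_empty, Finset.sum_singleton, Finset.prod_empty, one_mul]
  congr 2
  · congr 1
    exact Finset.empty_union B
  · exact Finset.empty_union B

open Classical in
theorem PF_leaf (ψ : E → V × V) (q : ℝ) (u : E → ℝ) (e : E) (B : Finset E) (F : Finset E → ℝ) :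
    PF ψ q u {e} B F = q ^ kk ψ B * F B + u e * (q ^ kk ψ ({e} ∪ B) * F ({e} ∪ B)) := by
  unfold PF
  have h1 : ({e} : Finset E).powerset = {∅, {e}} := by
    ext A
    simp only [Finset.mem_powerset, Finset.subset_singleton_iff, Finset.mem_insert, Finset.mem_singleton]
  rw [h1, Finset.sum_pair (Finset.singleton_ne_empty e).symm, Finset.prod_empty, one_mul, Finset.empty_union,
    Finset.prod_singleton]

end Pool.Agent.Work.MP_63853a_lc.Tr
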