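import Pool.Agent.Work.MP_63853a_lc.Tr.G.Defs

set_option autoImplicit false

/-!
# TRun (size S-M): `trun` is a positive normalised linear functional

Copy of `Tr/Run.lean` (proved) with the edge weights `u` in place of the constant `v` (`0 < u e` for all `e`).
-/

namespace Pool.Agent.Work.MP_63853a_lc.Tr

open Finset Pool.Agent.Work.MP_63853a_lc

variable {V E : Type} [Fintype E]

private theorem draw_mono' {ι : Type} [Fintype ι] (N : ℕ) (a : ι → Finset E) (w : ι → ℝ) (hw : ∀ j, 0 ≤ w j)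
    (f g : (Fin N → Finset E) → ℝ → ℝ)
    (h : ∀ s : Fin N → ι, f (fun i => a (s i)) (∑ j, w j) ≤ g (fun i => a (s i)) (∑ j, w j)) :
    draw N a w f ≤ draw N a w g := by
  unfold draw
  refine Finset.sum_le_sum fun s _ => mul_le_mul_of_nonneg_left (h s) ?_
  exact Finset.prod_nonneg fun i _ => div_nonneg (hw _) (Finset.sum_nonneg fun j _ => hw j)

open Classical in
private theorem mass {Ω : Type} [Fintype Ω] (W : Ω → ℝ) (h1 : ∑ o, W o = 1) (N : ℕ) :
    ∑ ω : Fin N → Ω, ∏ i, W (ω i) = 1 := by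
  have h := Finset.prod_univ_sum (fun _ : Fin N => (Finset.univ : Finset Ω)) (fun _ o => W o)
  rw [Fintype.piFinset_univ] at h
  rw [← h]
  exact Finset.prod_eq_one fun i _ => h1

private theorem draw_one' {ι : Type} [Fintype ι] (N : ℕ) (a : ι → Finset E) (w : ι → ℝ) (hW : 0 < ∑ j, w j) :
    draw N a w (fun _ _ => 1) = 1 := by
  unfold draw
  simp only [mul_one]
  exact mass (fun j => w j / ∑ k, w k) (by rw [← Finset.sum_div, div_self hW.ne']) N

open Classical in
private theorem wpos (ψ : E → V × V) {q : ℝ} (hq : 0 < q) {N : ℕ} (hN : 0 < N) (S₁ S₂ : Finset E)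
    (P R : Fin N → Finset E) {a b : ℝ} (ha : 0 < a) (hb : 0 < b) (i : Fin N × Fin N) :
    0 < a * b / N ^ 2 * (q ^ kk ψ (P i.1 ∪ R i.2 ∪ (univ \ (S₁ ∪ S₂))) /
        (q ^ kk ψ (P i.1 ∪ (univ \ S₁)) * q ^ kk ψ (R i.2 ∪ (univ \ S₂)))) := by
  have hNr : (0 : ℝ) < N := Nat.cast_pos.2 hN
  positivity

theorem trun_mono (ψ : E → V × V) {q : ℝ} (hq : 0 < q) {u : E → ℝ} (hu : ∀ e, 0 < u e) {N : ℕ} (hN : 0 < N) (t : ETree E)
    (f g : (Fin N → Finset E) → ℝ → ℝ)
    (h : ∀ P a, (∀ i, P i ⊆ t.edges) → 0 < a → f P a ≤ g P a) : trun ψ q u N t f ≤ trun ψ q u N t g := by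
  classical
  have hne : Nonempty (Fin N × Fin N) := ⟨(⟨0, hN⟩, ⟨0, hN⟩)⟩
  induction t generalizing f g with
  | nil =>
    simp only [trun]
    exact h _ _ (fun i => by simp [ETree.edges]) (pow_pos hq _)
  | leaf e =>
    simp only [trun]
    have hw : ∀ b : Bool, 0 < (if b then u e * q ^ kk ψ univ else q ^ kk ψ (univ \ {e}) : ℝ) := by
      intro b
      cases b
      · simpa using pow_pos hq (kk ψ (univ \ {e}))
      · simpa using mul_pos (hu e) (pow_pos hq (kk ψ univ))
    refine draw_mono' N _ _ (fun b => (hw b).le) f g fun s => h _ _ (fun i => ?_)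
      (Finset.sum_pos (fun b _ => hw b) Finset.univ_nonempty)
    simp only [ETree.edges]
    split_ifs <;> simp
  | node l r ihl ihr =>
    simp only [trun]
    refine ihl _ _ fun P a hP ha => ihr _ _ fun R b hR hb => ?_
    refine draw_mono' N _ _ (fun i => (wpos ψ hq hN _ _ P R ha hb i).le) f g fun s => h _ _ (fun i => ?_)
      (Finset.sum_pos (fun i _ => wpos ψ hq hN _ _ P R ha hb i) Finset.univ_nonempty)
    simp only [ETree.edges]
    exact Finset.union_subset_union (hP _) (hR _)

theorem trun_congr (ψ : E → V × V) {q : ℝ} (hq : 0 < q) {u : E → ℝ} (hu : ∀ e, 0 < u e) {N : ℕ} (hN : 0 < N) (t : ETree E)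
    (f g : (Fin N → Finset E) → ℝ → ℝ)
    (h : ∀ P a, (∀ i, P i ⊆ t.edges) → 0 < a → f P a = g P a) : trun ψ q u N t f = trun ψ q u N t g := by
  exact le_antisymm (trun_mono ψ hq hu hN t f g fun P a hP ha => (h P a hP ha).le)
    (trun_mono ψ hq hu hN t g f fun P a hP ha => (h P a hP ha).ge)

theorem trun_one (ψ : E → V × V) {q : ℝ} (hq : 0 < q) {u : E → ℝ} (hu : ∀ e, 0 < u e) {N : ℕ} (hN : 0 < N) (t : ETree E) :
    trun ψ q u N t (fun _ _ => 1) = 1 := by
  classical
  have hne : Nonempty (Fin N × Fin N) := ⟨(⟨0, hN⟩, ⟨0, hN⟩)⟩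
  induction t with
  | nil => simp only [trun]
  | leaf e =>
    simp only [trun]
    have hw : ∀ b : Bool, 0 < (if b then u e * q ^ kk ψ univ else q ^ kk ψ (univ \ {e}) : ℝ) := by
      intro b
      cases b
      · simpa using pow_pos hq (kk ψ (univ \ {e}))
      · simpa using mul_pos (hu e) (pow_pos hq (kk ψ univ))
    exact draw_one' N _ _ (Finset.sum_pos (fun (b : Bool) _ => hw b) Finset.univ_nonempty)
  | node l r ihl ihr =>
    simp only [trun]
    refine (trun_congr ψ hq hu hN l _ (fun _ _ => 1) fun P a hP ha => ?_).trans ihl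
    refine (trun_congr ψ hq hu hN r _ (fun _ _ => 1) fun R b hR hb => ?_).trans ihr
    exact draw_one' N _ _ (Finset.sum_pos (fun (i : Fin N × Fin N) _ => wpos ψ hq hN _ _ P R ha hb i) Finset.univ_nonempty)

private theorem draw_add' {ι : Type} [Fintype ι] (N : ℕ) (a : ι → Finset E) (w : ι → ℝ)
    (f g : (Fin N → Finset E) → ℝ → ℝ) :
    draw N a w (fun P m => f P m + g P m) = draw N a w f + draw N a w g := by
  unfold draw
  rw [← Finset.sum_add_distrib]
  exact Finset.sum_congr rfl fun s _ => mul_add _ _ _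

private theorem draw_mul' {ι : Type} [Fintype ι] (N : ℕ) (a : ι → Finset E) (w : ι → ℝ) (c : ℝ)
    (f : (Fin N → Finset E) → ℝ → ℝ) :
    draw N a w (fun P m => c * f P m) = c * draw N a w f := by
  unfold draw
  rw [Finset.mul_sum]
  exact Finset.sum_congr rfl fun s _ => by ring

theorem trun_add (ψ : E → V × V) (q : ℝ) (u : E → ℝ) (N : ℕ) (t : ETree E) (f g : (Fin N → Finset E) → ℝ → ℝ) :
    trun ψ q u N t (fun P a => f P a + g P a) = trun ψ q u N t f + trun ψ q u N t g := by
  induction t generalizing f g with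
  | nil => simp only [trun]
  | leaf e =>
    simp only [trun]
    exact draw_add' N _ _ f g
  | node l r ihl ihr =>
    simp only [trun]
    rw [← ihl]
    congr 1
    funext P a
    rw [← ihr]
    congr 1
    funext R b
    exact draw_add' N _ _ f g

theorem trun_mul (ψ : E → V × V) (q : ℝ) (u : E → ℝ) (N : ℕ) (t : ETree E) (c : ℝ) (f : (Fin N → Finset E) → ℝ → ℝ) :
    trun ψ q u N t (fun P a => c * f P a) = c * trun ψ q u N t f := by
  induction t generalizing f with
  | nil => simp only [trun]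
  | leaf e =>
    simp only [trun]
    exact draw_mul' N _ _ c f
  | node l r ihl ihr =>
    simp only [trun]
    rw [← ihl]
    congr 1
    funext P a
    rw [← ihr]
    congr 1
    funext R b
    exact draw_mul' N _ _ c f

theorem trun_sum (ψ : E → V × V) (q : ℝ) (u : E → ℝ) (N : ℕ) (t : ETree E) {κ : Type} (s : Finset κ)
    (f : κ → (Fin N → Finset E) → ℝ → ℝ) :
    trun ψ q u N t (fun P a => ∑ k ∈ s, f k P a) = ∑ k ∈ s, trun ψ q u N t (f k) := by
  classical
  induction s using Finset.induction_on with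
  | empty =>
    simp only [Finset.sum_empty]
    have := trun_mul ψ q u N t 0 (fun _ _ => 0)
    simpa using this
  | insert k s hk ih =>
    simp only [Finset.sum_insert hk]
    rw [← ih]
    exact trun_add ψ q u N t (f k) (fun P a => ∑ k ∈ s, f k P a)

end Pool.Agent.Work.MP_63853a_lc.Tr
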