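import Pool.Agent.Work.MP_63853a_lc.Tr.Draw
import Pool.Agent.Work.MP_63853a_lc.Tr.G.TRun
import Pool.Agent.Work.MP_63853a_lc.Tr.G.TPhi

set_option autoImplicit false

/-!
# TOne (size M): mixed second moment of an arbitrary function and a test function

Copy of `Tr/Snd.lean` (proved) with `F` on the first factor and `1` on the second: in `draw_snd` the function which oscillates by
at most the factor `Q` is the one of the second factor (`GF .. (fun _ => 1) = FF ..`, `GF_one`), so use `draw_snd` with the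
factors exchanged (`mul_comm`). Induction on `t`, generalizing `B`, `B'`.
-/

namespace Pool.Agent.Work.MP_63853a_lc.Tr

open Finset Pool.Agent.Work.MP_63853a_lc

variable {V E : Type} [Fintype E]

open Classical in
private theorem nodeXG (ψ : E → V × V) {q : ℝ} (hq : 0 < q) {N : ℕ} (F : Finset E → ℝ) (S₁ S₂ B : Finset E)
    (P R : Fin N → Finset E) (a b : ℝ) :
    ∑ i : Fin N × Fin N, a * b / N ^ 2 * (q ^ kk ψ (P i.1 ∪ R i.2 ∪ (univ \ (S₁ ∪ S₂))) /
        (q ^ kk ψ (P i.1 ∪ (univ \ S₁)) * q ^ kk ψ (R i.2 ∪ (univ \ S₂)))) *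
          GF ψ q (S₁ ∪ S₂) B F (P i.1 ∪ R i.2) =
      ∑ i, (a / N * (1 / q ^ kk ψ (P i ∪ (univ \ S₁)))) * (b / N * ∑ j, GF ψ q S₂ (B ∪ P i) F (R j)) := by
  rw [Fintype.sum_prod_type]
  refine Finset.sum_congr rfl fun i _ => ?_
  rw [Finset.mul_sum, Finset.mul_sum]
  refine Finset.sum_congr rfl fun j _ => ?_
  rw [mul_assoc, GF_join' ψ hq]
  ring

open Classical in
private theorem swapXG (ψ : E → V × V) (q : ℝ) (u : E → ℝ) {N : ℕ} (F : Finset E → ℝ) (S₁ S₂ B : Finset E)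
    (P : Fin N → Finset E) (a : ℝ) :
    ∑ i, (a / N * (1 / q ^ kk ψ (P i ∪ (univ \ S₁)))) * PF ψ q u S₂ (B ∪ P i) F =
      ∑ A ∈ S₂.powerset, (∏ e ∈ A, u e) * (a / N * ∑ i, GF ψ q S₁ (B ∪ A) F (P i)) := by
  have h : ∀ i, (a / N * (1 / q ^ kk ψ (P i ∪ (univ \ S₁)))) * PF ψ q u S₂ (B ∪ P i) F =
      ∑ A ∈ S₂.powerset, a / N * ((∏ e ∈ A, u e) * GF ψ q S₁ (B ∪ A) F (P i)) := by
    intro i
    rw [mul_assoc, GF_swap ψ q u S₂ S₁ B F (P i), Finset.mul_sum]
  rw [Finset.sum_congr rfl fun i _ => h i, Finset.sum_comm]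
  refine Finset.sum_congr rfl fun A _ => ?_
  rw [← Finset.mul_sum, ← Finset.mul_sum]
  ring

private theorem bilG (ψ : E → V × V) (q : ℝ) (u : E → ℝ) (N : ℕ) (t : ETree E) {κ₁ κ₂ : Type} (s₁ : Finset κ₁)
    (s₂ : Finset κ₂) (c : κ₁ → ℝ) (d : κ₂ → ℝ) (X : κ₁ → (Fin N → Finset E) → ℝ → ℝ)
    (Y : κ₂ → (Fin N → Finset E) → ℝ → ℝ)
    (x : κ₁ → ℝ) (y : κ₂ → ℝ) (K : ℝ) (hc : ∀ i ∈ s₁, 0 ≤ c i) (hd : ∀ j ∈ s₂, 0 ≤ d j)
    (h : ∀ i ∈ s₁, ∀ j ∈ s₂, trun ψ q u N t (fun P a => X i P a * Y j P a) ≤ K * (x i * y j)) :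
    trun ψ q u N t (fun P a => (∑ i ∈ s₁, c i * X i P a) * ∑ j ∈ s₂, d j * Y j P a) ≤
      K * ((∑ i ∈ s₁, c i * x i) * ∑ j ∈ s₂, d j * y j) := by
  have e1 : (fun (P : Fin N → Finset E) (a : ℝ) => (∑ i ∈ s₁, c i * X i P a) * ∑ j ∈ s₂, d j * Y j P a) =
      fun P a => ∑ i ∈ s₁, ∑ j ∈ s₂, c i * d j * (X i P a * Y j P a) := by
    funext P a
    rw [Finset.sum_mul_sum]
    refine Finset.sum_congr rfl fun i _ => Finset.sum_congr rfl fun j _ => ?_
    ring
  rw [e1, trun_sum, Finset.sum_mul_sum, Finset.mul_sum]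
  refine Finset.sum_le_sum fun i hi => ?_
  rw [trun_sum, Finset.mul_sum]
  refine Finset.sum_le_sum fun j hj => ?_
  rw [trun_mul]
  calc c i * d j * trun ψ q u N t (fun P a => X i P a * Y j P a) ≤ c i * d j * (K * (x i * y j)) :=
        mul_le_mul_of_nonneg_left (h i hi j hj) (mul_nonneg (hc i hi) (hd j hj))
    _ = K * (c i * x i * (d j * y j)) := by ring

/-- `draw_snd` with the factors exchanged -/
private theorem drawG {ι : Type} [Fintype ι] (N : ℕ) (hN : 0 < N) (a : ι → Finset E) (w : ι → ℝ) (hw : ∀ j, 0 ≤ w j)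
    (hW : 0 < ∑ j, w j) (F G : Finset E → ℝ) (hF : ∀ j, 0 ≤ F (a j)) (hG : ∀ j, 0 ≤ G (a j)) (Q : ℝ) (hQ : 0 ≤ Q)
    (hosc : ∀ i j, G (a i) ≤ Q * G (a j)) :
    draw N a w (fun P m => (m / N * ∑ i, F (P i)) * (m / N * ∑ i, G (P i))) ≤
      (1 + Q / N) * ((∑ i, w i * F (a i)) * ∑ i, w i * G (a i)) := by
  have h := draw_snd (E := E) N hN a w hw hW G F hG hF Q hQ hosc
  rw [mul_comm (∑ i, w i * F (a i))]
  refine le_trans (le_of_eq ?_) h
  congr 1
  funext P m
  exact mul_comm _ _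

theorem trun_one_snd (ψ : E → V × V) {q : ℝ} (hq : 0 < q) {u : E → ℝ} (hu : ∀ e, 0 < u e) {N : ℕ} (hN : 0 < N)
    (Q : ℝ) (hQ : 0 ≤ Q) (F : Finset E → ℝ) (hF : ∀ A, 0 ≤ F A) (t : ETree E) (ht : t.Nodup)
    (hosc : ∀ S ∈ t.sets, ∀ B A A' : Finset E, Disjoint B S → A ⊆ S → A' ⊆ S → FF ψ q S B A ≤ Q * FF ψ q S B A')
    (B B' : Finset E) (hB : Disjoint B t.edges) (hB' : Disjoint B' t.edges) :
    trun ψ q u N t (fun P a =>
        (a / N * ∑ i, GF ψ q t.edges B F (P i)) * (a / N * ∑ i, GF ψ q t.edges B' (fun _ => 1) (P i))) ≤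
      (1 + Q / N) ^ t.size * (PF ψ q u t.edges B F * PF ψ q u t.edges B' (fun _ => 1)) := by
  classical
  have hNr : (0 : ℝ) < N := Nat.cast_pos.2 hN
  have hK : 0 ≤ 1 + Q / N := by positivity
  have h1F : ∀ A : Finset E, 0 ≤ (fun _ : Finset E => (1 : ℝ)) A := fun _ => zero_le_one
  induction t generalizing B B' with
  | nil =>
    simp only [trun, ETree.edges, ETree.size]
    have h0 : ∀ (F' : Finset E → ℝ) (C : Finset E),
        q ^ kk ψ univ / (N : ℝ) * ∑ i : Fin N, GF ψ q ∅ C F' ∅ = PF ψ q u ∅ C F' := by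
      intro F' C
      rw [Finset.sum_const, Finset.card_univ, Fintype.card_fin, nsmul_eq_mul, PF_nil]
      simp only [GF, Finset.empty_union, Finset.sdiff_empty]
      have : q ^ kk ψ univ ≠ 0 := (pow_pos hq _).ne'
      field_simp
    rw [h0, h0, pow_one]
    have h1 := PF_nonneg ψ hq hu (∅ : Finset E) B F hF
    have h2 := PF_nonneg ψ hq hu (∅ : Finset E) B' (fun _ => 1) h1F
    have h3 : 0 ≤ Q / N := by positivity
    have h4 := mul_nonneg h3 (mul_nonneg h1 h2)
    linarith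
  | leaf e =>
    simp only [trun, ETree.edges, ETree.size]
    have h1 : 0 < q ^ kk ψ univ := pow_pos hq _
    have h2 : 0 < q ^ kk ψ (univ \ {e}) := pow_pos hq _
    have hw : ∀ b : Bool, 0 < (if b then u e * q ^ kk ψ univ else q ^ kk ψ (univ \ {e}) : ℝ) := by
      intro b
      cases b
      · simpa using h2
      · simpa using mul_pos (hu e) h1
    have hsub : ∀ b : Bool, (if b then {e} else ∅ : Finset E) ⊆ {e} := by
      intro b
      cases b <;> simp
    have hphi : ∀ (F' : Finset E → ℝ) (C : Finset E),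
        ∑ b : Bool, (if b then u e * q ^ kk ψ univ else q ^ kk ψ (univ \ {e}) : ℝ) *
        GF ψ q {e} C F' (if b then {e} else ∅) = PF ψ q u {e} C F' := by
      intro F' C
      rw [Fintype.sum_bool, PF_leaf]
      simp only [if_true, Bool.false_eq_true, if_false, GF, Finset.empty_union]
      have h3 : ({e} : Finset E) ∪ (univ \ {e}) = univ := Finset.union_sdiff_of_subset (Finset.subset_univ _)
      rw [h3]
      field_simp
      ring
    have h4 := drawG (E := E) N hN (fun b : Bool => if b then {e} else ∅)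
      (fun b => if b then u e * q ^ kk ψ univ else q ^ kk ψ (univ \ {e})) (fun b => (hw b).le)
      (Finset.sum_pos (fun b _ => hw b) Finset.univ_nonempty) (GF ψ q {e} B F) (GF ψ q {e} B' (fun _ => 1))
      (fun b => GF_nonneg ψ hq _ _ _ hF _) (fun b => GF_nonneg ψ hq _ _ _ h1F _) Q hQ
      (fun i j => by
        rw [GF_one, GF_one]
        exact hosc {e} (by simp [ETree.sets]) B' _ _ hB' (hsub i) (hsub j))
    rw [hphi, hphi] at h4
    rw [pow_one]
    exact h4
  | node l r ihl ihr =>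
    obtain ⟨hd, hl, hr⟩ := ht
    simp only [ETree.edges] at hB hB' ⊢
    rw [Finset.disjoint_union_right] at hB hB'
    have hol : ∀ S ∈ l.sets, ∀ B A A' : Finset E, Disjoint B S → A ⊆ S → A' ⊆ S →
        FF ψ q S B A ≤ Q * FF ψ q S B A' := fun S hS => hosc S (by
      simp only [ETree.sets]
      exact Set.mem_insert_of_mem _ (Or.inl hS))
    have hor : ∀ S ∈ r.sets, ∀ B A A' : Finset E, Disjoint B S → A ⊆ S → A' ⊆ S →
        FF ψ q S B A ≤ Q * FF ψ q S B A' := fun S hS => hosc S (by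
      simp only [ETree.sets]
      exact Set.mem_insert_of_mem _ (Or.inr hS))
    have hot := hosc (l.edges ∪ r.edges) (by
      simp only [ETree.sets]
      exact Set.mem_insert _ _)
    have e1 : ∀ (P : Fin N → Finset E) (a : ℝ), (∀ i, P i ⊆ l.edges) → 0 < a →
        (trun ψ q u N r fun R b => draw N (fun i : Fin N × Fin N => P i.1 ∪ R i.2)
          (fun i => a * b / N ^ 2 * (q ^ kk ψ (P i.1 ∪ R i.2 ∪ (univ \ (l.edges ∪ r.edges))) /
            (q ^ kk ψ (P i.1 ∪ (univ \ l.edges)) * q ^ kk ψ (R i.2 ∪ (univ \ r.edges)))))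
          (fun P' m => (m / N * ∑ i, GF ψ q (l.edges ∪ r.edges) B F (P' i)) *
            (m / N * ∑ i, GF ψ q (l.edges ∪ r.edges) B' (fun _ => 1) (P' i)))) ≤
        (1 + Q / N) ^ (r.size + 1) *
          ((∑ A ∈ r.edges.powerset, (∏ e ∈ A, u e) * (a / N * ∑ i, GF ψ q l.edges (B ∪ A) F (P i))) *
          ∑ A ∈ r.edges.powerset, (∏ e ∈ A, u e) * (a / N * ∑ i, GF ψ q l.edges (B' ∪ A) (fun _ => 1) (P i))) := by
      intro P a hP ha
      have e2 : (trun ψ q u N r fun R b => draw N (fun i : Fin N × Fin N => P i.1 ∪ R i.2)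
          (fun i => a * b / N ^ 2 * (q ^ kk ψ (P i.1 ∪ R i.2 ∪ (univ \ (l.edges ∪ r.edges))) /
            (q ^ kk ψ (P i.1 ∪ (univ \ l.edges)) * q ^ kk ψ (R i.2 ∪ (univ \ r.edges)))))
          (fun P' m => (m / N * ∑ i, GF ψ q (l.edges ∪ r.edges) B F (P' i)) *
            (m / N * ∑ i, GF ψ q (l.edges ∪ r.edges) B' (fun _ => 1) (P' i)))) ≤
          trun ψ q u N r fun R b => (1 + Q / N) *
            ((∑ i, (a / N * (1 / q ^ kk ψ (P i ∪ (univ \ l.edges)))) *
              (b / N * ∑ j, GF ψ q r.edges (B ∪ P i) F (R j))) *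
            ∑ i, (a / N * (1 / q ^ kk ψ (P i ∪ (univ \ l.edges)))) *
              (b / N * ∑ j, GF ψ q r.edges (B' ∪ P i) (fun _ => 1) (R j))) := by
        refine trun_mono ψ hq hu hN r _ _ fun R b hR hb => ?_
        have hw : ∀ i : Fin N × Fin N, 0 < a * b / N ^ 2 *
            (q ^ kk ψ (P i.1 ∪ R i.2 ∪ (univ \ (l.edges ∪ r.edges))) /
            (q ^ kk ψ (P i.1 ∪ (univ \ l.edges)) * q ^ kk ψ (R i.2 ∪ (univ \ r.edges)))) := by
          intro i
          positivity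
        have : Nonempty (Fin N × Fin N) := ⟨(⟨0, hN⟩, ⟨0, hN⟩)⟩
        have hsub : ∀ i : Fin N × Fin N, P i.1 ∪ R i.2 ⊆ l.edges ∪ r.edges := fun i =>
          Finset.union_subset_union (hP i.1) (hR i.2)
        have h4 := drawG (E := E) N hN (fun i : Fin N × Fin N => P i.1 ∪ R i.2) _ (fun i => (hw i).le)
          (Finset.sum_pos (fun i _ => hw i) Finset.univ_nonempty) (GF ψ q (l.edges ∪ r.edges) B F)
          (GF ψ q (l.edges ∪ r.edges) B' (fun _ => 1))
          (fun b => GF_nonneg ψ hq _ _ _ hF _) (fun b => GF_nonneg ψ hq _ _ _ h1F _) Q hQ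
          (fun i j => by
            rw [GF_one, GF_one]
            exact hot B' _ _ (Finset.disjoint_union_right.2 hB') (hsub i) (hsub j))
        rw [nodeXG ψ hq, nodeXG ψ hq] at h4
        exact h4
      refine e2.trans ?_
      rw [trun_mul, pow_succ, mul_comm _ (1 + Q / N), mul_assoc]
      refine mul_le_mul_of_nonneg_left ?_ hK
      rw [← swapXG, ← swapXG]
      have hg : ∀ i ∈ (Finset.univ : Finset (Fin N)), 0 ≤ a / N * (1 / q ^ kk ψ (P i ∪ (univ \ l.edges))) := by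
        intro i _
        positivity
      refine bilG ψ q u N r Finset.univ Finset.univ _ _
        (fun i (R : Fin N → Finset E) b => b / N * ∑ j, GF ψ q r.edges (B ∪ P i) F (R j))
        (fun i (R : Fin N → Finset E) b => b / N * ∑ j, GF ψ q r.edges (B' ∪ P i) (fun _ => 1) (R j))
        (fun i => PF ψ q u r.edges (B ∪ P i) F) (fun i => PF ψ q u r.edges (B' ∪ P i) (fun _ => 1)) _ hg hg ?_
      intro i _ j _
      refine ihr hr hor _ _ ?_ ?_
      · rw [Finset.disjoint_union_left]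
        exact ⟨hB.2, Finset.disjoint_of_subset_left (hP i) hd⟩
      · rw [Finset.disjoint_union_left]
        exact ⟨hB'.2, Finset.disjoint_of_subset_left (hP j) hd⟩
    change trun ψ q u N l (fun P a => trun ψ q u N r fun R b => draw N (fun i : Fin N × Fin N => P i.1 ∪ R i.2)
          (fun i => a * b / N ^ 2 * (q ^ kk ψ (P i.1 ∪ R i.2 ∪ (univ \ (l.edges ∪ r.edges))) /
            (q ^ kk ψ (P i.1 ∪ (univ \ l.edges)) * q ^ kk ψ (R i.2 ∪ (univ \ r.edges)))))
          (fun P' m => (m / N * ∑ i, GF ψ q (l.edges ∪ r.edges) B F (P' i)) *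
            (m / N * ∑ i, GF ψ q (l.edges ∪ r.edges) B' (fun _ => 1) (P' i)))) ≤ _
    refine (trun_mono ψ hq hu hN l _ _ e1).trans ?_
    rw [trun_mul]
    have e5 : ETree.size (ETree.node l r) = (r.size + 1) + l.size := by
      simp only [ETree.size]
      ring
    rw [e5, pow_add _ (r.size + 1) l.size, mul_assoc]
    refine mul_le_mul_of_nonneg_left ?_ (pow_nonneg hK _)
    have e6 : ∀ (F' : Finset E → ℝ) (C : Finset E),
        ∑ A ∈ r.edges.powerset, (∏ e ∈ A, u e) * PF ψ q u l.edges (C ∪ A) F' =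
        PF ψ q u (l.edges ∪ r.edges) C F' := by
      intro F' C
      rw [PF_union ψ q u hd.symm, union_comm]
    rw [← e6, ← e6]
    have hv' : ∀ A ∈ r.edges.powerset, 0 ≤ ∏ e ∈ A, u e := fun A _ => Finset.prod_nonneg fun e _ => (hu e).le
    refine bilG ψ q u N l r.edges.powerset r.edges.powerset (fun A => ∏ e ∈ A, u e) (fun A => ∏ e ∈ A, u e)
      (fun A (P : Fin N → Finset E) a => a / N * ∑ i, GF ψ q l.edges (B ∪ A) F (P i))
      (fun A (P : Fin N → Finset E) a => a / N * ∑ i, GF ψ q l.edges (B' ∪ A) (fun _ => 1) (P i))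
      (fun A => PF ψ q u l.edges (B ∪ A) F) (fun A => PF ψ q u l.edges (B' ∪ A) (fun _ => 1)) _ hv' hv' ?_
    intro A hA A' hA'
    refine ihl hl hol _ _ ?_ ?_
    · rw [Finset.disjoint_union_left]
      exact ⟨hB.1, Finset.disjoint_of_subset_left (Finset.mem_powerset.1 hA) hd.symm⟩
    · rw [Finset.disjoint_union_left]
      exact ⟨hB'.1, Finset.disjoint_of_subset_left (Finset.mem_powerset.1 hA') hd.symm⟩

end Pool.Agent.Work.MP_63853a_lc.Tr
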