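import Pool.Agent.Work.MP_63853a_lc.Tr.G.DrawE
import Pool.Agent.Work.MP_63853a_lc.Tr.G.TOne

set_option autoImplicit false

/-!
# TTwo (size M-L): the second moment of an arbitrary function

Write `M(B, F) = a / N * ∑ i, GF ψ q S B F (P i)`, `K = (1 + Q / N) ^ size`, `U = F ^ 2`, `1` the constant function and
`R(B, B') = (PF B U * PF B' 1 + PF B 1 * PF B' U) / 2`. Claim: `E (M(B, F) M(B', F)) ≤ PF B F * PF B' F + (K - 1) * R(B, B')`.
Induction on `t`, generalizing `B`, `B'`. A DRAW (`draw_eq`) gives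
`(1 - 1/N) X X' + (1/N) W ∑ w GF(B, F) GF(B', F)`, and `GF(B, F) GF(B', F) ≤ (GF(B, U) FF(B') + FF(B) GF(B', U)) / 2` pointwise
(`F(A ∪ B) F(A ∪ B') ≤ (F(A ∪ B)^2 + F(A ∪ B')^2) / 2`), `W ∑ w GF(B, U) FF(B') ≤ Q (∑ w GF(B, U)) (∑ w FF(B'))` (oscillation of
`FF(B')`, as in `draw_snd`). So the draw is at most
`(1 - 1/N) X X' + (Q/N) (Y(B) Z(B') + Z(B) Y(B')) / 2` with `X, Y, Z` the weighted sums of `GF(., F)`, `GF(., U)`, `FF(.)`.
NODE: `X`, `Y`, `Z` are, by `GF_join'`, sums over `i` of `g i * M_r(B ∪ P i, .)`. First part: by the induction hypothesis for `r`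
(bilinear expansion, helper `bil` as in `Tr/Snd.lean`, with an additional error term) and `GF_swap` its inner run is at most
`(∑_A v_A M_l(B ∪ A, F)) (∑_A' v_A' M_l(B' ∪ A', F)) + (K_r - 1) (1/2) (∑_A v_A M_l(B ∪ A, U) ∑_A' v_A' M_l(B' ∪ A', 1) + sym)`;
second part by `trun_one_snd` for `r` at most `K_r` times the same bracket. Then the outer run: the induction hypothesis for
`l`, `trun_one_snd` for `l`, `PF_union`. Altogether, as the total of the coefficients of `R`: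
`(1 - 1/N)[(K_l - 1) + (K_r - 1) K_l] + (Q/N) K_r K_l ≤ K_l K_r (1 + Q/N) - 1` (and `(1 - 1/N) ≤ 1` for the main term: it may be
negative if `F` has both signs, so assume `F ≥ 0`).
-/

namespace Pool.Agent.Work.MP_63853a_lc.Tr

open Finset Pool.Agent.Work.MP_63853a_lc

variable {V E : Type} [Fintype E]

open Classical in
private theorem two_nodeX (ψ : E → V × V) {q : ℝ} (hq : 0 < q) {N : ℕ} (S₁ S₂ B : Finset E) (F : Finset E → ℝ)
    (P R : Fin N → Finset E) (a b : ℝ) :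
    ∑ i : Fin N × Fin N, a * b / N ^ 2 * (q ^ kk ψ (P i.1 ∪ R i.2 ∪ (univ \ (S₁ ∪ S₂))) /
        (q ^ kk ψ (P i.1 ∪ (univ \ S₁)) * q ^ kk ψ (R i.2 ∪ (univ \ S₂)))) *
          GF ψ q (S₁ ∪ S₂) B F (P i.1 ∪ R i.2) =
      ∑ i, (a / N * (1 / q ^ kk ψ (P i ∪ (univ \ S₁)))) * (b / N * ∑ j, GF ψ q S₂ (B ∪ P i) F (R j)) := by
  rw [Fintype.sum_prod_type]
  refine Finset.sum_congr rfl fun i _ => ?_
  rw [Finset.mul_sum, Finset.mul_sum]
  refine Finset.sum_congr rfl fun j _ => ?_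
  rw [mul_assoc, GF_join' ψ hq]
  ring

open Classical in
private theorem two_swapX (ψ : E → V × V) (q : ℝ) (u : E → ℝ) {N : ℕ} (S₁ S₂ B : Finset E) (F : Finset E → ℝ)
    (P : Fin N → Finset E) (a : ℝ) :
    ∑ i, (a / N * (1 / q ^ kk ψ (P i ∪ (univ \ S₁)))) * PF ψ q u S₂ (B ∪ P i) F =
      ∑ A ∈ S₂.powerset, (∏ e ∈ A, u e) * (a / N * ∑ i, GF ψ q S₁ (B ∪ A) F (P i)) := by
  have h : ∀ i, (a / N * (1 / q ^ kk ψ (P i ∪ (univ \ S₁)))) * PF ψ q u S₂ (B ∪ P i) F =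
      ∑ A ∈ S₂.powerset, a / N * ((∏ e ∈ A, u e) * GF ψ q S₁ (B ∪ A) F (P i)) := by
    intro i
    rw [mul_assoc, GF_swap ψ q u S₂ S₁ B F (P i), Finset.mul_sum]
  rw [Finset.sum_congr rfl fun i _ => h i, Finset.sum_comm]
  refine Finset.sum_congr rfl fun A _ => ?_
  rw [← Finset.mul_sum, ← Finset.mul_sum]
  ring

private theorem two_bil (ψ : E → V × V) (q : ℝ) (u : E → ℝ) (N : ℕ) (t : ETree E) {κ₁ κ₂ : Type}
    (s₁ : Finset κ₁) (s₂ : Finset κ₂)
    (c : κ₁ → ℝ) (d : κ₂ → ℝ) (X : κ₁ → (Fin N → Finset E) → ℝ → ℝ) (Y : κ₂ → (Fin N → Finset E) → ℝ → ℝ)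
    (x : κ₁ → ℝ) (y : κ₂ → ℝ) (K : ℝ) (hc : ∀ i ∈ s₁, 0 ≤ c i) (hd : ∀ j ∈ s₂, 0 ≤ d j)
    (h : ∀ i ∈ s₁, ∀ j ∈ s₂, trun ψ q u N t (fun P a => X i P a * Y j P a) ≤ K * (x i * y j)) :
    trun ψ q u N t (fun P a => (∑ i ∈ s₁, c i * X i P a) * ∑ j ∈ s₂, d j * Y j P a) ≤
      K * ((∑ i ∈ s₁, c i * x i) * ∑ j ∈ s₂, d j * y j) := by
  have e1 : (fun (P : Fin N → Finset E) (a : ℝ) => (∑ i ∈ s₁, c i * X i P a) * ∑ j ∈ s₂, d j * Y j P a) =
      fun P a => ∑ i ∈ s₁, ∑ j ∈ s₂, c i * d j * (X i P a * Y j P a) := by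
    funext P a
    rw [Finset.sum_mul_sum]
    refine Finset.sum_congr rfl fun i _ => Finset.sum_congr rfl fun j _ => ?_
    ring
  rw [e1, trun_sum, Finset.sum_mul_sum, Finset.mul_sum]
  refine Finset.sum_le_sum fun i hi => ?_
  rw [trun_sum, Finset.mul_sum]
  refine Finset.sum_le_sum fun j hj => ?_
  rw [trun_mul]
  calc c i * d j * trun ψ q u N t (fun P a => X i P a * Y j P a) ≤ c i * d j * (K * (x i * y j)) :=
        mul_le_mul_of_nonneg_left (h i hi j hj) (mul_nonneg (hc i hi) (hd j hj))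
    _ = K * (c i * x i * (d j * y j)) := by ring

private theorem two_bil2 (ψ : E → V × V) (q : ℝ) (u : E → ℝ) (N : ℕ) (t : ETree E) {κ₁ κ₂ : Type}
    (s₁ : Finset κ₁) (s₂ : Finset κ₂)
    (c : κ₁ → ℝ) (d : κ₂ → ℝ) (X : κ₁ → (Fin N → Finset E) → ℝ → ℝ) (Y : κ₂ → (Fin N → Finset E) → ℝ → ℝ)
    (x x1 x2 : κ₁ → ℝ) (y y1 y2 : κ₂ → ℝ) (K : ℝ) (hc : ∀ i ∈ s₁, 0 ≤ c i) (hd : ∀ j ∈ s₂, 0 ≤ d j)
    (h : ∀ i ∈ s₁, ∀ j ∈ s₂, trun ψ q u N t (fun P a => X i P a * Y j P a) ≤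
      x i * y j + K * ((x1 i * y2 j + x2 i * y1 j) / 2)) :
    trun ψ q u N t (fun P a => (∑ i ∈ s₁, c i * X i P a) * ∑ j ∈ s₂, d j * Y j P a) ≤
      (∑ i ∈ s₁, c i * x i) * (∑ j ∈ s₂, d j * y j) +
        K * (((∑ i ∈ s₁, c i * x1 i) * (∑ j ∈ s₂, d j * y2 j) +
          (∑ i ∈ s₁, c i * x2 i) * ∑ j ∈ s₂, d j * y1 j) / 2) := by
  have e1 : (fun (P : Fin N → Finset E) (a : ℝ) => (∑ i ∈ s₁, c i * X i P a) * ∑ j ∈ s₂, d j * Y j P a) =
      fun P a => ∑ i ∈ s₁, ∑ j ∈ s₂, c i * d j * (X i P a * Y j P a) := by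
    funext P a
    rw [Finset.sum_mul_sum]
    refine Finset.sum_congr rfl fun i _ => Finset.sum_congr rfl fun j _ => ?_
    ring
  rw [e1, trun_sum, Finset.sum_mul_sum, Finset.sum_mul_sum, Finset.sum_mul_sum, ← Finset.sum_add_distrib,
    Finset.sum_div, Finset.mul_sum, ← Finset.sum_add_distrib]
  refine Finset.sum_le_sum fun i hi => ?_
  rw [trun_sum, ← Finset.sum_add_distrib, Finset.sum_div, Finset.mul_sum, ← Finset.sum_add_distrib]
  refine Finset.sum_le_sum fun j hj => ?_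
  rw [trun_mul]
  calc c i * d j * trun ψ q u N t (fun P a => X i P a * Y j P a)
      ≤ c i * d j * (x i * y j + K * ((x1 i * y2 j + x2 i * y1 j) / 2)) :=
        mul_le_mul_of_nonneg_left (h i hi j hj) (mul_nonneg (hc i hi) (hd j hj))
    _ = c i * x i * (d j * y j) + K * ((c i * x1 i * (d j * y2 j) + c i * x2 i * (d j * y1 j)) / 2) := by ring

private theorem two_draw {ι : Type} [Fintype ι] [Nonempty ι] (ψ : E → V × V) {q : ℝ} (hq : 0 < q) {N : ℕ}
    (hN : 0 < N) (a : ι → Finset E) (w : ι → ℝ) (hw : ∀ j, 0 < w j) (S B B' : Finset E) (F : Finset E → ℝ)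
    (hF : ∀ A, 0 ≤ F A) (Q : ℝ)
    (hZ : ∀ i j, FF ψ q S B (a i) ≤ Q * FF ψ q S B (a j))
    (hZ' : ∀ i j, FF ψ q S B' (a i) ≤ Q * FF ψ q S B' (a j)) :
    draw N a w (fun P m => (m / N * ∑ i, GF ψ q S B F (P i)) * (m / N * ∑ i, GF ψ q S B' F (P i))) ≤
      (∑ j, w j * GF ψ q S B F (a j)) * (∑ j, w j * GF ψ q S B' F (a j)) +
        Q / N * (((∑ j, w j * GF ψ q S B (fun A => F A ^ 2) (a j)) * (∑ j, w j * GF ψ q S B' (fun _ => 1) (a j)) +
          (∑ j, w j * GF ψ q S B (fun _ => 1) (a j)) * ∑ j, w j * GF ψ q S B' (fun A => F A ^ 2) (a j)) / 2) := by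
  classical
  have hNr : (0 : ℝ) < N := Nat.cast_pos.2 hN
  have hW : 0 < ∑ j, w j := Finset.sum_pos (fun j _ => hw j) Finset.univ_nonempty
  rw [draw_eq N hN a w hW.ne']
  have hU : ∀ A, 0 ≤ F A ^ 2 := fun A => sq_nonneg _
  have hX : 0 ≤ ∑ j, w j * GF ψ q S B F (a j) :=
    Finset.sum_nonneg fun j _ => mul_nonneg (hw j).le (GF_nonneg ψ hq _ _ _ hF _)
  have hX' : 0 ≤ ∑ j, w j * GF ψ q S B' F (a j) :=
    Finset.sum_nonneg fun j _ => mul_nonneg (hw j).le (GF_nonneg ψ hq _ _ _ hF _)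
  have h1 : (1 - 1 / (N : ℝ)) * ((∑ j, w j * GF ψ q S B F (a j)) * ∑ j, w j * GF ψ q S B' F (a j)) ≤
      (∑ j, w j * GF ψ q S B F (a j)) * (∑ j, w j * GF ψ q S B' F (a j)) := by
    have h2 : 0 ≤ 1 / (N : ℝ) := by positivity
    nlinarith [mul_nonneg hX hX', mul_nonneg h2 (mul_nonneg hX hX')]
  have hone : ∀ C A : Finset E, GF ψ q S C (fun _ => 1) A = FF ψ q S C A := fun C A => GF_one ψ q S C A
  have hs : ∀ C : Finset E, (∀ i j, FF ψ q S C (a i) ≤ Q * FF ψ q S C (a j)) → ∀ j,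
      (∑ i, w i) * FF ψ q S C (a j) ≤ Q * ∑ i, w i * FF ψ q S C (a i) := by
    intro C hC j
    rw [Finset.sum_mul, Finset.mul_sum]
    refine Finset.sum_le_sum fun i _ => ?_
    calc w i * FF ψ q S C (a j) ≤ w i * (Q * FF ψ q S C (a i)) := mul_le_mul_of_nonneg_left (hC j i) (hw i).le
      _ = Q * (w i * FF ψ q S C (a i)) := by ring
  have h3 : ∀ j, GF ψ q S B F (a j) * GF ψ q S B' F (a j) ≤
      (GF ψ q S B (fun A => F A ^ 2) (a j) * FF ψ q S B' (a j) +
        GF ψ q S B' (fun A => F A ^ 2) (a j) * FF ψ q S B (a j)) / 2 := by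
    intro j
    have e1 : ∀ (C : Finset E) (G : Finset E → ℝ), GF ψ q S C G (a j) = FF ψ q S C (a j) * G (a j ∪ C) := by
      intro C G
      rw [← GF_one]
      simp only [GF, mul_one]
    rw [e1, e1, e1, e1]
    have h4 : 0 ≤ FF ψ q S B (a j) * FF ψ q S B' (a j) := by
      rw [← hone, ← hone]
      exact mul_nonneg (GF_nonneg ψ hq _ _ _ (fun _ => zero_le_one) _) (GF_nonneg ψ hq _ _ _ (fun _ => zero_le_one) _)
    nlinarith [mul_nonneg h4 (sq_nonneg (F (a j ∪ B) - F (a j ∪ B')))]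
  have h5 : (∑ j, w j) * ∑ j, w j * (GF ψ q S B F (a j) * GF ψ q S B' F (a j)) ≤
      Q * (((∑ j, w j * GF ψ q S B (fun A => F A ^ 2) (a j)) * (∑ j, w j * FF ψ q S B' (a j)) +
          (∑ j, w j * FF ψ q S B (a j)) * ∑ j, w j * GF ψ q S B' (fun A => F A ^ 2) (a j)) / 2) := by
    have e2 : Q * (((∑ j, w j * GF ψ q S B (fun A => F A ^ 2) (a j)) * (∑ j, w j * FF ψ q S B' (a j)) +
          (∑ j, w j * FF ψ q S B (a j)) * ∑ j, w j * GF ψ q S B' (fun A => F A ^ 2) (a j)) / 2) =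
        ∑ j, ((w j * GF ψ q S B (fun A => F A ^ 2) (a j)) * (Q * ∑ i, w i * FF ψ q S B' (a i)) +
          (w j * GF ψ q S B' (fun A => F A ^ 2) (a j)) * (Q * ∑ i, w i * FF ψ q S B (a i))) / 2 := by
      rw [← Finset.sum_div, Finset.sum_add_distrib, ← Finset.sum_mul, ← Finset.sum_mul]
      ring
    rw [e2, Finset.mul_sum]
    refine Finset.sum_le_sum fun j _ => ?_
    have h6 : 0 ≤ w j * GF ψ q S B (fun A => F A ^ 2) (a j) := mul_nonneg (hw j).le (GF_nonneg ψ hq _ _ _ hU _)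
    have h7 : 0 ≤ w j * GF ψ q S B' (fun A => F A ^ 2) (a j) := mul_nonneg (hw j).le (GF_nonneg ψ hq _ _ _ hU _)
    calc (∑ j, w j) * (w j * (GF ψ q S B F (a j) * GF ψ q S B' F (a j)))
        ≤ (∑ j, w j) * (w j * ((GF ψ q S B (fun A => F A ^ 2) (a j) * FF ψ q S B' (a j) +
          GF ψ q S B' (fun A => F A ^ 2) (a j) * FF ψ q S B (a j)) / 2)) :=
          mul_le_mul_of_nonneg_left (mul_le_mul_of_nonneg_left (h3 j) (hw j).le) hW.le
      _ = ((w j * GF ψ q S B (fun A => F A ^ 2) (a j)) * ((∑ j, w j) * FF ψ q S B' (a j)) +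
          (w j * GF ψ q S B' (fun A => F A ^ 2) (a j)) * ((∑ j, w j) * FF ψ q S B (a j))) / 2 := by ring
      _ ≤ _ := by
        have h8 := mul_le_mul_of_nonneg_left (hs B' hZ' j) h6
        have h9 := mul_le_mul_of_nonneg_left (hs B hZ j) h7
        linarith
  simp only [hone]
  refine add_le_add h1 ?_
  rw [div_mul_eq_mul_div, div_mul_eq_mul_div]
  exact div_le_div_of_nonneg_right h5 hNr.le

theorem trun_two (ψ : E → V × V) {q : ℝ} (hq : 0 < q) {u : E → ℝ} (hu : ∀ e, 0 < u e) {N : ℕ} (hN : 0 < N)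
    (Q : ℝ) (hQ : 0 ≤ Q) (F : Finset E → ℝ) (hF : ∀ A, 0 ≤ F A) (t : ETree E) (ht : t.Nodup)
    (hosc : ∀ S ∈ t.sets, ∀ B A A' : Finset E, Disjoint B S → A ⊆ S → A' ⊆ S → FF ψ q S B A ≤ Q * FF ψ q S B A')
    (B B' : Finset E) (hB : Disjoint B t.edges) (hB' : Disjoint B' t.edges) :
    trun ψ q u N t (fun P a =>
        (a / N * ∑ i, GF ψ q t.edges B F (P i)) * (a / N * ∑ i, GF ψ q t.edges B' F (P i))) ≤
      PF ψ q u t.edges B F * PF ψ q u t.edges B' F + ((1 + Q / N) ^ t.size - 1) *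
        ((PF ψ q u t.edges B (fun A => F A ^ 2) * PF ψ q u t.edges B' (fun _ => 1) +
          PF ψ q u t.edges B (fun _ => 1) * PF ψ q u t.edges B' (fun A => F A ^ 2)) / 2) := by
  classical
  have hNr : (0 : ℝ) < N := Nat.cast_pos.2 hN
  have hc0 : 0 ≤ Q / N := by positivity
  have hU : ∀ A, 0 ≤ (fun A : Finset E => F A ^ 2) A := fun A => sq_nonneg _
  have h1' : ∀ A, 0 ≤ (fun _ : Finset E => (1 : ℝ)) A := fun _ => zero_le_one
  induction t generalizing B B' with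
  | nil =>
    simp only [trun, ETree.edges, ETree.size]
    have h0 : ∀ C : Finset E, q ^ kk ψ univ / (N : ℝ) * ∑ i : Fin N, GF ψ q ∅ C F ∅ = PF ψ q u ∅ C F := by
      intro C
      rw [Finset.sum_const, Finset.card_univ, Fintype.card_fin, nsmul_eq_mul, PF_nil]
      simp only [GF, Finset.empty_union, Finset.sdiff_empty]
      have : q ^ kk ψ univ ≠ 0 := (pow_pos hq _).ne'
      field_simp
    rw [h0, h0, pow_one]
    have h1 := PF_nonneg ψ hq hu (∅ : Finset E) B _ hU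
    have h2 := PF_nonneg ψ hq hu (∅ : Finset E) B' _ hU
    have h3 := PF_nonneg ψ hq hu (∅ : Finset E) B _ h1'
    have h4 := PF_nonneg ψ hq hu (∅ : Finset E) B' _ h1'
    have h5 : 0 ≤ (1 + Q / N - 1) * ((PF ψ q u ∅ B (fun A => F A ^ 2) * PF ψ q u ∅ B' (fun _ => 1) +
          PF ψ q u ∅ B (fun _ => 1) * PF ψ q u ∅ B' (fun A => F A ^ 2)) / 2) := by
      refine mul_nonneg (by linarith) (div_nonneg (add_nonneg (mul_nonneg h1 h4) (mul_nonneg h3 h2)) two_pos.le)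
    linarith
  | leaf e =>
    simp only [trun, ETree.edges, ETree.size]
    have h1 : 0 < q ^ kk ψ univ := pow_pos hq _
    have h2 : 0 < q ^ kk ψ (univ \ {e}) := pow_pos hq _
    have hw : ∀ b : Bool, 0 < (if b then u e * q ^ kk ψ univ else q ^ kk ψ (univ \ {e}) : ℝ) := by
      intro b
      cases b
      · simpa using h2
      · simpa using mul_pos (hu e) h1
    have hsub : ∀ b : Bool, (if b then {e} else ∅ : Finset E) ⊆ {e} := by
      intro b
      cases b <;> simp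
    have hphi : ∀ (C : Finset E) (G : Finset E → ℝ),
        ∑ b : Bool, (if b then u e * q ^ kk ψ univ else q ^ kk ψ (univ \ {e}) : ℝ) *
        GF ψ q {e} C G (if b then {e} else ∅) = PF ψ q u {e} C G := by
      intro C G
      rw [Fintype.sum_bool, PF_leaf]
      simp only [if_true, Bool.false_eq_true, if_false, GF, Finset.empty_union]
      have h3 : ({e} : Finset E) ∪ (univ \ {e}) = univ := Finset.union_sdiff_of_subset (Finset.subset_univ _)
      rw [h3]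
      field_simp
      ring
    have h4 := two_draw (E := E) ψ hq hN (fun b : Bool => if b then {e} else ∅)
      (fun b => if b then u e * q ^ kk ψ univ else q ^ kk ψ (univ \ {e})) hw {e} B B' F hF Q
      (fun i j => hosc {e} (by simp [ETree.sets]) B _ _ hB (hsub i) (hsub j))
      (fun i j => hosc {e} (by simp [ETree.sets]) B' _ _ hB' (hsub i) (hsub j))
    rw [hphi, hphi, hphi, hphi, hphi, hphi] at h4
    rw [pow_one, add_sub_cancel_left]
    exact h4
  | node l r ihl ihr =>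
    obtain ⟨hd, hl, hr⟩ := ht
    simp only [ETree.edges] at hB hB' ⊢
    rw [Finset.disjoint_union_right] at hB hB'
    have hol : ∀ S ∈ l.sets, ∀ B A A' : Finset E, Disjoint B S → A ⊆ S → A' ⊆ S →
        FF ψ q S B A ≤ Q * FF ψ q S B A' := fun S hS => hosc S (by
      simp only [ETree.sets]
      exact Set.mem_insert_of_mem _ (Or.inl hS))
    have hor : ∀ S ∈ r.sets, ∀ B A A' : Finset E, Disjoint B S → A ⊆ S → A' ⊆ S →
        FF ψ q S B A ≤ Q * FF ψ q S B A' := fun S hS => hosc S (by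
      simp only [ETree.sets]
      exact Set.mem_insert_of_mem _ (Or.inr hS))
    have hot := hosc (l.edges ∪ r.edges) (by
      simp only [ETree.sets]
      exact Set.mem_insert _ _)
    have hKl : 1 ≤ (1 + Q / N) ^ l.size := one_le_pow₀ (by linarith)
    have hKr : 1 ≤ (1 + Q / N) ^ r.size := one_le_pow₀ (by linarith)
    have e1 : ∀ (P : Fin N → Finset E) (a : ℝ), (∀ i, P i ⊆ l.edges) → 0 < a →
        (trun ψ q u N r fun R b => draw N (fun i : Fin N × Fin N => P i.1 ∪ R i.2)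
          (fun i => a * b / N ^ 2 * (q ^ kk ψ (P i.1 ∪ R i.2 ∪ (univ \ (l.edges ∪ r.edges))) /
            (q ^ kk ψ (P i.1 ∪ (univ \ l.edges)) * q ^ kk ψ (R i.2 ∪ (univ \ r.edges)))))
          (fun P' m => (m / N * ∑ i, GF ψ q (l.edges ∪ r.edges) B F (P' i)) *
            (m / N * ∑ i, GF ψ q (l.edges ∪ r.edges) B' F (P' i)))) ≤
          (∑ A ∈ r.edges.powerset, (∏ e ∈ A, u e) * (a / N * ∑ i, GF ψ q l.edges (B ∪ A) F (P i))) *
          (∑ A ∈ r.edges.powerset, (∏ e ∈ A, u e) * (a / N * ∑ i, GF ψ q l.edges (B' ∪ A) F (P i))) +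
          ((1 + Q / N) ^ r.size * (1 + Q / N) - 1) * (((∑ A ∈ r.edges.powerset, (∏ e ∈ A, u e) *
            (a / N * ∑ i, GF ψ q l.edges (B ∪ A) (fun A => F A ^ 2) (P i))) *
            (∑ A ∈ r.edges.powerset, (∏ e ∈ A, u e) *
            (a / N * ∑ i, GF ψ q l.edges (B' ∪ A) (fun _ => 1) (P i))) +
            (∑ A ∈ r.edges.powerset, (∏ e ∈ A, u e) *
            (a / N * ∑ i, GF ψ q l.edges (B ∪ A) (fun _ => 1) (P i))) *
            (∑ A ∈ r.edges.powerset, (∏ e ∈ A, u e) *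
            (a / N * ∑ i, GF ψ q l.edges (B' ∪ A) (fun A => F A ^ 2) (P i)))) / 2) := by
      intro P a hP ha
      have e2 : (trun ψ q u N r fun R b => draw N (fun i : Fin N × Fin N => P i.1 ∪ R i.2)
          (fun i => a * b / N ^ 2 * (q ^ kk ψ (P i.1 ∪ R i.2 ∪ (univ \ (l.edges ∪ r.edges))) /
            (q ^ kk ψ (P i.1 ∪ (univ \ l.edges)) * q ^ kk ψ (R i.2 ∪ (univ \ r.edges)))))
          (fun P' m => (m / N * ∑ i, GF ψ q (l.edges ∪ r.edges) B F (P' i)) *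
            (m / N * ∑ i, GF ψ q (l.edges ∪ r.edges) B' F (P' i)))) ≤
          trun ψ q u N r fun R b =>
            (∑ i, (a / N * (1 / q ^ kk ψ (P i ∪ (univ \ l.edges)))) *
              (b / N * ∑ j, GF ψ q r.edges (B ∪ P i) F (R j))) *
            (∑ i, (a / N * (1 / q ^ kk ψ (P i ∪ (univ \ l.edges)))) *
              (b / N * ∑ j, GF ψ q r.edges (B' ∪ P i) F (R j))) +
            Q / N / 2 * ((∑ i, (a / N * (1 / q ^ kk ψ (P i ∪ (univ \ l.edges)))) *
              (b / N * ∑ j, GF ψ q r.edges (B ∪ P i) (fun A => F A ^ 2) (R j))) *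
            (∑ i, (a / N * (1 / q ^ kk ψ (P i ∪ (univ \ l.edges)))) *
              (b / N * ∑ j, GF ψ q r.edges (B' ∪ P i) (fun _ => 1) (R j))) +
            (∑ i, (a / N * (1 / q ^ kk ψ (P i ∪ (univ \ l.edges)))) *
              (b / N * ∑ j, GF ψ q r.edges (B' ∪ P i) (fun A => F A ^ 2) (R j))) *
            (∑ i, (a / N * (1 / q ^ kk ψ (P i ∪ (univ \ l.edges)))) *
              (b / N * ∑ j, GF ψ q r.edges (B ∪ P i) (fun _ => 1) (R j)))) := by
        refine trun_mono ψ hq hu hN r _ _ fun R b hR hb => ?_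
        have hw : ∀ i : Fin N × Fin N, 0 < a * b / N ^ 2 *
            (q ^ kk ψ (P i.1 ∪ R i.2 ∪ (univ \ (l.edges ∪ r.edges))) /
            (q ^ kk ψ (P i.1 ∪ (univ \ l.edges)) * q ^ kk ψ (R i.2 ∪ (univ \ r.edges)))) := by
          intro i
          positivity
        have : Nonempty (Fin N × Fin N) := ⟨(⟨0, hN⟩, ⟨0, hN⟩)⟩
        have hsub : ∀ i : Fin N × Fin N, P i.1 ∪ R i.2 ⊆ l.edges ∪ r.edges := fun i =>
          Finset.union_subset_union (hP i.1) (hR i.2)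
        have h4 := two_draw (E := E) ψ hq hN (fun i : Fin N × Fin N => P i.1 ∪ R i.2) _ hw
          (l.edges ∪ r.edges) B B' F hF Q
          (fun i j => hot B _ _ (Finset.disjoint_union_right.2 hB) (hsub i) (hsub j))
          (fun i j => hot B' _ _ (Finset.disjoint_union_right.2 hB') (hsub i) (hsub j))
        rw [two_nodeX ψ hq, two_nodeX ψ hq, two_nodeX ψ hq, two_nodeX ψ hq, two_nodeX ψ hq,
          two_nodeX ψ hq] at h4
        refine h4.trans (le_of_eq ?_)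
        ring
      refine e2.trans ?_
      rw [trun_add, trun_mul, trun_add]
      rw [← two_swapX, ← two_swapX, ← two_swapX, ← two_swapX, ← two_swapX, ← two_swapX]
      have hg : ∀ i ∈ (Finset.univ : Finset (Fin N)), 0 ≤ a / N * (1 / q ^ kk ψ (P i ∪ (univ \ l.edges))) := by
        intro i _
        positivity
      have hdis : ∀ C : Finset E, Disjoint C r.edges → ∀ i, Disjoint (C ∪ P i) r.edges := by
        intro C hC i
        rw [Finset.disjoint_union_left]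
        exact ⟨hC, Finset.disjoint_of_subset_left (hP i) hd⟩
      have f1 := two_bil2 ψ q u N r Finset.univ Finset.univ _ _
        (fun i (R : Fin N → Finset E) b => b / N * ∑ j, GF ψ q r.edges (B ∪ P i) F (R j))
        (fun i (R : Fin N → Finset E) b => b / N * ∑ j, GF ψ q r.edges (B' ∪ P i) F (R j))
        (fun i => PF ψ q u r.edges (B ∪ P i) F) (fun i => PF ψ q u r.edges (B ∪ P i) (fun A => F A ^ 2))
        (fun i => PF ψ q u r.edges (B ∪ P i) (fun _ => 1))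
        (fun i => PF ψ q u r.edges (B' ∪ P i) F) (fun i => PF ψ q u r.edges (B' ∪ P i) (fun A => F A ^ 2))
        (fun i => PF ψ q u r.edges (B' ∪ P i) (fun _ => 1)) ((1 + Q / N) ^ r.size - 1) hg hg
        (fun i _ j _ => ihr hr hor _ _ (hdis B hB.2 i) (hdis B' hB'.2 j))
      have f2 := two_bil ψ q u N r Finset.univ Finset.univ _ _
        (fun i (R : Fin N → Finset E) b => b / N * ∑ j, GF ψ q r.edges (B ∪ P i) (fun A => F A ^ 2) (R j))
        (fun i (R : Fin N → Finset E) b => b / N * ∑ j, GF ψ q r.edges (B' ∪ P i) (fun _ => 1) (R j))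
        (fun i => PF ψ q u r.edges (B ∪ P i) (fun A => F A ^ 2))
        (fun i => PF ψ q u r.edges (B' ∪ P i) (fun _ => 1)) ((1 + Q / N) ^ r.size) hg hg
        (fun i _ j _ => trun_one_snd ψ hq hu hN Q hQ _ hU r hr hor _ _ (hdis B hB.2 i) (hdis B' hB'.2 j))
      have f3 := two_bil ψ q u N r Finset.univ Finset.univ _ _
        (fun i (R : Fin N → Finset E) b => b / N * ∑ j, GF ψ q r.edges (B' ∪ P i) (fun A => F A ^ 2) (R j))
        (fun i (R : Fin N → Finset E) b => b / N * ∑ j, GF ψ q r.edges (B ∪ P i) (fun _ => 1) (R j))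
        (fun i => PF ψ q u r.edges (B' ∪ P i) (fun A => F A ^ 2))
        (fun i => PF ψ q u r.edges (B ∪ P i) (fun _ => 1)) ((1 + Q / N) ^ r.size) hg hg
        (fun i _ j _ => trun_one_snd ψ hq hu hN Q hQ _ hU r hr hor _ _ (hdis B' hB'.2 i) (hdis B hB.2 j))
      have f4 := mul_le_mul_of_nonneg_left (add_le_add f2 f3) (show 0 ≤ Q / N / 2 by positivity)
      refine (add_le_add f1 f4).trans (le_of_eq ?_)
      ring
    change trun ψ q u N l (fun P a => trun ψ q u N r fun R b => draw N (fun i : Fin N × Fin N => P i.1 ∪ R i.2)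
          (fun i => a * b / N ^ 2 * (q ^ kk ψ (P i.1 ∪ R i.2 ∪ (univ \ (l.edges ∪ r.edges))) /
            (q ^ kk ψ (P i.1 ∪ (univ \ l.edges)) * q ^ kk ψ (R i.2 ∪ (univ \ r.edges)))))
          (fun P' m => (m / N * ∑ i, GF ψ q (l.edges ∪ r.edges) B F (P' i)) *
            (m / N * ∑ i, GF ψ q (l.edges ∪ r.edges) B' F (P' i)))) ≤ _
    have e3 : ∀ (C : Finset E) (G : Finset E → ℝ), ∑ A ∈ r.edges.powerset, (∏ e ∈ A, u e) *
        PF ψ q u l.edges (C ∪ A) G = PF ψ q u (l.edges ∪ r.edges) C G := by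
      intro C G
      rw [PF_union ψ q u hd.symm, union_comm]
    have hv' : ∀ A ∈ r.edges.powerset, 0 ≤ ∏ e ∈ A, u e := fun A _ => Finset.prod_nonneg fun e _ => (hu e).le
    have hdl : ∀ C : Finset E, Disjoint C l.edges → ∀ A ∈ r.edges.powerset, Disjoint (C ∪ A) l.edges := by
      intro C hC A hA
      rw [Finset.disjoint_union_left]
      exact ⟨hC, Finset.disjoint_of_subset_left (Finset.mem_powerset.1 hA) hd.symm⟩
    have g1 := two_bil2 ψ q u N l r.edges.powerset r.edges.powerset (fun A => ∏ e ∈ A, u e)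
      (fun A => ∏ e ∈ A, u e)
      (fun A (P : Fin N → Finset E) a => a / N * ∑ i, GF ψ q l.edges (B ∪ A) F (P i))
      (fun A (P : Fin N → Finset E) a => a / N * ∑ i, GF ψ q l.edges (B' ∪ A) F (P i))
      (fun A => PF ψ q u l.edges (B ∪ A) F) (fun A => PF ψ q u l.edges (B ∪ A) (fun A => F A ^ 2))
      (fun A => PF ψ q u l.edges (B ∪ A) (fun _ => 1))
      (fun A => PF ψ q u l.edges (B' ∪ A) F) (fun A => PF ψ q u l.edges (B' ∪ A) (fun A => F A ^ 2))
      (fun A => PF ψ q u l.edges (B' ∪ A) (fun _ => 1)) ((1 + Q / N) ^ l.size - 1) hv' hv'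
      (fun A hA A' hA' => ihl hl hol _ _ (hdl B hB.1 A hA) (hdl B' hB'.1 A' hA'))
    have g2 := two_bil ψ q u N l r.edges.powerset r.edges.powerset (fun A => ∏ e ∈ A, u e)
      (fun A => ∏ e ∈ A, u e)
      (fun A (P : Fin N → Finset E) a => a / N * ∑ i, GF ψ q l.edges (B ∪ A) (fun A => F A ^ 2) (P i))
      (fun A (P : Fin N → Finset E) a => a / N * ∑ i, GF ψ q l.edges (B' ∪ A) (fun _ => 1) (P i))
      (fun A => PF ψ q u l.edges (B ∪ A) (fun A => F A ^ 2))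
      (fun A => PF ψ q u l.edges (B' ∪ A) (fun _ => 1)) ((1 + Q / N) ^ l.size) hv' hv'
      (fun A hA A' hA' => trun_one_snd ψ hq hu hN Q hQ _ hU l hl hol _ _ (hdl B hB.1 A hA) (hdl B' hB'.1 A' hA'))
    have g3 := two_bil ψ q u N l r.edges.powerset r.edges.powerset (fun A => ∏ e ∈ A, u e)
      (fun A => ∏ e ∈ A, u e)
      (fun A (P : Fin N → Finset E) a => a / N * ∑ i, GF ψ q l.edges (B' ∪ A) (fun A => F A ^ 2) (P i))
      (fun A (P : Fin N → Finset E) a => a / N * ∑ i, GF ψ q l.edges (B ∪ A) (fun _ => 1) (P i))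
      (fun A => PF ψ q u l.edges (B' ∪ A) (fun A => F A ^ 2))
      (fun A => PF ψ q u l.edges (B ∪ A) (fun _ => 1)) ((1 + Q / N) ^ l.size) hv' hv'
      (fun A hA A' hA' => trun_one_snd ψ hq hu hN Q hQ _ hU l hl hol _ _ (hdl B' hB'.1 A hA) (hdl B hB.1 A' hA'))
    simp only [e3] at g1 g2 g3
    refine (trun_mono ψ hq hu hN l _ _ e1).trans ?_
    have e4 : (fun (P : Fin N → Finset E) (a : ℝ) =>
          (∑ A ∈ r.edges.powerset, (∏ e ∈ A, u e) * (a / N * ∑ i, GF ψ q l.edges (B ∪ A) F (P i))) *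
          (∑ A ∈ r.edges.powerset, (∏ e ∈ A, u e) * (a / N * ∑ i, GF ψ q l.edges (B' ∪ A) F (P i))) +
          ((1 + Q / N) ^ r.size * (1 + Q / N) - 1) * (((∑ A ∈ r.edges.powerset, (∏ e ∈ A, u e) *
            (a / N * ∑ i, GF ψ q l.edges (B ∪ A) (fun A => F A ^ 2) (P i))) *
            (∑ A ∈ r.edges.powerset, (∏ e ∈ A, u e) *
            (a / N * ∑ i, GF ψ q l.edges (B' ∪ A) (fun _ => 1) (P i))) +
            (∑ A ∈ r.edges.powerset, (∏ e ∈ A, u e) *
            (a / N * ∑ i, GF ψ q l.edges (B ∪ A) (fun _ => 1) (P i))) *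
            (∑ A ∈ r.edges.powerset, (∏ e ∈ A, u e) *
            (a / N * ∑ i, GF ψ q l.edges (B' ∪ A) (fun A => F A ^ 2) (P i)))) / 2)) =
        fun P a =>
          (∑ A ∈ r.edges.powerset, (∏ e ∈ A, u e) * (a / N * ∑ i, GF ψ q l.edges (B ∪ A) F (P i))) *
          (∑ A ∈ r.edges.powerset, (∏ e ∈ A, u e) * (a / N * ∑ i, GF ψ q l.edges (B' ∪ A) F (P i))) +
          ((1 + Q / N) ^ r.size * (1 + Q / N) - 1) / 2 * ((∑ A ∈ r.edges.powerset, (∏ e ∈ A, u e) *
            (a / N * ∑ i, GF ψ q l.edges (B ∪ A) (fun A => F A ^ 2) (P i))) *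
            (∑ A ∈ r.edges.powerset, (∏ e ∈ A, u e) *
            (a / N * ∑ i, GF ψ q l.edges (B' ∪ A) (fun _ => 1) (P i))) +
            (∑ A ∈ r.edges.powerset, (∏ e ∈ A, u e) *
            (a / N * ∑ i, GF ψ q l.edges (B' ∪ A) (fun A => F A ^ 2) (P i))) *
            (∑ A ∈ r.edges.powerset, (∏ e ∈ A, u e) *
            (a / N * ∑ i, GF ψ q l.edges (B ∪ A) (fun _ => 1) (P i)))) := by
      funext P a
      ring
    rw [e4, trun_add, trun_mul, trun_add]
    have hκ : 0 ≤ ((1 + Q / N) ^ r.size * (1 + Q / N) - 1) / 2 := by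
      have : 1 ≤ (1 + Q / N) ^ r.size * (1 + Q / N) := by
        rw [← pow_succ]
        exact one_le_pow₀ (by linarith)
      linarith
    have g4 := mul_le_mul_of_nonneg_left (add_le_add g2 g3) hκ
    refine (add_le_add g1 g4).trans (le_of_eq ?_)
    have e5 : (1 + Q / N) ^ (ETree.node l r).size = (1 + Q / N) ^ l.size * ((1 + Q / N) ^ r.size * (1 + Q / N)) := by
      simp only [ETree.size]
      rw [← pow_succ, ← pow_add, add_assoc]
    rw [e5]
    ring

end Pool.Agent.Work.MP_63853a_lc.Tr
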