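import Pool.Agent.Work.MP_63853a_lc.Tr.G.TFst
import Pool.Agent.Work.MP_63853a_lc.Tr.G.TTwo

set_option autoImplicit false

/-!
# TChb (size M): the inequality of Chebyshev

Let `S = t.edges = univ`, `B = ∅`; `univ \ univ = ∅`, so `GF ψ q univ ∅ F A = F A` and `PF ψ q u univ ∅ F = ∑ A, wg ψ q u A * F A =: Z`.
By `trun_fst`, `trun_two`: `E X = Z`, `E X^2 ≤ Z^2 + (K - 1) * D`, `D = (∑ wg F^2) (∑ wg)`, for `X = a / N * ∑ i, F (P i)`, so
`E (X - Z)^2 ≤ (K - 1) D ≤ (δ Z)^2 / 4`; finish as in `Tr/Chb.lean` (proved).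
-/

namespace Pool.Agent.Work.MP_63853a_lc.Tr

open Finset Pool.Agent.Work.MP_63853a_lc

variable {V E : Type} [Fintype E]

open Classical in
theorem trun_cheb (ψ : E → V × V) {q : ℝ} (hq : 0 < q) {u : E → ℝ} (hu : ∀ e, 0 < u e) {N : ℕ} (hN : 0 < N)
    (Q : ℝ) (hQ : 0 ≤ Q) (F : Finset E → ℝ) (hF : ∀ A, 0 < F A) (t : ETree E) (ht : t.Nodup) (htu : t.edges = univ)
    (hosc : ∀ S ∈ t.sets, ∀ B A A' : Finset E, Disjoint B S → A ⊆ S → A' ⊆ S → FF ψ q S B A ≤ Q * FF ψ q S B A')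
    (δ : ℝ) (hδ : 0 < δ)
    (hK : ((1 + Q / N) ^ t.size - 1) * ((∑ A : Finset E, wg ψ q u A) * ∑ A : Finset E, wg ψ q u A * F A ^ 2) ≤
      (δ * ∑ A : Finset E, wg ψ q u A * F A) ^ 2 / 4) :
    3 / 4 ≤ trun ψ q u N t (fun P m =>
      if |m / N * ∑ i, F (P i) - ∑ A : Finset E, wg ψ q u A * F A| ≤ δ * ∑ A : Finset E, wg ψ q u A * F A
      then 1 else 0) := by
  have hNr : (0 : ℝ) < N := Nat.cast_pos.2 hN
  have hw : ∀ A : Finset E, 0 < wg ψ q u A := fun A =>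
    mul_pos (prod_pos fun e _ => hu e) (pow_pos hq _)
  have hGF : ∀ (G : Finset E → ℝ) (A : Finset E), GF ψ q t.edges ∅ G A = G A := by
    intro G A
    unfold GF
    rw [htu, sdiff_self, Finset.bot_eq_empty, union_empty, div_self (pow_pos hq _).ne', one_mul]
  have hPF : ∀ G : Finset E → ℝ, PF ψ q u t.edges ∅ G = ∑ A : Finset E, wg ψ q u A * G A := by
    intro G
    unfold PF wg
    rw [htu, powerset_univ]
    refine sum_congr rfl fun A _ => ?_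
    rw [union_empty, mul_assoc]
  have hdis : Disjoint (∅ : Finset E) t.edges := disjoint_empty_left _
  have h1 := trun_fst ψ hq hu hN t ht ∅ hdis F
  simp only [hGF, hPF] at h1
  have h2 := trun_two ψ hq hu hN Q hQ F (fun A => (hF A).le) t ht hosc ∅ ∅ hdis hdis
  simp only [hGF, hPF, mul_one] at h2
  set Z := ∑ A : Finset E, wg ψ q u A * F A with hZ
  have hZ0 : 0 < Z := sum_pos (fun A _ => mul_pos (hw A) (hF A)) ⟨∅, mem_univ _⟩
  set W := ∑ A : Finset E, wg ψ q u A with hW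
  set Y := ∑ A : Finset E, wg ψ q u A * F A ^ 2 with hY
  have h3 := trun_one ψ hq hu hN t
  have h4 : trun ψ q u N t (fun P a => 1 + -(1 / (δ * Z) ^ 2) *
      (((a / N * ∑ i, F (P i)) * (a / N * ∑ i, F (P i))) +
        ((-2 * Z) * (a / N * ∑ i, F (P i)) + Z ^ 2 * 1))) =
      1 + -(1 / (δ * Z) ^ 2) * (trun ψ q u N t (fun P a => (a / N * ∑ i, F (P i)) *
        (a / N * ∑ i, F (P i))) + ((-2 * Z) * Z + Z ^ 2 * 1)) := by
    rw [trun_add ψ q u N t (fun _ _ => 1) (fun P a => -(1 / (δ * Z) ^ 2) *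
      (((a / N * ∑ i, F (P i)) * (a / N * ∑ i, F (P i))) +
        ((-2 * Z) * (a / N * ∑ i, F (P i)) + Z ^ 2 * 1))), h3,
      trun_mul ψ q u N t _ (fun P a => ((a / N * ∑ i, F (P i)) * (a / N * ∑ i, F (P i))) +
        ((-2 * Z) * (a / N * ∑ i, F (P i)) + Z ^ 2 * 1)),
      trun_add ψ q u N t (fun P a => (a / N * ∑ i, F (P i)) * (a / N * ∑ i, F (P i)))
        (fun P a => (-2 * Z) * (a / N * ∑ i, F (P i)) + Z ^ 2 * 1),
      trun_add ψ q u N t (fun P a => (-2 * Z) * (a / N * ∑ i, F (P i))) (fun _ _ => Z ^ 2 * 1),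
      trun_mul ψ q u N t (-2 * Z) (fun P a => a / N * ∑ i, F (P i)), h1,
      trun_mul ψ q u N t (Z ^ 2) (fun _ _ => 1), h3]
  have hD : 0 < (δ * Z) ^ 2 := by positivity
  have h5 : trun ψ q u N t (fun P a => 1 + -(1 / (δ * Z) ^ 2) *
      (((a / N * ∑ i, F (P i)) * (a / N * ∑ i, F (P i))) +
        ((-2 * Z) * (a / N * ∑ i, F (P i)) + Z ^ 2 * 1))) ≤
      trun ψ q u N t (fun P m => if |m / N * ∑ i, F (P i) - Z| ≤ δ * Z then 1 else 0) := by
    refine trun_mono ψ hq hu hN t _ _ fun P m _ _ => ?_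
    generalize m / N * ∑ i, F (P i) = a
    have e1 : (a * a) + ((-2 * Z) * a + Z ^ 2 * 1) = (a - Z) ^ 2 := by ring
    rw [e1]
    split_ifs with hc
    · have : 0 ≤ 1 / (δ * Z) ^ 2 * (a - Z) ^ 2 := by positivity
      linarith
    · rw [not_le] at hc
      have h6 : (δ * Z) ^ 2 ≤ (a - Z) ^ 2 := by
        rw [← sq_abs (a - Z)]
        exact pow_le_pow_left₀ (by positivity) hc.le 2
      have h7 : 1 ≤ 1 / (δ * Z) ^ 2 * (a - Z) ^ 2 := by
        rw [one_div, inv_mul_eq_div, one_le_div hD]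
        exact h6
      linarith
  refine le_trans ?_ h5
  rw [h4]
  have h8 : trun ψ q u N t (fun P a => (a / N * ∑ i, F (P i)) * (a / N * ∑ i, F (P i))) +
      ((-2 * Z) * Z + Z ^ 2 * 1) ≤ 1 / 4 * (δ * Z) ^ 2 := by
    have e2 : (Y * W + W * Y) / 2 = W * Y := by ring
    rw [e2] at h2
    nlinarith
  have h9 : 1 / (δ * Z) ^ 2 * (trun ψ q u N t (fun P a => (a / N * ∑ i, F (P i)) *
      (a / N * ∑ i, F (P i))) + ((-2 * Z) * Z + Z ^ 2 * 1)) ≤ 1 / 4 := by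
    rw [one_div, inv_mul_eq_div, div_le_iff₀ hD]
    exact h8
  linarith

end Pool.Agent.Work.MP_63853a_lc.Tr
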