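import Pool.Agent.Work.MP_63853a_lc.Tr.Draw
import Pool.Agent.Work.MP_63853a_lc.Tr.G.TRun
import Pool.Agent.Work.MP_63853a_lc.Tr.G.TPhi

set_option autoImplicit false

/-!
# TFst (size S-M): the sampler is unbiased for every function

Copy of `Tr/Fst.lean` (proved), with `GF`, `PF`, `GF_join'`, `GF_swap`, `PF_union` in place of `FF`, `Phi`, ...
-/

namespace Pool.Agent.Work.MP_63853a_lc.Tr

open Finset Pool.Agent.Work.MP_63853a_lc

variable {V E : Type} [Fintype E]

open Classical in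
private theorem nodeX (ψ : E → V × V) {q : ℝ} (hq : 0 < q) {N : ℕ} (S₁ S₂ B : Finset E)
    (F : Finset E → ℝ) (P R : Fin N → Finset E) (a b : ℝ) :
    ∑ i : Fin N × Fin N, a * b / N ^ 2 * (q ^ kk ψ (P i.1 ∪ R i.2 ∪ (univ \ (S₁ ∪ S₂))) /
        (q ^ kk ψ (P i.1 ∪ (univ \ S₁)) * q ^ kk ψ (R i.2 ∪ (univ \ S₂)))) *
          GF ψ q (S₁ ∪ S₂) B F (P i.1 ∪ R i.2) =
      a / N * ∑ i, (1 / q ^ kk ψ (P i ∪ (univ \ S₁))) *
        (b / N * ∑ j, GF ψ q S₂ (B ∪ P i) F (R j)) := by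
  rw [Fintype.sum_prod_type, Finset.mul_sum]
  refine Finset.sum_congr rfl fun i _ => ?_
  rw [Finset.mul_sum, Finset.mul_sum, Finset.mul_sum]
  refine Finset.sum_congr rfl fun j _ => ?_
  rw [mul_assoc, GF_join' ψ hq]
  ring

open Classical in
private theorem swapX (ψ : E → V × V) (q : ℝ) (u : E → ℝ) {N : ℕ} (S₁ S₂ B : Finset E)
    (F : Finset E → ℝ) (P : Fin N → Finset E) (a : ℝ) :
    a / N * ∑ i, (1 / q ^ kk ψ (P i ∪ (univ \ S₁))) * PF ψ q u S₂ (B ∪ P i) F =
      ∑ A ∈ S₂.powerset, (∏ e ∈ A, u e) * (a / N * ∑ i, GF ψ q S₁ (B ∪ A) F (P i)) := by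
  have h : ∀ i, (1 / q ^ kk ψ (P i ∪ (univ \ S₁))) * PF ψ q u S₂ (B ∪ P i) F =
      ∑ A ∈ S₂.powerset, (∏ e ∈ A, u e) * GF ψ q S₁ (B ∪ A) F (P i) := by
    intro i
    exact GF_swap ψ q u S₂ S₁ B F (P i)
  rw [Finset.sum_congr rfl fun i _ => h i, Finset.sum_comm, Finset.mul_sum]
  refine Finset.sum_congr rfl fun A _ => ?_
  rw [← Finset.mul_sum]
  ring

theorem trun_fst (ψ : E → V × V) {q : ℝ} (hq : 0 < q) {u : E → ℝ} (hu : ∀ e, 0 < u e) {N : ℕ} (hN : 0 < N)
    (t : ETree E) (ht : t.Nodup) (B : Finset E) (hB : Disjoint B t.edges) (F : Finset E → ℝ) :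
    trun ψ q u N t (fun P a => a / N * ∑ i, GF ψ q t.edges B F (P i)) = PF ψ q u t.edges B F := by
  classical
  have hNr : (0 : ℝ) < N := Nat.cast_pos.2 hN
  induction t generalizing B with
  | nil =>
    simp only [trun, ETree.edges]
    rw [Finset.sum_const, Finset.card_univ, Fintype.card_fin, nsmul_eq_mul, PF_nil]
    simp only [GF, Finset.empty_union, Finset.sdiff_empty]
    have : q ^ kk ψ univ ≠ 0 := (pow_pos hq _).ne'
    field_simp
  | leaf e =>
    simp only [trun, ETree.edges]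
    have h1 : 0 < q ^ kk ψ univ := pow_pos hq _
    have h2 : 0 < q ^ kk ψ (univ \ {e}) := pow_pos hq _
    have h4 := hu e
    rw [draw_fst N hN _ _ (by rw [Fintype.sum_bool]; simp only [if_true, Bool.false_eq_true, if_false]; positivity),
      Fintype.sum_bool, PF_leaf]
    simp only [if_true, Bool.false_eq_true, if_false, GF, Finset.empty_union]
    have h3 : ({e} : Finset E) ∪ (univ \ {e}) = univ := Finset.union_sdiff_of_subset (Finset.subset_univ _)
    rw [h3]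
    field_simp
    ring
  | node l r ihl ihr =>
    obtain ⟨hd, hl, hr⟩ := ht
    simp only [ETree.edges] at hB ⊢
    rw [Finset.disjoint_union_right] at hB
    have e1 : ∀ (P : Fin N → Finset E) (a : ℝ), (∀ i, P i ⊆ l.edges) → 0 < a →
        (trun ψ q u N r fun R b => draw N (fun i : Fin N × Fin N => P i.1 ∪ R i.2)
          (fun i => a * b / N ^ 2 * (q ^ kk ψ (P i.1 ∪ R i.2 ∪ (univ \ (l.edges ∪ r.edges))) /
            (q ^ kk ψ (P i.1 ∪ (univ \ l.edges)) * q ^ kk ψ (R i.2 ∪ (univ \ r.edges)))))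
          (fun P' m => m / N * ∑ i, GF ψ q (l.edges ∪ r.edges) B F (P' i))) =
        ∑ A ∈ r.edges.powerset, (∏ e ∈ A, u e) *
          (a / N * ∑ i, GF ψ q l.edges (B ∪ A) F (P i)) := by
      intro P a hP ha
      have e2 : (trun ψ q u N r fun R b => draw N (fun i : Fin N × Fin N => P i.1 ∪ R i.2)
          (fun i => a * b / N ^ 2 * (q ^ kk ψ (P i.1 ∪ R i.2 ∪ (univ \ (l.edges ∪ r.edges))) /
            (q ^ kk ψ (P i.1 ∪ (univ \ l.edges)) * q ^ kk ψ (R i.2 ∪ (univ \ r.edges)))))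
          (fun P' m => m / N * ∑ i, GF ψ q (l.edges ∪ r.edges) B F (P' i))) =
          trun ψ q u N r fun R b => a / N * ∑ i, (1 / q ^ kk ψ (P i ∪ (univ \ l.edges))) *
            (b / N * ∑ j, GF ψ q r.edges (B ∪ P i) F (R j)) := by
        refine trun_congr ψ hq hu hN r _ _ fun R b hR hb => ?_
        rw [draw_fst N hN, nodeX ψ hq]
        have : Nonempty (Fin N × Fin N) := ⟨(⟨0, hN⟩, ⟨0, hN⟩)⟩
        refine (Finset.sum_pos (fun i _ => ?_) Finset.univ_nonempty).ne'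
        positivity
      rw [e2, trun_mul, trun_sum]
      have e3 : ∀ i, trun ψ q u N r (fun R b => (1 / q ^ kk ψ (P i ∪ (univ \ l.edges))) *
            (b / N * ∑ j, GF ψ q r.edges (B ∪ P i) F (R j))) =
          (1 / q ^ kk ψ (P i ∪ (univ \ l.edges))) * PF ψ q u r.edges (B ∪ P i) F := by
        intro i
        rw [trun_mul, ihr hr]
        rw [Finset.disjoint_union_left]
        exact ⟨hB.2, Finset.disjoint_of_subset_left (hP i) hd⟩
      rw [Finset.sum_congr rfl fun i _ => e3 i, swapX]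
    change trun ψ q u N l (fun P a => trun ψ q u N r fun R b => draw N (fun i : Fin N × Fin N => P i.1 ∪ R i.2)
          (fun i => a * b / N ^ 2 * (q ^ kk ψ (P i.1 ∪ R i.2 ∪ (univ \ (l.edges ∪ r.edges))) /
            (q ^ kk ψ (P i.1 ∪ (univ \ l.edges)) * q ^ kk ψ (R i.2 ∪ (univ \ r.edges)))))
          (fun P' m => m / N * ∑ i, GF ψ q (l.edges ∪ r.edges) B F (P' i))) = _
    rw [trun_congr ψ hq hu hN l _ _ e1, trun_sum]
    have e4 : ∀ A ∈ r.edges.powerset, trun ψ q u N l (fun P a => (∏ e ∈ A, u e) *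
        (a / N * ∑ i, GF ψ q l.edges (B ∪ A) F (P i))) =
        (∏ e ∈ A, u e) * PF ψ q u l.edges (B ∪ A) F := by
      intro A hA
      rw [trun_mul, ihl hl]
      rw [Finset.disjoint_union_left]
      exact ⟨hB.1, Finset.disjoint_of_subset_left (Finset.mem_powerset.1 hA) hd.symm⟩
    rw [Finset.sum_congr rfl e4, PF_union ψ q u hd.symm, union_comm]

end Pool.Agent.Work.MP_63853a_lc.Tr
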