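import Pool.Agent.Work.MP_63853a_lc.Tr.G.Defs

set_option autoImplicit false

/-!
# Definitions: girth
-/

namespace Pool.Agent.Work.MP_63853a_lc.Tr

open Finset Pool.Agent.Work.MP_63853a_lc

/-- every set of fewer than `g` edges is a forest (the girth is at least `g`) -/
def Girth {V E : Type} [Fintype V] (φ : E → V × V) (g : ℝ) : Prop :=
  ∀ A : Finset E, (A.card : ℝ) < g → A.card + kk φ A = Fintype.card V

open Classical in
/-- `P` is a minimal set of edges which connects `u` and `z` -/
def MinC {V E : Type} (φ : E → V × V) (u z : V) (P : Finset E) : Prop :=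
  cls φ P u = cls φ P z ∧ ∀ e ∈ P, cls φ (P.erase e) u ≠ cls φ (P.erase e) z

end Pool.Agent.Work.MP_63853a_lc.Tr
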