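import Pool.Agent.Work.MP_63853a_lc.Tr.G.VDefs
import Pool.Agent.Work.MP_63853a_lc.Tr.Sub

set_option autoImplicit false

/-!
# VPath (size M): minimal connecting sets

Use `cls_mono`, `Quot.eqvGen_exact` / `Relation.EqvGen` or the following fact (`KBasic`): if `cls φ (insert e A) u = cls φ (insert e A) w` and
`cls φ A u ≠ cls φ A w`, then (`a = (φ e).1`, `b = (φ e).2`) `cls φ A u = cls φ A a ∧ cls φ A b = cls φ A w` or the same with `a`, `b`
exchanged (the map which sends the class of `b` to the class of `a`, `Quot.lift`, as in `kk_insert_cross`).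
`minc_exists`: a subset of `A` of minimal cardinality which connects. `minc_prefix`: induction on `card P - r`: if `P` is minimal for
`u`, `w` and nonempty then `u ≠ w` and some edge `e` of `P` is incident with `w` (otherwise `w` is alone in its class); let `w'` be its
other end. `P.erase e` does not connect `u`, `w`, so by the fact it connects `u` and `w'`; it is minimal: if `(P.erase e).erase f` connects
`u`, `w'` then `P.erase f` connects `u`, `w`. `minc_unique`: if `e ∈ P`, `e ∉ F`, then (fact) `P.erase e` connects `u` with one end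
of `e` and `z` with the other, and `F` connects `u`, `z`; so `(P ∪ F).erase e` connects the ends of `e`, and
`kk φ (P ∪ F) = kk φ ((P ∪ F).erase e)` (`kk_insert_eq`), which contradicts `hfor` for the two sets; symmetric for `e ∈ F`, `e ∉ P`.
`cyc_path`: if every `e ∈ A` crosses `A.erase e` then, adding the edges one by one (`cross_anti`), `A.card + kk φ A = card V`. So some
`e ∈ A` does not cross `A.erase e`; take `P` from `minc_exists`; `kk φ (insert e P) = kk φ P` and `card V ≤ kk φ P + P.card`
(`card_le`).
-/

namespace Pool.Agent.Work.MP_63853a_lc.Tr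

open Finset Pool.Agent.Work.MP_63853a_lc

variable {V E : Type} [Fintype V] [Fintype E]

open Classical in
private theorem splitc (φ : E → V × V) {A : Finset E} {e : E} {u w : V}
    (h1 : cls φ (insert e A) u = cls φ (insert e A) w) (h2 : cls φ A u ≠ cls φ A w) :
    (cls φ A u = cls φ A (φ e).1 ∧ cls φ A (φ e).2 = cls φ A w) ∨
      (cls φ A u = cls φ A (φ e).2 ∧ cls φ A (φ e).1 = cls φ A w) := by
  let f : Cl φ (insert e A) → Cl φ A := Quot.lift
    (fun v => if cls φ A v = cls φ A (φ e).2 then cls φ A (φ e).1 else cls φ A v) (by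
      rintro u v ⟨e', he1, huv⟩
      rcases Finset.mem_insert.1 he1 with rfl | he1
      · rw [huv]
        simp
      · have h1 : cls φ A u = cls φ A v := Quot.sound ⟨e', he1, huv⟩
        simp only [h1])
  have h3 := congrArg f h1
  change (if cls φ A u = cls φ A (φ e).2 then cls φ A (φ e).1 else cls φ A u) =
    (if cls φ A w = cls φ A (φ e).2 then cls φ A (φ e).1 else cls φ A w) at h3
  split_ifs at h3 with h4 h5 h5
  · exact absurd (h4.trans h5.symm) h2
  · exact Or.inr ⟨h4, h3⟩
  · exact Or.inl ⟨h3, h5.symm⟩
  · exact absurd h3 h2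

private theorem cls_edge (φ : E → V × V) {A : Finset E} {e : E} (he : e ∈ A) :
    cls φ A (φ e).1 = cls φ A (φ e).2 := Quot.sound ⟨e, he, rfl⟩

theorem minc_exists (φ : E → V × V) {A : Finset E} {u w : V} (h : cls φ A u = cls φ A w) :
    ∃ P ⊆ A, MinC φ u w P := by
  classical
  have hne : (A.powerset.filter fun P => cls φ P u = cls φ P w).Nonempty :=
    ⟨A, mem_filter.2 ⟨mem_powerset.2 (Finset.Subset.refl A), h⟩⟩
  obtain ⟨P, hP, hmin⟩ := Finset.exists_min_image _ (fun P : Finset E => P.card) hne
  rw [mem_filter, mem_powerset] at hP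
  refine ⟨P, hP.1, hP.2, ?_⟩
  intro e he hc
  have h1 : P.erase e ∈ A.powerset.filter fun P => cls φ P u = cls φ P w := by
    rw [mem_filter, mem_powerset]
    refine ⟨(Finset.erase_subset e P).trans hP.1, ?_⟩
    exact hc
  have h2 := hmin _ h1
  have h3 := Finset.card_erase_lt_of_mem he
  omega

private theorem step (φ : E → V × V) {u w : V} {P : Finset E} (h : MinC φ u w P) (hne : P.Nonempty) :
    ∃ w' : V, ∃ P' ⊆ P, P'.card + 1 = P.card ∧ MinC φ u w' P' := by
  classical
  obtain ⟨hc, hm⟩ := h
  have huw : u ≠ w := by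
    rintro rfl
    obtain ⟨e, he⟩ := hne
    exact hm e he rfl
  have hinc : ∃ e ∈ P, (φ e).1 = w ∨ (φ e).2 = w := by
    by_contra hno
    push Not at hno
    have h1 := congrArg (Quot.lift (fun v => (v = w : Prop)) (by
      rintro a b ⟨e, he, hab⟩
      have h2 := hno e he
      rw [hab] at h2
      simp only [h2.1, h2.2])) hc
    change (u = w) = (w = w) at h1
    exact huw (h1.mpr rfl)
  obtain ⟨e, he, hew⟩ := hinc
  have hins : insert e (P.erase e) = P := Finset.insert_erase he
  have hn : cls φ (P.erase e) u ≠ cls φ (P.erase e) w := by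
    exact hm e he
  have hc' : cls φ (insert e (P.erase e)) u = cls φ (insert e (P.erase e)) w := by
    rw [hins]
    exact hc
  have hsp := splitc φ hc' hn
  have hw' : ∃ w', cls φ (P.erase e) u = cls φ (P.erase e) w' ∧ (φ e = (w, w') ∨ φ e = (w', w)) := by
    rcases hew with h1 | h1
    · rcases hsp with h2 | h2
      · exact absurd (h2.1.trans (by rw [h1])) hn
      · refine ⟨(φ e).2, h2.1, Or.inl ?_⟩
        rw [← h1]
    · rcases hsp with h2 | h2
      · refine ⟨(φ e).1, h2.1, Or.inr ?_⟩
        rw [← h1]
      · exact absurd (h2.1.trans (by rw [h1])) hn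
  obtain ⟨w', hw1, hw2⟩ := hw'
  refine ⟨w', P.erase e, Finset.erase_subset e P, Finset.card_erase_add_one he, hw1, ?_⟩
  intro f hf hcf
  rw [Finset.mem_erase] at hf
  have hcf' : cls φ ((P.erase e).erase f) u = cls φ ((P.erase e).erase f) w' := by
    exact hcf
  have h3 : cls φ (P.erase f) u = cls φ (P.erase f) w' :=
    cls_mono φ (Finset.erase_subset_erase f (Finset.erase_subset e P)) hcf'
  have h4 : cls φ (P.erase f) w' = cls φ (P.erase f) w := by
    have h5 : e ∈ P.erase f := Finset.mem_erase.2 ⟨fun h6 => hf.1 h6.symm, he⟩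
    rcases hw2 with h6 | h6
    · have h7 := cls_edge φ h5
      rw [h6] at h7
      exact h7.symm
    · have h7 := cls_edge φ h5
      rw [h6] at h7
      exact h7
  have h8 := hm f hf.2
  apply h8
  exact h3.trans h4

theorem minc_prefix (φ : E → V × V) {u w : V} {P : Finset E} (h : MinC φ u w P) {r : ℕ} (hr : r ≤ P.card) :
    ∃ z : V, ∃ P' ⊆ P, P'.card = r ∧ MinC φ u z P' := by
  have key : ∀ n : ℕ, ∀ (w : V) (P : Finset E), P.card = r + n → MinC φ u w P →
      ∃ z : V, ∃ P' ⊆ P, P'.card = r ∧ MinC φ u z P' := by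
    intro n
    induction n with
    | zero =>
      intro w P hP hm
      exact ⟨w, P, Finset.Subset.refl P, hP, hm⟩
    | succ n ih =>
      intro w P hP hm
      have hne : P.Nonempty := by
        rw [← Finset.card_pos]
        omega
      obtain ⟨w', P', h1, h2, h3⟩ := step φ hm hne
      obtain ⟨z, P'', h4, h5, h6⟩ := ih w' P' (by omega) h3
      exact ⟨z, P'', h4.trans h1, h5, h6⟩
  obtain ⟨n, hn⟩ := Nat.exists_eq_add_of_le hr
  exact key n w P hn h

open Classical in
private theorem uni_aux (φ : E → V × V) {u z : V} {P F : Finset E} (hP : MinC φ u z P)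
    (hF : cls φ F u = cls φ F z) (hfor : ∀ A ⊆ P ∪ F, A.card + kk φ A = Fintype.card V) {e : E} (he : e ∈ P)
    (he' : e ∉ F) : False := by
  obtain ⟨hc, hm⟩ := hP
  have hins : insert e (P.erase e) = P := Finset.insert_erase he
  have hc' : cls φ (insert e (P.erase e)) u = cls φ (insert e (P.erase e)) z := by
    rw [hins]
    exact hc
  have hn : cls φ (P.erase e) u ≠ cls φ (P.erase e) z := hm e he
  have hsub1 : P.erase e ⊆ (P ∪ F).erase e := Finset.erase_subset_erase e Finset.subset_union_left
  have hsub2 : F ⊆ (P ∪ F).erase e := fun f hf =>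
    Finset.mem_erase.2 ⟨fun h => he' (h ▸ hf), Finset.mem_union_right _ hf⟩
  have hF' := cls_mono φ hsub2 hF
  have hnc : ¬ Cross φ ((P ∪ F).erase e) e := by
    intro hx
    apply hx
    rcases splitc φ hc' hn with h | h
    · have h1 := cls_mono φ hsub1 h.1
      have h2 := cls_mono φ hsub1 h.2
      rw [← h1, h2, hF']
    · have h1 := cls_mono φ hsub1 h.1
      have h2 := cls_mono φ hsub1 h.2
      rw [← h1, h2, hF']
  have h3 := kk_insert_eq φ hnc
  have heu : e ∈ P ∪ F := Finset.mem_union_left _ he
  rw [Finset.insert_erase heu] at h3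
  have h4 := hfor (P ∪ F) (Finset.Subset.refl _)
  have h5 := hfor ((P ∪ F).erase e) (Finset.erase_subset _ _)
  have h6 := Finset.card_erase_add_one heu
  omega

open Classical in
theorem minc_unique (φ : E → V × V) {u z : V} {P F : Finset E} (hP : MinC φ u z P) (hF : MinC φ u z F)
    (hfor : ∀ A ⊆ P ∪ F, A.card + kk φ A = Fintype.card V) : P = F := by
  ext e
  constructor
  · intro he
    by_contra he'
    exact uni_aux φ hP hF.1 hfor he he'
  · intro he
    by_contra he'
    refine uni_aux φ hF hP.1 (fun A hA => hfor A ?_) he he'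
    rw [Finset.union_comm]
    exact hA

open Classical in
theorem cyc_path (φ : E → V × V) {A : Finset E} (h : A.card + kk φ A ≠ Fintype.card V) :
    ∃ e ∈ A, ∃ P ⊆ A.erase e, MinC φ (φ e).1 (φ e).2 P ∧
      (insert e P).card + kk φ (insert e P) ≠ Fintype.card V := by
  have hex : ∃ e ∈ A, ¬ Cross φ (A.erase e) e := by
    by_contra hno
    push Not at hno
    apply h
    have key : ∀ B : Finset E, B ⊆ A → B.card + kk φ B = Fintype.card V := by
      intro B
      induction B using Finset.induction_on with
      | empty =>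
        intro _
        rw [kk_empty, Finset.card_empty, zero_add]
      | insert e B he ih =>
        intro hB
        have h1 := ih ((Finset.subset_insert e B).trans hB)
        have h2 : B ⊆ A.erase e := fun f hf =>
          Finset.mem_erase.2 ⟨fun h3 => he (h3 ▸ hf), hB (Finset.mem_insert_of_mem hf)⟩
        have h3 := kk_insert_cross φ (cross_anti φ h2 (hno e (hB (Finset.mem_insert_self e B))))
        rw [Finset.card_insert_of_notMem he]
        omega
    exact key A (Finset.Subset.refl A)
  obtain ⟨e, he, hc⟩ := hex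
  have hc' : cls φ (A.erase e) (φ e).1 = cls φ (A.erase e) (φ e).2 := by
    by_contra h1
    exact hc h1
  obtain ⟨P, hPA, hP⟩ := minc_exists φ hc'
  refine ⟨e, he, P, hPA, hP, ?_⟩
  have heP : e ∉ P := fun h1 => (Finset.mem_erase.1 (hPA h1)).1 rfl
  have h2 : ¬ Cross φ P e := fun h3 => h3 hP.1
  rw [kk_insert_eq φ h2, Finset.card_insert_of_notMem heP]
  have h3 := card_le φ P
  omega

end Pool.Agent.Work.MP_63853a_lc.Tr
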